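import Mathlib

/-! Subsets of affine space contained in a hypersurface. -/

namespace Pool.Agent.H13.Kob

open MvPolynomial

/-- `B` lies in the zero set of a nonzero polynomial. -/
def Thin {ι : Type} (B : Set (ι → ℂ)) : Prop :=
  ∃ P : MvPolynomial ι ℂ, P ≠ 0 ∧ ∀ x ∈ B, eval x P = 0

lemma Thin.mono {ι : Type} {B C : Set (ι → ℂ)} (h : Thin C) (hBC : B ⊆ C) : Thin B := by
  obtain ⟨P, hP, h0⟩ := h
  exact ⟨P, hP, fun x hx => h0 x (hBC hx)⟩

lemma thin_iUnion {ι : Type} {T : Type} [Finite T] (B : T → Set (ι → ℂ)) (h : ∀ t, Thin (B t)) :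
    Thin (⋃ t, B t) := by
  classical
  have := Fintype.ofFinite T
  choose P hP h0 using h
  refine ⟨∏ t, P t, Finset.prod_ne_zero_iff.mpr fun t _ => hP t, ?_⟩
  intro x hx
  obtain ⟨t, ht⟩ := Set.mem_iUnion.mp hx
  rw [map_prod]
  exact Finset.prod_eq_zero (Finset.mem_univ t) (h0 t x ht)

/-- images of polynomial maps from a space of smaller dimension are thin -/
lemma thin_of_param {ι κ : Type} [Finite ι] [Finite κ] (hcard : Nat.card κ < Nat.card ι)
    (f : ι → MvPolynomial κ ℂ) : Thin {x : ι → ℂ | ∃ p : κ → ℂ, ∀ i, x i = eval p (f i)} := by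
  have hdep : ¬ AlgebraicIndependent ℂ f := by
    intro hind
    have h1 := hind.cardinalMk_le_trdeg
    rw [MvPolynomial.trdeg_of_isDomain, Cardinal.lift_id] at h1
    rw [← Nat.cast_card, ← Nat.cast_card] at h1
    have h2 : Nat.card ι ≤ Nat.card κ := by exact_mod_cast h1
    omega
  rw [algebraicIndependent_iff] at hdep
  push Not at hdep
  obtain ⟨P, hP, hP0⟩ := hdep
  refine ⟨P, hP0, ?_⟩
  rintro x ⟨p, hp⟩
  have h1 := congrArg (eval p) hP
  rw [map_zero] at h1
  rw [← h1]
  have h2 : x = fun i => eval p (f i) := funext hp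
  rw [h2]
  have h3 : (eval p : MvPolynomial κ ℂ →+* ℂ) (aeval f P) = eval (fun i => eval p (f i)) P := by
    rw [aeval_def, ← coe_eval₂Hom]
    have : (eval p : MvPolynomial κ ℂ →+* ℂ).comp (eval₂Hom (algebraMap ℂ (MvPolynomial κ ℂ)) f)
        = eval (fun i => eval p (f i)) := by
      apply MvPolynomial.ringHom_ext
      · intro r; simp
      · intro i; simp
    exact congrArg (fun g : MvPolynomial ι ℂ →+* ℂ => g P) this
  rw [h3]

/-- exponents of total degree `d` in `N` variables -/
def mons (N d : ℕ) : Finset (Fin N →₀ ℕ) := Finset.univ.finsuppAntidiag d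

lemma mem_mons {N d : ℕ} {α : Fin N →₀ ℕ} : α ∈ mons N d ↔ ∑ i, α i = d := by
  simp [mons, Finset.mem_finsuppAntidiag]

lemma coeff_eq_zero {N d : ℕ} {F : MvPolynomial (Fin N) ℂ} (hF : F.IsHomogeneous d) {α : Fin N →₀ ℕ}
    (hα : α ∉ mons N d) : F.coeff α = 0 := by
  by_contra h
  apply hα
  rw [mem_mons]
  have := hF h
  rw [← this, Finsupp.weight_apply, Finsupp.sum_fintype]
  · simp
  · simp

/-- A thin set of coefficient vectors of forms of degree `d` is avoided by a nonempty
Zariski-open set of forms. -/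
lemma exists_open {N d : ℕ} {B : Set ((mons N d) → ℂ)} (hB : Thin B) :
    ∃ P : MvPolynomial (Fin N →₀ ℕ) ℂ,
      (∃ F₀ : MvPolynomial (Fin N) ℂ, F₀.IsHomogeneous d ∧ eval (fun m => F₀.coeff m) P ≠ 0) ∧
      ∀ F : MvPolynomial (Fin N) ℂ, F.IsHomogeneous d → eval (fun m => F.coeff m) P ≠ 0 →
        (fun m : mons N d => F.coeff m.1) ∉ B := by
  obtain ⟨P, hP, h0⟩ := hB
  refine ⟨rename Subtype.val P, ?_, ?_⟩
  · obtain ⟨x, hx⟩ : ∃ x : mons N d → ℂ, eval x P ≠ 0 := by
      by_contra hcon
      push Not at hcon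
      exact hP (MvPolynomial.funext fun x => by rw [hcon x, map_zero])
    refine ⟨∑ m : mons N d, monomial m.1 (x m), ?_, ?_⟩
    · refine IsHomogeneous.sum _ _ _ ?_
      intro m _
      apply isHomogeneous_monomial
      have := mem_mons.mp m.2
      rw [Finsupp.degree_eq_sum]
      exact this
    · rw [eval_rename]
      convert hx using 2
      congr 1
      funext m
      simp only [Function.comp_apply, coeff_sum, coeff_monomial]
      rw [Finset.sum_eq_single m]
      · simp
      · intro b _ hb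
        rw [if_neg]
        intro h
        exact hb (Subtype.ext h)
      · intro h; exact absurd (Finset.mem_univ m) h
  · intro F _ hne hmem
    apply hne
    rw [eval_rename]
    exact h0 _ hmem

end Pool.Agent.H13.Kob
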