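import Pool.Agent.H13.Kob.Thin

/-!
# Weights from large multiplicities
-/

namespace Pool.Agent.H13.Kob

lemma nat_scale {J : Type*} [Fintype J] (x : J → ℚ) :
    ∃ (L B : ℚ) (a : J → ℕ), L ≠ 0 ∧ ∀ j, (a j : ℚ) = L * x j + B := by
  set Ld : ℕ := ∏ j, (x j).den with hLd
  have hLd0 : Ld ≠ 0 := Finset.prod_ne_zero_iff.mpr fun j _ => (x j).den_ne_zero
  have hint : ∀ j, ∃ b : ℤ, (b : ℚ) = Ld * x j := by
    intro j
    obtain ⟨k, hk⟩ : (x j).den ∣ Ld := Finset.dvd_prod_of_mem _ (Finset.mem_univ j)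
    refine ⟨k * (x j).num, ?_⟩
    rw [hk]
    push_cast
    have : ((x j).den : ℚ) * x j = (x j).num := Rat.den_mul_eq_num _
    linear_combination (-(k:ℚ)) * this
  choose b hb using hint
  obtain ⟨B, hB⟩ : ∃ B : ℤ, ∀ j, 0 ≤ b j + B := by
    refine ⟨∑ j, |b j|, fun j => ?_⟩
    have h1 : |b j| ≤ ∑ j, |b j| := Finset.single_le_sum (f := fun j => |b j|)
      (fun i _ => abs_nonneg _) (Finset.mem_univ j)
    have := neg_abs_le (b j)
    linarith
  refine ⟨Ld, B, fun j => (b j + B).toNat, by exact_mod_cast hLd0, fun j => ?_⟩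
  rw [← hb j]
  have : ((b j + B).toNat : ℤ) = b j + B := Int.toNat_of_nonneg (hB j)
  exact_mod_cast this

section

variable {N d : ℕ}

/-- the weight of an exponent vector, natural numbers -/
def nw (a : Fin N → ℕ) (α : Fin N →₀ ℕ) : ℕ := ∑ i, α i * a i

/-- the linear form `a ↦ ⟨α - β, a⟩` -/
noncomputable def df (α β : Fin N →₀ ℕ) : (Fin N → ℚ) →ₗ[ℚ] ℚ :=
  ∑ i, ((α i : ℚ) - β i) • LinearMap.proj i

lemma df_apply (α β : Fin N →₀ ℕ) (a : Fin N → ℚ) :
    df α β a = ∑ i, ((α i : ℚ) - β i) * a i := by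
  simp [df, LinearMap.sum_apply]

lemma df_nat (α β : Fin N →₀ ℕ) (a : Fin N → ℕ) :
    df α β (fun i => (a i : ℚ)) = (nw a α : ℚ) - nw a β := by
  rw [df_apply, nw, nw]
  push_cast
  rw [← Finset.sum_sub_distrib]
  apply Finset.sum_congr rfl
  intro i _
  ring

lemma bound_of_no_weight (C : ℕ) (J : Finset (Fin N))
    (E : (mons N d) × (mons N d) → Prop)
    (hno : ¬ ∃ a : Fin N → ℕ, (∃ i ∈ J, ∃ j ∈ J, a i ≠ a j) ∧
      ∀ e, E e → nw a e.1.1 = nw a e.2.1) :
    ∃ K : ℕ, ∀ m : Fin N → ℕ,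
      (∀ e, E e → nw m e.1.1 ≤ nw m e.2.1 + C ∧ nw m e.2.1 ≤ nw m e.1.1 + C) →
      ∀ i ∈ J, ∀ j ∈ J, m i ≤ m j + K := by
  classical
  -- each difference is a combination
  have hspan : ∀ i ∈ J, ∀ j ∈ J, ∃ c : {e // E e} → ℚ, ∀ a : Fin N → ℚ,
      a i - a j = ∑ e : {e // E e}, c e * df e.1.1.1 e.1.2.1 a := by
    intro i hi j hj
    have hmem : (LinearMap.proj (R := ℚ) (φ := fun _ : Fin N => ℚ) i
        - LinearMap.proj (R := ℚ) (φ := fun _ : Fin N => ℚ) j) ∈
        Submodule.span ℚ (Set.range fun e : {e // E e} => df e.1.1.1 e.1.2.1) := by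
      apply mem_span_of_iInf_ker_le_ker
      intro a ha
      rw [Submodule.mem_iInf] at ha
      by_contra hne
      have hne' : a i ≠ a j := by
        intro h
        apply hne
        rw [LinearMap.mem_ker, LinearMap.sub_apply, LinearMap.proj_apply, LinearMap.proj_apply, h,
          sub_self]
      apply hno
      obtain ⟨L, B, a', hL, ha'⟩ := nat_scale a
      refine ⟨a', ⟨i, hi, j, hj, ?_⟩, ?_⟩
      · intro h
        apply hne'
        have h1 := ha' i
        rw [h, ha' j] at h1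
        have h2 : L * (a i - a j) = 0 := by linear_combination -h1
        exact sub_eq_zero.mp ((mul_eq_zero.mp h2).resolve_left hL)
      · intro e he
        have h1 : df e.1.1 e.2.1 (fun i => (a' i : ℚ)) = 0 := by
          have h2 : df e.1.1 e.2.1 a = 0 := LinearMap.mem_ker.mp (ha ⟨e, he⟩)
          rw [df_apply] at h2
          rw [df_apply]
          have h3 : ∑ i, ((e.1.1 i : ℚ) - e.2.1 i) = 0 := by
            rw [Finset.sum_sub_distrib]
            have h4 := mem_mons.mp e.1.2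
            have h5 := mem_mons.mp e.2.2
            have h6 : ((∑ i, e.1.1 i : ℕ) : ℚ) = (∑ i, e.2.1 i : ℕ) := by rw [h4, h5]
            push_cast at h6
            linear_combination h6
          calc ∑ i, ((e.1.1 i : ℚ) - e.2.1 i) * (a' i : ℚ)
              = L * (∑ i, ((e.1.1 i : ℚ) - e.2.1 i) * a i)
                + B * ∑ i, ((e.1.1 i : ℚ) - e.2.1 i) := by
                rw [Finset.mul_sum, Finset.mul_sum, ← Finset.sum_add_distrib]
                apply Finset.sum_congr rfl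
                intro i _
                rw [ha']; ring
            _ = 0 := by rw [h2, h3]; ring
        rw [df_nat] at h1
        have := sub_eq_zero.mp h1
        exact_mod_cast this
    obtain ⟨c, hc⟩ := (Submodule.mem_span_range_iff_exists_fun ℚ).mp hmem
    refine ⟨c, fun a => ?_⟩
    have := congrArg (fun L : (Fin N → ℚ) →ₗ[ℚ] ℚ => L a) hc
    simp only [LinearMap.sum_apply, LinearMap.smul_apply, LinearMap.sub_apply,
      LinearMap.proj_apply, smul_eq_mul] at this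
    exact this.symm
  have hspan' : ∀ p : Fin N × Fin N, ∃ K : ℕ, p.1 ∈ J → p.2 ∈ J → ∀ m : Fin N → ℕ,
      (∀ e, E e → nw m e.1.1 ≤ nw m e.2.1 + C ∧ nw m e.2.1 ≤ nw m e.1.1 + C) →
      m p.1 ≤ m p.2 + K := by
    rintro ⟨i, j⟩
    by_cases hi : i ∈ J
    · by_cases hj : j ∈ J
      · obtain ⟨c, hc⟩ := hspan i hi j hj
        obtain ⟨K, hK⟩ := exists_nat_ge (∑ e : {e // E e}, |c e| * C)
        refine ⟨K, fun _ _ m hm => ?_⟩
        have h1 := hc (fun i => (m i : ℚ))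
        have h2 : ∑ e : {e // E e}, c e * df e.1.1.1 e.1.2.1 (fun i => (m i : ℚ))
            ≤ ∑ e : {e // E e}, |c e| * C := by
          apply Finset.sum_le_sum
          intro e _
          have h3 : |df e.1.1.1 e.1.2.1 (fun i => (m i : ℚ))| ≤ C := by
            rw [df_nat, abs_le]
            obtain ⟨h4, h5⟩ := hm e.1 e.2
            have h4' : (nw m e.1.1.1 : ℚ) ≤ nw m e.1.2.1 + C := by exact_mod_cast h4
            have h5' : (nw m e.1.2.1 : ℚ) ≤ nw m e.1.1.1 + C := by exact_mod_cast h5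
            constructor <;> linarith
          calc c e * df e.1.1.1 e.1.2.1 (fun i => (m i : ℚ))
              ≤ |c e * df e.1.1.1 e.1.2.1 (fun i => (m i : ℚ))| := le_abs_self _
            _ = |c e| * |df e.1.1.1 e.1.2.1 (fun i => (m i : ℚ))| := abs_mul _ _
            _ ≤ |c e| * C := mul_le_mul_of_nonneg_left h3 (abs_nonneg _)
        have h3 : (m i : ℚ) ≤ m j + K := by linarith
        exact_mod_cast h3
      · exact ⟨0, fun _ h => absurd h hj⟩
    · exact ⟨0, fun h => absurd h hi⟩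
  choose K hK using hspan'
  refine ⟨∑ p, K p, fun m hm i hi j hj => ?_⟩
  refine (hK (i, j) hi hj m hm).trans ?_
  have : K (i, j) ≤ ∑ p, K p := Finset.single_le_sum (f := K) (fun _ _ => Nat.zero_le _)
    (Finset.mem_univ (i, j))
  show m j + K (i, j) ≤ m j + ∑ p, K p
  omega

/-- Large differences of multiplicities give a weight which does not separate exponent vectors of
nearly equal multiplicity. -/
lemma exists_weight (N d C : ℕ) : ∃ K : ℕ, ∀ (J : Finset (Fin N)) (m : Fin N → ℕ),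
    (∃ i ∈ J, ∃ j ∈ J, m j + K < m i) → ∃ a : Fin N → ℕ, (∃ i ∈ J, ∃ j ∈ J, a i ≠ a j) ∧
      ∀ α ∈ mons N d, ∀ β ∈ mons N d, nw m α ≤ nw m β + C → nw m β ≤ nw m α + C →
        nw a α = nw a β := by
  classical
  set T : Type := Finset (Fin N) × ((mons N d) × (mons N d) → Prop) with hT
  have hex : ∀ t : T, ∃ K : ℕ, (¬ ∃ a : Fin N → ℕ, (∃ i ∈ t.1, ∃ j ∈ t.1, a i ≠ a j) ∧
      ∀ e, t.2 e → nw a e.1.1 = nw a e.2.1) → ∀ m : Fin N → ℕ,
      (∀ e, t.2 e → nw m e.1.1 ≤ nw m e.2.1 + C ∧ nw m e.2.1 ≤ nw m e.1.1 + C) →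
      ∀ i ∈ t.1, ∀ j ∈ t.1, m i ≤ m j + K := by
    intro t
    by_cases h : ∃ a : Fin N → ℕ, (∃ i ∈ t.1, ∃ j ∈ t.1, a i ≠ a j) ∧
      ∀ e, t.2 e → nw a e.1.1 = nw a e.2.1
    · exact ⟨0, fun h' => absurd h h'⟩
    · obtain ⟨K, hK⟩ := bound_of_no_weight C t.1 t.2 h
      exact ⟨K, fun _ => hK⟩
  choose K hK using hex
  have : Finite T := inferInstance
  have : Fintype T := Fintype.ofFinite T
  refine ⟨∑ t : T, K t, fun J m hm => ?_⟩
  obtain ⟨i, hi, j, hj, hij⟩ := hm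
  set E : (mons N d) × (mons N d) → Prop := fun e =>
    nw m e.1.1 ≤ nw m e.2.1 + C ∧ nw m e.2.1 ≤ nw m e.1.1 + C with hE
  by_contra hcon
  have h1 : ¬ ∃ a : Fin N → ℕ, (∃ i ∈ J, ∃ j ∈ J, a i ≠ a j) ∧
      ∀ e, E e → nw a e.1.1 = nw a e.2.1 := by
    rintro ⟨a, ha, ha'⟩
    exact hcon ⟨a, ha, fun α hα β hβ h2 h3 => ha' (⟨α, hα⟩, ⟨β, hβ⟩) ⟨h2, h3⟩⟩
  have h2 := hK (J, E) h1 m (fun e he => he) i hi j hj
  have h3 : K (J, E) ≤ ∑ t : T, K t := Finset.single_le_sum (f := K) (fun _ _ => Nat.zero_le _)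
    (Finset.mem_univ (J, E))
  omega

end

end Pool.Agent.H13.Kob
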