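import Mathlib

/-!
# Vanishing sums of polynomials with few zeros
-/

namespace Pool.Agent.H13.Kob

open Polynomial

section

variable {ι : Type*}

/-- `f'g = fg'` forces equal multiplicities -/
lemma mult_eq {f g : ℂ[X]} (hf : f ≠ 0) (hg : g ≠ 0)
    (h : derivative f * g = f * derivative g) (s : ℂ) :
    f.rootMultiplicity s = g.rootMultiplicity s := by
  set p := f.rootMultiplicity s with hp
  set q := g.rootMultiplicity s with hq
  obtain ⟨f₁, hf₁⟩ := Polynomial.pow_rootMultiplicity_dvd f s
  obtain ⟨g₁, hg₁⟩ := Polynomial.pow_rootMultiplicity_dvd g s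
  rw [← hp] at hf₁
  rw [← hq] at hg₁
  have hf₁s : f₁.eval s ≠ 0 := by
    intro h0
    obtain ⟨f₂, hf₂⟩ := (Polynomial.dvd_iff_isRoot.mpr h0)
    have : (X - C s) ^ (p + 1) ∣ f := ⟨f₂, by rw [hf₁, hf₂]; ring⟩
    have := (Polynomial.le_rootMultiplicity_iff hf).mpr this
    omega
  have hg₁s : g₁.eval s ≠ 0 := by
    intro h0
    obtain ⟨g₂, hg₂⟩ := (Polynomial.dvd_iff_isRoot.mpr h0)
    have : (X - C s) ^ (q + 1) ∣ g := ⟨g₂, by rw [hg₁, hg₂]; ring⟩
    have := (Polynomial.le_rootMultiplicity_iff hg).mpr this
    omega
  -- multiply by `X - s`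
  have hder : ∀ (k : ℕ) (x : ℂ[X]), (X - C s) * derivative ((X - C s) ^ k * x)
      = (X - C s) ^ k * (C (k : ℂ) * x + (X - C s) * derivative x) := by
    intro k x
    rw [derivative_mul, derivative_X_sub_C_pow]
    rcases k with _ | k
    · simp
    · simp only [Nat.add_sub_cancel, pow_succ]
      ring
  have h1 : (X - C s) ^ (p + q) * ((C (p : ℂ) - C (q : ℂ)) * (f₁ * g₁)
      + (X - C s) * (derivative f₁ * g₁ - f₁ * derivative g₁)) = 0 := by
    have h2 : ((X - C s) * derivative f) * g = f * ((X - C s) * derivative g) := by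
      linear_combination (X - C s) * h
    rw [hf₁, hg₁, hder, hder] at h2
    rw [pow_add]
    linear_combination h2
  have h2 := (mul_eq_zero.mp h1).resolve_left (pow_ne_zero _ (X_sub_C_ne_zero s))
  have h3 := congrArg (Polynomial.eval s) h2
  simp only [eval_add, eval_mul, eval_sub, eval_X, eval_C, sub_self, zero_mul,
    add_zero, eval_zero] at h3
  rcases mul_eq_zero.mp h3 with h4 | h4
  · have : (p : ℂ) = q := sub_eq_zero.mp h4
    exact_mod_cast this
  · exact absurd h4 (mul_ne_zero hf₁s hg₁s)

/-- `u i` and `u j` have orders differing by at most `c` on `S` -/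
def Near (S : Finset ℂ) (c : ℕ) (u v : ℂ[X]) : Prop :=
  ∀ s ∈ S, u.rootMultiplicity s ≤ v.rootMultiplicity s + c ∧
    v.rootMultiplicity s ≤ u.rootMultiplicity s + c

lemma Near.symm {S : Finset ℂ} {c : ℕ} {u v : ℂ[X]} (h : Near S c u v) : Near S c v u :=
  fun s hs => ⟨(h s hs).2, (h s hs).1⟩

lemma Near.mono {S : Finset ℂ} {c c' : ℕ} {u v : ℂ[X]} (h : Near S c u v) (hc : c ≤ c') :
    Near S c' u v :=
  fun s hs => ⟨(h s hs).1.trans (by omega), (h s hs).2.trans (by omega)⟩

lemma Near.trans {S : Finset ℂ} {c c' : ℕ} {u v w : ℂ[X]} (h : Near S c u v)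
    (h' : Near S c' v w) : Near S (c + c') u w :=
  fun s hs => by
    have h1 := h s hs
    have h2 := h' s hs
    constructor <;> omega

/-- the logarithmic derivative of a polynomial with zeros in `S` -/
lemma log_deriv (S : Finset ℂ) {u : ℂ[X]} (hS : ∀ z, u.IsRoot z → z ∈ S) :
    ∃ n : ℂ[X], n.natDegree ≤ S.card ∧ (∏ s ∈ S, (X - C s)) * derivative u = n * u := by
  classical
  have key : ∀ (R : Multiset ℂ), (∀ z ∈ R, z ∈ S) → ∃ n : ℂ[X], n.natDegree ≤ S.card ∧
      (∏ s ∈ S, (X - C s)) * derivative ((R.map fun a => X - C a).prod)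
        = n * (R.map fun a => X - C a).prod := by
    intro R
    induction R using Multiset.induction_on with
    | empty => intro _; exact ⟨0, by simp, by simp⟩
    | cons a R ih =>
      intro hR
      obtain ⟨n, hn, hn'⟩ := ih (fun z hz => hR z (Multiset.mem_cons_of_mem hz))
      have ha : a ∈ S := hR a (Multiset.mem_cons_self a R)
      refine ⟨(∏ s ∈ S.erase a, (X - C s)) + n, ?_, ?_⟩
      · apply (natDegree_add_le _ _).trans
        apply max_le _ hn
        refine (natDegree_prod_le _ _).trans ?_
        simp only [natDegree_X_sub_C, Finset.sum_const, smul_eq_mul, mul_one]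
        exact Finset.card_le_card (Finset.erase_subset _ _)
      · rw [Multiset.map_cons, Multiset.prod_cons, derivative_mul, derivative_X_sub_C, one_mul,
          mul_add, mul_left_comm, hn', ← Finset.mul_prod_erase S _ ha]
        ring
  have hsplit : u = C u.leadingCoeff * (u.roots.map fun a => X - C a).prod :=
    (IsAlgClosed.splits u).eq_prod_roots
  obtain ⟨n, hn, hn'⟩ := key u.roots (fun z hz => hS z (isRoot_of_mem_roots hz))
  refine ⟨n, hn, ?_⟩
  rw [hsplit, derivative_C_mul, mul_left_comm, hn']
  ring

/-- A vanishing sum of at least one term has two terms which are close to each other. -/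
lemma exists_near (r : ℕ) : ∀ m b : ℕ, ∃ c : ℕ, b ≤ c ∧ ∀ (S : Finset ℂ), S.card ≤ r →
    ∀ (I : Finset ι), I.card = m + 1 → ∀ (A u : ι → ℂ[X]),
    (∀ i ∈ I, A i ≠ 0 ∧ (A i).natDegree ≤ b ∧ u i ≠ 0 ∧ ∀ z, (u i).IsRoot z → z ∈ S) →
    ∑ i ∈ I, A i * u i = 0 → ∃ i ∈ I, ∃ j ∈ I, i ≠ j ∧ Near S c (u i) (u j) := by
  classical
  intro m
  induction m with
  | zero =>
    intro b
    refine ⟨b, le_rfl, fun S _ I hI A u h hsum => ?_⟩
    obtain ⟨i, hi⟩ := Finset.card_eq_one.mp hI
    subst hi
    rw [Finset.sum_singleton] at hsum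
    have := h i (Finset.mem_singleton_self i)
    exact absurd hsum (mul_ne_zero this.1 this.2.2.1)
  | succ m ih =>
    intro b
    obtain ⟨c, hbc, hc⟩ := ih (2 * b + r)
    refine ⟨c, by omega, fun S hS I hI A u h hsum => ?_⟩
    obtain ⟨k, hk⟩ : I.Nonempty := by
      rw [← Finset.card_pos, hI]; omega
    set π : ℂ[X] := ∏ s ∈ S, (X - C s) with hπ
    have hπ0 : π ≠ 0 := Finset.prod_ne_zero_iff.mpr fun s _ => X_sub_C_ne_zero s
    have hπd : π.natDegree ≤ r := by
      refine (natDegree_prod_le _ _).trans ?_
      simpa using hS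
    have hlog : ∀ i : ι, ∃ n : ℂ[X], i ∈ I → n.natDegree ≤ r ∧ π * derivative (u i) = n * u i := by
      intro i
      by_cases hi : i ∈ I
      · obtain ⟨n, hn, hn'⟩ := log_deriv S (h i hi).2.2.2
        exact ⟨n, fun _ => ⟨hn.trans hS, hn'⟩⟩
      · exact ⟨0, fun h' => absurd h' hi⟩
    choose n hn using hlog
    set B : ι → ℂ[X] := fun i => π * (A k * derivative (A i) - derivative (A k) * A i)
      + A k * A i * (n i - n k) with hB
    have hBu : ∀ i ∈ I, B i * u i = π * A k * derivative (A i * u i)
        - (π * derivative (A k) + A k * n k) * (A i * u i) := by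
      intro i hi
      simp only [hB, derivative_mul]
      linear_combination (- A k * A i) * (hn i hi).2
    have hBsum : ∑ i ∈ I.erase k, B i * u i = 0 := by
      have h1 : ∑ i ∈ I, B i * u i = 0 := by
        rw [Finset.sum_congr rfl hBu, Finset.sum_sub_distrib, ← Finset.mul_sum, ← Finset.mul_sum,
          hsum, ← derivative_sum, hsum]
        simp
      rw [← Finset.add_sum_erase _ _ hk] at h1
      have h2 : B k = 0 := by simp only [hB]; ring
      rw [h2, zero_mul, zero_add] at h1
      exact h1
    by_cases hz : ∃ i ∈ I.erase k, B i = 0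
    · obtain ⟨i, hi, hBi⟩ := hz
      have hi' := Finset.mem_of_mem_erase hi
      refine ⟨i, hi', k, hk, Finset.ne_of_mem_erase hi, ?_⟩
      have h1 := h i hi'
      have h2 := h k hk
      have hw : derivative (A i * u i) * (A k * u k) = (A i * u i) * derivative (A k * u k) := by
        apply mul_left_cancel₀ hπ0
        have h3 := hBu i hi'
        rw [hBi, zero_mul] at h3
        have h4 := (hn k hk).2
        simp only [derivative_mul] at h3 ⊢
        linear_combination (-u k) * h3 - A i * u i * A k * h4
      have h5 := fun s => mult_eq (mul_ne_zero h1.1 h1.2.2.1) (mul_ne_zero h2.1 h2.2.2.1) hw s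
      intro s _
      have h6 := h5 s
      rw [rootMultiplicity_mul (mul_ne_zero h1.1 h1.2.2.1),
        rootMultiplicity_mul (mul_ne_zero h2.1 h2.2.2.1)] at h6
      have h7 : (A i).rootMultiplicity s ≤ b := by
        refine le_trans ?_ h1.2.1
        rw [← count_roots]
        exact (Multiset.count_le_card _ _).trans (card_roots' _)
      have h8 : (A k).rootMultiplicity s ≤ b := by
        refine le_trans ?_ h2.2.1
        rw [← count_roots]
        exact (Multiset.count_le_card _ _).trans (card_roots' _)
      constructor <;> omega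
    · push Not at hz
      obtain ⟨i, hi, j, hj, hij, hnear⟩ := hc S hS (I.erase k)
        (by rw [Finset.card_erase_of_mem hk, hI]; rfl) B u (by
          intro i hi
          have hi' := Finset.mem_of_mem_erase hi
          refine ⟨hz i hi, ?_, (h i hi').2.2.1, (h i hi').2.2.2⟩
          have h1 := (h i hi').2.1
          have h2 := (h k hk).2.1
          have h3 := (hn i hi').1
          have h4 := (hn k hk).1
          have h5 := natDegree_derivative_le (A i)
          have h6 := natDegree_derivative_le (A k)
          simp only [hB]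
          apply (natDegree_add_le _ _).trans
          apply max_le
          · refine natDegree_mul_le.trans ?_
            have : (A k * derivative (A i) - derivative (A k) * A i).natDegree ≤ 2 * b := by
              apply (natDegree_sub_le _ _).trans
              apply max_le
              · refine natDegree_mul_le.trans ?_; omega
              · refine natDegree_mul_le.trans ?_; omega
            omega
          · refine natDegree_mul_le.trans ?_
            have h7 : (A k * A i).natDegree ≤ 2 * b := by
              refine natDegree_mul_le.trans ?_; omega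
            have h8 : (n i - n k).natDegree ≤ r := (natDegree_sub_le _ _).trans (max_le h3 h4)
            omega) hBsum
      exact ⟨i, Finset.mem_of_mem_erase hi, j, Finset.mem_of_mem_erase hj, hij, hnear⟩

lemma card_le_of_count {S : Finset ℂ} {c : ℕ} {R : Multiset ℂ} (hR : ∀ z ∈ R, z ∈ S)
    (hc : ∀ s ∈ S, R.count s ≤ c) : R.card ≤ S.card * c := by
  classical
  rw [← Multiset.toFinset_sum_count_eq]
  calc ∑ a ∈ R.toFinset, R.count a ≤ ∑ a ∈ S, R.count a :=
        Finset.sum_le_sum_of_subset (fun z hz => hR z (Multiset.mem_toFinset.mp hz))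
    _ ≤ ∑ a ∈ S, c := Finset.sum_le_sum hc
    _ = S.card * c := by simp

/-- common part of two nearby polynomials -/
lemma exists_common {S : Finset ℂ} {c : ℕ} {u v : ℂ[X]} (hu : u ≠ 0) (hv : v ≠ 0)
    (hSu : ∀ z, u.IsRoot z → z ∈ S) (hSv : ∀ z, v.IsRoot z → z ∈ S) (h : Near S c u v) :
    ∃ w x y : ℂ[X], u = x * w ∧ v = y * w ∧ w ≠ 0 ∧ (∀ z, w.IsRoot z → z ∈ S) ∧
      x.natDegree ≤ S.card * c ∧ y.natDegree ≤ S.card * c ∧ Near S c u w ∧ Near S c v w := by
  classical
  set R := u.roots ∩ v.roots with hR
  set w : ℂ[X] := (R.map fun a => X - C a).prod with hw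
  have hw0 : w ≠ 0 := (monic_multisetProd_X_sub_C R).ne_zero
  have hwr : w.roots = R := roots_multiset_prod_X_sub_C R
  have hwm : ∀ s, w.rootMultiplicity s = min (u.rootMultiplicity s) (v.rootMultiplicity s) := by
    intro s
    rw [← count_roots, hwr, hR, Multiset.count_inter, count_roots, count_roots]
  have aux : ∀ t : ℂ[X], t ≠ 0 → (∀ z, t.IsRoot z → z ∈ S) → R ≤ t.roots →
      (∀ s ∈ S, t.rootMultiplicity s ≤ R.count s + c) →
      ∃ x : ℂ[X], t = x * w ∧ x.natDegree ≤ S.card * c := by
    intro t ht htS hRt hcount
    have hsplit : t = C t.leadingCoeff * (t.roots.map fun a => X - C a).prod :=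
      (IsAlgClosed.splits t).eq_prod_roots
    refine ⟨C t.leadingCoeff * ((t.roots - R).map fun a => X - C a).prod, ?_, ?_⟩
    · conv_lhs => rw [hsplit]
      rw [mul_assoc, hw, ← Multiset.prod_add, ← Multiset.map_add, tsub_add_cancel_of_le hRt]
    · refine (natDegree_C_mul_le _ _).trans ?_
      rw [natDegree_multiset_prod_X_sub_C_eq_card]
      apply card_le_of_count
      · intro z hz
        exact htS z (isRoot_of_mem_roots (Multiset.mem_of_le (Multiset.sub_le_self _ _) hz))
      · intro s hs
        rw [Multiset.count_sub, count_roots]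
        have := hcount s hs
        omega
  have hcR : ∀ s, R.count s = min (u.rootMultiplicity s) (v.rootMultiplicity s) := by
    intro s; rw [hR, Multiset.count_inter, count_roots, count_roots]
  obtain ⟨x, hx, hxd⟩ := aux u hu hSu Multiset.inter_le_left (by
    intro s hs
    have := h s hs
    rw [hcR]; omega)
  obtain ⟨y, hy, hyd⟩ := aux v hv hSv Multiset.inter_le_right (by
    intro s hs
    have := h s hs
    rw [hcR]; omega)
  refine ⟨w, x, y, hx, hy, hw0, ?_, hxd, hyd, ?_, ?_⟩
  · intro z hz
    have h1 : z ∈ R := by rw [← hwr]; exact (mem_roots hw0).mpr hz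
    exact hSu z (isRoot_of_mem_roots (Multiset.mem_of_le Multiset.inter_le_left h1))
  · intro s hs
    have := h s hs
    rw [hwm]; omega
  · intro s hs
    have := h s hs
    rw [hwm]; omega

/-- Sums over the classes of a weight which is constant on nearby terms vanish. -/
lemma weight_classes (r : ℕ) : ∀ m b : ℕ, ∃ c : ℕ, ∀ (S : Finset ℂ), S.card ≤ r →
    ∀ (I : Finset ι), I.card = m → ∀ (A u : ι → ℂ[X]),
    (∀ i ∈ I, (A i).natDegree ≤ b ∧ u i ≠ 0 ∧ ∀ z, (u i).IsRoot z → z ∈ S) →
    ∑ i ∈ I, A i * u i = 0 → ∀ a : ι → ℕ,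
    (∀ i ∈ I, ∀ j ∈ I, Near S c (u i) (u j) → a i = a j) →
    ∀ w : ℕ, ∑ i ∈ I with a i = w, A i * u i = 0 := by
  classical
  intro m
  induction m with
  | zero =>
    intro b
    refine ⟨0, fun S _ I hI A u _ _ a _ w => ?_⟩
    rw [Finset.card_eq_zero] at hI
    subst hI
    simp
  | succ m ih =>
    intro b
    obtain ⟨c₁, hbc₁, hc₁⟩ := exists_near (ι := ι) r m b
    obtain ⟨c₂, hc₂⟩ := ih b
    obtain ⟨c₃, hc₃⟩ := ih (b + r * c₁)
    refine ⟨max c₂ (c₁ + c₃), fun S hS I hI A u h hsum a ha w => ?_⟩
    by_cases hz : ∃ i ∈ I, A i = 0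
    · obtain ⟨i, hi, hAi⟩ := hz
      have hsum' : ∑ k ∈ I.erase i, A k * u k = 0 := by
        rw [← Finset.add_sum_erase _ _ hi, hAi, zero_mul, zero_add] at hsum
        exact hsum
      have h1 := hc₂ S hS (I.erase i) (by rw [Finset.card_erase_of_mem hi, hI]; rfl) A u
        (fun k hk => h k (Finset.mem_of_mem_erase hk)) hsum' a
        (fun k hk l hl hkl => ha k (Finset.mem_of_mem_erase hk) l (Finset.mem_of_mem_erase hl)
          (hkl.mono (le_max_left _ _))) w
      rw [← h1, Finset.filter_erase]
      symm
      apply Finset.sum_erase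
      rw [hAi, zero_mul]
    · push Not at hz
      obtain ⟨i, hi, j, hj, hij, hnear⟩ := hc₁ S hS I hI A u
        (fun k hk => ⟨hz k hk, h k hk⟩) hsum
      obtain ⟨v, x, y, hx, hy, hv0, hvS, hxd, hyd, hni, hnj⟩ :=
        exists_common (h i hi).2.1 (h j hj).2.1 (h i hi).2.2 (h j hj).2.2 hnear
      have haij : a i = a j := ha i hi j hj (hnear.mono (by
        apply le_max_of_le_right; omega))
      set A' : ι → ℂ[X] := Function.update A i (A i * x + A j * y) with hA'
      set u' : ι → ℂ[X] := Function.update u i v with hu'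
      have hii : A' i * u' i = A i * u i + A j * u j := by
        simp only [hA', hu', Function.update_self]
        rw [hx, hy]; ring
      have hother : ∀ k, k ≠ i → A' k * u' k = A k * u k := by
        intro k hk
        simp only [hA', hu', Function.update_of_ne hk]
      have hiI : i ∈ I.erase j := Finset.mem_erase.mpr ⟨hij, hi⟩
      have hsum' : ∑ k ∈ I.erase j, A' k * u' k = 0 := by
        rw [← Finset.add_sum_erase _ _ hiI, hii]
        rw [← Finset.add_sum_erase _ _ hj, ← Finset.add_sum_erase _ _ hiI] at hsum
        rw [Finset.sum_congr rfl (fun k hk => hother k (Finset.ne_of_mem_erase hk))]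
        linear_combination hsum
      have h1 := hc₃ S hS (I.erase j) (by rw [Finset.card_erase_of_mem hj, hI]; rfl) A' u'
        (by
          intro k hk
          have hk' := Finset.mem_of_mem_erase hk
          by_cases hki : k = i
          · subst hki
            simp only [hA', hu', Function.update_self]
            refine ⟨?_, hv0, hvS⟩
            have hr : S.card * c₁ ≤ r * c₁ := Nat.mul_le_mul_right _ hS
            have h2 := (h k hk').1
            have h3 := (h j hj).1
            apply (natDegree_add_le _ _).trans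
            apply max_le
            · refine natDegree_mul_le.trans ?_; omega
            · refine natDegree_mul_le.trans ?_; omega
          · simp only [hA', hu', Function.update_of_ne hki]
            exact ⟨(h k hk').1.trans (by omega), (h k hk').2⟩) hsum' a
        (by
          intro k hk l hl hkl
          have hk' := Finset.mem_of_mem_erase hk
          have hl' := Finset.mem_of_mem_erase hl
          by_cases hki : k = i
          · by_cases hli : l = i
            · rw [hki, hli]
            · subst hki
              simp only [hu', Function.update_self, Function.update_of_ne hli] at hkl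
              exact ha k hk' l hl' ((hni.trans hkl).mono (le_max_right _ _))
          · by_cases hli : l = i
            · subst hli
              simp only [hu', Function.update_self, Function.update_of_ne hki] at hkl
              exact ha k hk' l hl' (((hni.trans hkl.symm).symm).mono (le_max_right _ _))
            · simp only [hu', Function.update_of_ne hki, Function.update_of_ne hli] at hkl
              exact ha k hk' l hl' (hkl.mono (by
                apply le_max_of_le_right; omega))) w
      rw [← h1, Finset.filter_erase]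
      by_cases hw : a i = w
      · have hjf : j ∈ I.filter (fun k => a k = w) := Finset.mem_filter.mpr ⟨hj, by rw [← haij, hw]⟩
        have hif : i ∈ (I.filter (fun k => a k = w)).erase j :=
          Finset.mem_erase.mpr ⟨hij, Finset.mem_filter.mpr ⟨hi, hw⟩⟩
        rw [← Finset.add_sum_erase _ _ hjf, ← Finset.add_sum_erase _ _ hif,
          ← Finset.add_sum_erase _ _ hif, hii,
          Finset.sum_congr rfl (fun k hk => hother k (Finset.ne_of_mem_erase hk))]
        ring
      · have hjf : j ∉ I.filter (fun k => a k = w) := by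
          intro h2
          apply hw
          rw [haij]
          exact (Finset.mem_filter.mp h2).2
        rw [Finset.erase_eq_of_notMem hjf]
        apply Finset.sum_congr rfl
        intro k hk
        rw [hother]
        rintro rfl
        exact hw (Finset.mem_filter.mp hk).2

end

end Pool.Agent.H13.Kob
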