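import Pool.Agent.H13.Kob.ExpFinal
import Pool.Agent.H13.Kob.SUnit
import Pool.Agent.H13.Kob.Lattice
import Pool.Agent.H13.Borel.EntireLog

/-!
# Entire curves meeting `N` hyperplanes in few points
-/

namespace Pool.Agent.H13.Kob

open MvPolynomial Pool.Agent.H13.Borel Pool.Agent.H13.CEV

section

variable {N d e : ℕ}

/-- curves of degree at most `e` on a good hypersurface are constant -/
lemma good_const {x : mons N d → ℂ} (hx : Good e x) (r : Fin N → Polynomial ℂ)
    (hrdeg : ∀ i, (r i).natDegree ≤ e) (hFr : MvPolynomial.aeval r (Fm x) = 0) (i j : Fin N)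
    (z w : ℂ) : (r i).eval z * (r j).eval w = (r j).eval z * (r i).eval w := by
  have hGc : Gc (e := e) x (fun k => (r k.1).coeff k.2) = 0 := by
    have h1 : Gc (e := e) x (fun k => (r k.1).coeff k.2) = MvPolynomial.aeval r (Fm x) := by
      rw [aeval_Fm, Gc]
      simp only [fv_coeffs r hrdeg]
    rw [h1, hFr]
  have hmin := hx _ hGc i j
  have hev : ∀ (i : Fin N) (z : ℂ), (r i).eval z = ∑ a : Fin (e + 1), (r i).coeff a * z ^ (a : ℕ) := by
    intro i z
    rw [Polynomial.eval_eq_sum_range' (Nat.lt_succ_of_le (hrdeg i)), Finset.sum_range]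
  rw [hev, hev, hev, hev, Finset.sum_mul_sum, Finset.sum_mul_sum]
  apply Finset.sum_congr rfl
  intro a _
  apply Finset.sum_congr rfl
  intro b _
  have := hmin a b
  linear_combination (z ^ (a : ℕ) * w ^ (b : ℕ)) * this

/-- torus orbits with weights `a` through `∑ y_j v_j` -/
lemma torus_absurd {x : mons N d → ℂ} (hx : Good e x)
    (he : ∀ a : Fin N → ℕ, ∃ b : Fin N → ℕ, SameType d a b ∧ ∀ j, b j ≤ e)
    (v : Fin N → Fin N → ℂ) (hv : LinearIndependent ℂ v) (y : Fin N → ℂ) (a : Fin N → ℕ)
    (hF : ∀ t : ℂ, eval (∑ j, (t ^ a j * y j) • v j) (Fm x) = 0) (j l : Fin N) (hj : y j ≠ 0)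
    (hl : y l ≠ 0) : a j = a l := by
  classical
  by_contra hne
  have hprop := grp_prop hx he (fun j z => (a j : ℂ) * z)
    (fun j => (differentiable_const _).mul differentiable_id) (fun j => by simp)
    (fun j i => Polynomial.C (y j * v j i)) (by
      intro z
      rw [← hF (Complex.exp z)]
      congr 2
      funext i
      rw [Finset.sum_apply]
      apply Finset.sum_congr rfl
      intro j _
      rw [Polynomial.eval_C, Pi.smul_apply, smul_eq_mul, Complex.exp_nat_mul, mul_assoc])
  have hinj : ∀ j l : Fin N, (fun z : ℂ => (a j : ℂ) * z) = (fun z => (a l : ℂ) * z) ↔ a j = a l := by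
    intro j l
    constructor
    · intro h
      have := congrFun h 1
      simp only [mul_one] at this
      exact_mod_cast this
    · intro h; rw [h]
  set W : Fin N → Fin N → ℂ := fun j i => ∑ k with a k = a j, y k * v k i with hW
  have hgrp : ∀ j i, grp (fun j z => (a j : ℂ) * z) (fun j i => Polynomial.C (y j * v j i)) j i
      = Polynomial.C (W j i) := by
    intro j i
    simp only [grp, hW]
    rw [map_sum]
    apply Finset.sum_congr _ (fun _ _ => rfl)
    ext k
    simp only [Finset.mem_filter]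
    exact and_congr_right fun _ => hinj k j
  have hmin : ∀ i i', W j i * W l i' = W j i' * W l i := by
    intro i i'
    have := hprop j l i i'
    rw [hgrp, hgrp, hgrp, hgrp, ← map_mul, ← map_mul] at this
    exact Polynomial.C_injective this
  have hWv : ∀ j, W j = ∑ k, (if a k = a j then y k else 0) • v k := by
    intro j
    funext i
    rw [Finset.sum_apply]
    simp only [hW, Pi.smul_apply, smul_eq_mul, ite_mul, zero_mul]
    rw [← Finset.sum_filter]
  by_cases hW0 : W j = 0
  · have h1 := hWv j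
    rw [hW0] at h1
    have h2 := Fintype.linearIndependent_iff.mp hv _ h1.symm j
    simp only [if_true] at h2
    exact hj h2
  · obtain ⟨i₀, hi₀⟩ : ∃ i₀, W j i₀ ≠ 0 := by
      by_contra hcon
      push Not at hcon
      exact hW0 (funext hcon)
    have h1 : ∑ k, ((if a k = a l then y k else 0)
        - (W l i₀ / W j i₀) * (if a k = a j then y k else 0)) • v k = 0 := by
      simp only [sub_smul, Finset.sum_sub_distrib, mul_smul]
      rw [← Finset.smul_sum, ← hWv, ← hWv]
      funext i
      simp only [Pi.sub_apply, Pi.smul_apply, smul_eq_mul, Pi.zero_apply]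
      have := hmin i₀ i
      field_simp
      linear_combination this
    have h2 := Fintype.linearIndependent_iff.mp hv _ h1 l
    rw [if_pos rfl, if_neg (fun h => hne h.symm)] at h2
    simp only [mul_zero, sub_zero] at h2
    exact hl h2

/-- the weights of the monomials -/
lemma few_poly {x : mons N d → ℂ} (hx : Good e x)
    (he : ∀ a : Fin N → ℕ, ∃ b : Fin N → ℕ, SameType d a b ∧ ∀ j, b j ≤ e) (r c K : ℕ)
    (hc : ∀ (S : Finset ℂ), S.card ≤ r → ∀ (I : Finset (Fin N →₀ ℕ)), I ⊆ mons N d →
      ∀ (A u : (Fin N →₀ ℕ) → Polynomial ℂ),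
      (∀ i ∈ I, (A i).natDegree ≤ 0 ∧ u i ≠ 0 ∧ ∀ z, (u i).IsRoot z → z ∈ S) →
      ∑ i ∈ I, A i * u i = 0 → ∀ a : (Fin N →₀ ℕ) → ℕ,
      (∀ i ∈ I, ∀ j ∈ I, Near S c (u i) (u j) → a i = a j) →
      ∀ w : ℕ, ∑ i ∈ I with a i = w, A i * u i = 0)
    (hK : ∀ (J : Finset (Fin N)) (m : Fin N → ℕ),
      (∃ i ∈ J, ∃ j ∈ J, m j + K < m i) → ∃ a : Fin N → ℕ, (∃ i ∈ J, ∃ j ∈ J, a i ≠ a j) ∧
        ∀ α ∈ mons N d, ∀ β ∈ mons N d, nw m α ≤ nw m β + c → nw m β ≤ nw m α + c →
          nw a α = nw a β) (hKe : r * K ≤ e)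
    (ρ : Fin N → Polynomial ℂ) (hρ : MvPolynomial.aeval ρ (Fm x) = 0)
    (hρ0 : ∀ z, ∃ i, (ρ i).eval z ≠ 0) (v : Fin N → Fin N → ℂ) (hv : LinearIndependent ℂ v)
    (P : Fin N → Polynomial ℂ) (hP : ∀ i, ρ i = ∑ j, Polynomial.C (v j i) * P j)
    (S : Finset ℂ) (hS : S.card ≤ r) (hPS : ∀ j, P j ≠ 0 → ∀ z, (P j).IsRoot z → z ∈ S) :
    ∀ i, (ρ i).natDegree ≤ e := by
  classical
  set J : Finset (Fin N) := Finset.univ.filter fun j => P j ≠ 0 with hJ
  have hJmem : ∀ j, j ∈ J ↔ P j ≠ 0 := fun j => by rw [hJ, Finset.mem_filter]; simp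
  -- the form in the coordinates `v`
  set G : MvPolynomial (Fin N) ℂ := aeval (fun i => ∑ j, X j * C (v j i)) (Fm x) with hG
  have hGd : G.IsHomogeneous d := by
    have h2 := (Fm_homog x).aeval (fun i => ∑ j, (X j : MvPolynomial (Fin N) ℂ) * C (v j i))
      (n := 1) (by
      intro i
      apply IsHomogeneous.sum
      intro j _
      have := (isHomogeneous_X ℂ j).mul (isHomogeneous_C (Fin N) (v j i))
      simpa using this)
    rw [one_mul] at h2
    exact h2
  have hGsupp : ∀ α ∈ G.support, α ∈ mons N d := by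
    intro α hα
    have h1 := hGd (mem_support_iff.mp hα)
    rw [mem_mons, ← h1, Finsupp.weight_apply, Finsupp.sum_fintype]
    · simp
    · simp
  have hGe : ∀ y : Fin N → ℂ, eval y G = eval (∑ j, y j • v j) (Fm x) := by
    intro y
    have h1 : eval y G = (aeval y : MvPolynomial (Fin N) ℂ →ₐ[ℂ] ℂ)
        (aeval (fun i => ∑ j, X j * C (v j i)) (Fm x)) := rfl
    rw [h1, ← AlgHom.comp_apply, MvPolynomial.comp_aeval, MvPolynomial.aeval_eq_eval]
    congr 2
    funext i
    simp [map_sum]
  have hGP : MvPolynomial.aeval P G = 0 := by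
    rw [← hρ, hG, ← AlgHom.comp_apply, MvPolynomial.comp_aeval]
    congr 2
    funext i
    rw [hP i]
    simp [map_sum, mul_comm]
  set u : (Fin N →₀ ℕ) → Polynomial ℂ := fun α => ∏ j, P j ^ α j with hu
  set I : Finset (Fin N →₀ ℕ) := G.support.filter fun α => ∀ j, α j ≠ 0 → P j ≠ 0 with hI
  have hIsum : ∑ α ∈ I, Polynomial.C (G.coeff α) * u α = 0 := by
    rw [← hGP, MvPolynomial.aeval_def, MvPolynomial.eval₂_eq', hI, Finset.sum_filter_of_ne]
    · rfl
    · intro α _ hα j hj h0
      apply hα
      have : u α = 0 := by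
        simp only [hu]
        exact Finset.prod_eq_zero (Finset.mem_univ j) (by rw [h0, zero_pow hj])
      rw [this, mul_zero]
  have hI0 : ∀ α ∈ I, ∀ j, α j ≠ 0 → P j ≠ 0 := fun α hα => (Finset.mem_filter.mp hα).2
  have hu0 : ∀ α ∈ I, u α ≠ 0 := by
    intro α hα
    simp only [hu]
    rw [Finset.prod_ne_zero_iff]
    intro j _
    by_cases hj : α j = 0
    · rw [hj, pow_zero]; exact one_ne_zero
    · exact pow_ne_zero _ (hI0 α hα j hj)
  have huS : ∀ α ∈ I, ∀ z, (u α).IsRoot z → z ∈ S := by
    intro α hα z hz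
    simp only [hu, Polynomial.IsRoot.def, Polynomial.eval_prod, Polynomial.eval_pow] at hz
    rw [Finset.prod_eq_zero_iff] at hz
    obtain ⟨j, _, hj⟩ := hz
    have hαj : α j ≠ 0 := by
      intro h0; rw [h0, pow_zero] at hj; exact one_ne_zero hj
    exact hPS j (hI0 α hα j hαj) z (pow_eq_zero_iff hαj |>.mp hj)
  have hum : ∀ α ∈ I, ∀ s, (u α).rootMultiplicity s
      = nw (fun j => (P j).rootMultiplicity s) α := by
    intro α hα s
    have h1 : ∀ T : Finset (Fin N), (∏ j ∈ T, P j ^ α j).rootMultiplicity s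
        = ∑ j ∈ T, α j * (P j).rootMultiplicity s := by
      intro T
      induction T using Finset.induction_on with
      | empty => simp
      | insert j T hj ih =>
        rw [Finset.prod_insert hj, Finset.sum_insert hj, ← ih]
        have h2 : P j ^ α j ≠ 0 := by
          by_cases h0 : α j = 0
          · rw [h0, pow_zero]; exact one_ne_zero
          · exact pow_ne_zero _ (hI0 α hα j h0)
        have h3 : (∏ j ∈ T, P j ^ α j) ≠ 0 := by
          rw [Finset.prod_ne_zero_iff]
          intro j _
          by_cases h0 : α j = 0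
          · rw [h0, pow_zero]; exact one_ne_zero
          · exact pow_ne_zero _ (hI0 α hα j h0)
        rw [Polynomial.rootMultiplicity_mul (mul_ne_zero h2 h3)]
        congr 1
        rw [← Polynomial.count_roots, Polynomial.roots_pow, Multiset.count_nsmul,
          Polynomial.count_roots]
    exact h1 Finset.univ
  -- multiplicities are bounded
  have hmult : ∀ s ∈ S, ∀ i ∈ J, ∀ j ∈ J,
      (P i).rootMultiplicity s ≤ (P j).rootMultiplicity s + K := by
    intro s hs i hi j hj
    by_contra hcon
    obtain ⟨a, ⟨i', hi', j', hj', haij⟩, ha⟩ := hK J (fun j => (P j).rootMultiplicity s)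
      ⟨i, hi, j, hj, by
        show (P j).rootMultiplicity s + K < (P i).rootMultiplicity s
        omega⟩
    have hcl := hc S hS I (fun α hα => hGsupp α (Finset.mem_filter.mp hα).1)
      (fun α => Polynomial.C (G.coeff α)) u
      (fun α hα => ⟨by simp, hu0 α hα, huS α hα⟩) hIsum (nw a) (by
        intro α hα β hβ hnear
        have h1 := hnear s hs
        rw [hum α hα, hum β hβ] at h1
        exact ha α (hGsupp α (Finset.mem_filter.mp hα).1) β (hGsupp β (Finset.mem_filter.mp hβ).1)
          h1.1 h1.2)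
    obtain ⟨z₀, hz₀⟩ : ∃ z₀ : ℂ, z₀ ∉ S := by
      have := Set.Infinite.exists_notMem_finset (Set.infinite_univ (α := ℂ)) S
      obtain ⟨z, _, hz⟩ := this
      exact ⟨z, hz⟩
    have hPz : ∀ j, P j ≠ 0 → (P j).eval z₀ ≠ 0 := fun j hj h0 => hz₀ (hPS j hj z₀ h0)
    apply haij
    apply torus_absurd hx he v hv (fun j => (P j).eval z₀) a ?_ i' j'
      (hPz i' ((hJmem i').mp hi')) (hPz j' ((hJmem j').mp hj'))
    intro t
    rw [← hGe, eval_eq']
    have h1 : ∑ α ∈ G.support, coeff α G * ∏ i, (t ^ a i * (P i).eval z₀) ^ α i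
        = ∑ α ∈ I, (Polynomial.C (G.coeff α) * u α).eval z₀ * t ^ nw a α := by
      rw [hI, Finset.sum_filter_of_ne]
      · apply Finset.sum_congr rfl
        intro α _
        simp only [hu, nw]
        rw [Polynomial.eval_mul, Polynomial.eval_C, Polynomial.eval_prod]
        simp only [Polynomial.eval_pow, mul_pow, Finset.prod_mul_distrib]
        rw [← Finset.prod_pow_eq_pow_sum]
        have : ∀ j, (t ^ a j) ^ α j = t ^ (α j * a j) := by
          intro j; rw [← pow_mul, mul_comm]
        simp only [this]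
        ring
      · intro α _ hα j hj h0
        apply hα
        have : u α = 0 := by
          simp only [hu]
          exact Finset.prod_eq_zero (Finset.mem_univ j) (by rw [h0, zero_pow hj])
        rw [this]; simp
    rw [h1, ← Finset.sum_fiberwise_of_maps_to (s := I) (t := I.image (nw a))
        (g := nw a) (fun α hα => Finset.mem_image_of_mem _ hα)]
    apply Finset.sum_eq_zero
    intro n _
    have h3 : ∑ α ∈ I with nw a α = n, (Polynomial.C (G.coeff α) * u α).eval z₀ * t ^ nw a α
        = (∑ α ∈ I with nw a α = n, Polynomial.C (G.coeff α) * u α).eval z₀ * t ^ n := by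
      rw [Polynomial.eval_finsetSum, Finset.sum_mul]
      apply Finset.sum_congr rfl
      intro α hα
      rw [(Finset.mem_filter.mp hα).2]
    rw [h3, hcl n]
    simp
  have hmult' : ∀ s ∈ S, ∀ j ∈ J, (P j).rootMultiplicity s ≤ K := by
    intro s hs j hj
    obtain ⟨l, hl⟩ : ∃ l, (P l).eval s ≠ 0 := by
      by_contra hcon
      push Not at hcon
      obtain ⟨i, hi⟩ := hρ0 s
      apply hi
      rw [hP i, Polynomial.eval_finsetSum]
      apply Finset.sum_eq_zero
      intro k _
      rw [Polynomial.eval_mul, hcon k, mul_zero]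
    have hlJ : l ∈ J := by
      rw [hJmem]; rintro h0; rw [h0] at hl; simp at hl
    have h0 : (P l).rootMultiplicity s = 0 := Polynomial.rootMultiplicity_eq_zero hl
    have := hmult s hs j hj l hlJ
    omega
  have hPdeg : ∀ j, (P j).natDegree ≤ e := by
    intro j
    by_cases hj : P j = 0
    · rw [hj]; simp
    · rw [← IsAlgClosed.card_roots_eq_natDegree]
      have h1 : (P j).roots.card ≤ S.card * K := by
        apply card_le_of_count
        · intro z hz
          exact hPS j hj z (Polynomial.isRoot_of_mem_roots hz)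
        · intro s hs
          rw [Polynomial.count_roots]
          exact hmult' s hs j ((hJmem j).mpr hj)
      have h2 : S.card * K ≤ r * K := Nat.mul_le_mul_right _ hS
      omega
  intro i
  rw [hP i]
  apply Polynomial.natDegree_sum_le_of_forall_le
  intro j _
  exact (Polynomial.natDegree_C_mul_le _ _).trans (hPdeg j)

end

end Pool.Agent.H13.Kob
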