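import Pool.Agent.H13.Kob.ExpSum

/-!
# Exponential sums on general hypersurfaces: conclusion
-/

namespace Pool.Agent.H13.Kob

open MvPolynomial Pool.Agent.H13.Borel Pool.Agent.H13.CEV

section

variable {N k d e : ℕ}

lemma dense_eval {S : ℂ → ℂ} (hS : Differentiable ℂ S) (hne : ∃ z, S z ≠ 0) (p : Polynomial ℂ)
    (h : ∀ z, S z ≠ 0 → p.eval z = 0) : p = 0 := by
  have h1 : ∀ z, S z * p.eval z = 0 := by
    intro z
    by_cases hz : S z = 0
    · rw [hz, zero_mul]
    · rw [h z hz, mul_zero]
  have hSa : AnalyticOnNhd ℂ S Set.univ := fun z _ => hS.analyticAt z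
  have hpa : AnalyticOnNhd ℂ (fun z => p.eval z) Set.univ :=
    fun z _ => (p.differentiable).analyticAt z
  obtain ⟨z₀, hz₀⟩ := hne
  have hev : ∀ᶠ z in nhds z₀, p.eval z = 0 := by
    have h2 : ∀ᶠ z in nhds z₀, S z ≠ 0 := hS.continuous.continuousAt.eventually_ne hz₀
    filter_upwards [h2] with z hz using h z hz
  have h3 : Set.EqOn (fun z => p.eval z) 0 Set.univ :=
    hpa.eqOn_zero_of_preconnected_of_eventuallyEq_zero isPreconnected_univ (Set.mem_univ z₀) hev
  apply Polynomial.funext
  intro z
  rw [Polynomial.eval_zero]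
  exact h3 (Set.mem_univ z)

theorem expsum_normal {x : mons N d → ℂ} (hx : Good e x)
    (he : ∀ a : Fin k → ℕ, ∃ b : Fin k → ℕ, SameType d a b ∧ ∀ j, b j ≤ e)
    (φ : Fin k → ℂ → ℂ) (hφ : ∀ j, Differentiable ℂ (φ j)) (hφ0 : ∀ j, φ j 0 = 0)
    (q : Fin k → Fin N → Polynomial ℂ)
    (hF : ∀ z, eval (fun i => ∑ j, Complex.exp (φ j z) * (q j i).eval z) (Fm x) = 0) :
    (∃ (s : ℂ → ℂ) (r : Fin N → Polynomial ℂ), Differentiable ℂ s ∧
      ∀ z i, ∑ j, Complex.exp (φ j z) * (q j i).eval z = s z * (r i).eval z) ∧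
    ((∀ j i, (q j i).natDegree ≤ e) → ∃ (s : ℂ → ℂ) (c : Fin N → ℂ), Differentiable ℂ s ∧
      ∀ z i, ∑ j, Complex.exp (φ j z) * (q j i).eval z = s z * c i) := by
  classical
  have hprop := grp_prop hx he φ hφ hφ0 q hF
  set T : Finset (ℂ → ℂ) := Finset.univ.image φ with hT
  set G : (ℂ → ℂ) → Fin N → Polynomial ℂ := fun ψ i => ∑ l with φ l = ψ, q l i with hG
  have hGgrp : ∀ j i, G (φ j) i = grp φ q j i := by
    intro j i
    simp only [hG, grp]
  have hsum : ∀ z i, ∑ j, Complex.exp (φ j z) * (q j i).eval z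
      = ∑ ψ ∈ T, Complex.exp (ψ z) * (G ψ i).eval z := by
    intro z i
    rw [← Finset.sum_fiberwise_of_maps_to (s := Finset.univ) (t := T) (g := φ)
      (fun j hj => Finset.mem_image_of_mem _ hj)]
    apply Finset.sum_congr rfl
    intro ψ _
    simp only [hG]
    rw [Polynomial.eval_finsetSum, Finset.mul_sum]
    apply Finset.sum_congr rfl
    intro j hj
    rw [(Finset.mem_filter.mp hj).2]
  have hψd : ∀ ψ ∈ T, Differentiable ℂ ψ := by
    intro ψ hψ
    obtain ⟨j, _, rfl⟩ := Finset.mem_image.mp hψ
    exact hφ j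
  by_cases hall : ∀ ψ ∈ T, G ψ = 0
  · have h0 : ∀ z i, ∑ j, Complex.exp (φ j z) * (q j i).eval z = 0 := by
      intro z i
      rw [hsum]
      apply Finset.sum_eq_zero
      intro ψ hψ
      rw [hall ψ hψ]
      simp
    refine ⟨⟨fun _ => 0, fun _ => 0, differentiable_const _, fun z i => ?_⟩,
      fun _ => ⟨fun _ => 0, fun _ => 0, differentiable_const _, fun z i => ?_⟩⟩
    · rw [h0]; simp
    · rw [h0]; simp
  · push Not at hall
    obtain ⟨ψ₀, hψ₀, hG0⟩ := hall
    obtain ⟨j₀, _, rfl⟩ := Finset.mem_image.mp hψ₀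
    obtain ⟨p, r, hp0, hpr, u, hu⟩ := exists_primitive (G (φ j₀)) hG0
    have hpropG : ∀ ψ ∈ T, ∀ i i', G (φ j₀) i * G ψ i' = G (φ j₀) i' * G ψ i := by
      intro ψ hψ i i'
      obtain ⟨l, _, rfl⟩ := Finset.mem_image.mp hψ
      rw [hGgrp, hGgrp, hGgrp, hGgrp]
      exact hprop j₀ l i i'
    set sg : (ℂ → ℂ) → Polynomial ℂ := fun ψ => ∑ i, u i * G ψ i with hsg
    have hGs : ∀ ψ ∈ T, ∀ i, G ψ i = sg ψ * r i := by
      intro ψ hψ i'
      have h1 : ∀ i, r i * G ψ i' = r i' * G ψ i := by
        intro i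
        apply mul_left_cancel₀ hp0
        have := hpropG ψ hψ i i'
        rw [hpr i, hpr i'] at this
        linear_combination this
      calc G ψ i' = (∑ i, u i * r i) * G ψ i' := by rw [hu, one_mul]
        _ = ∑ i, u i * (r i * G ψ i') := by
            rw [Finset.sum_mul]
            apply Finset.sum_congr rfl
            intro i _
            ring
        _ = ∑ i, u i * (r i' * G ψ i) := by simp only [h1]
        _ = sg ψ * r i' := by
            simp only [hsg]
            rw [Finset.sum_mul]
            apply Finset.sum_congr rfl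
            intro i _
            ring
    set S : ℂ → ℂ := fun z => ∑ ψ ∈ T, Complex.exp (ψ z) * (sg ψ).eval z with hS
    have hSd : Differentiable ℂ S := by
      simp only [hS]
      apply Differentiable.fun_sum
      intro ψ hψ
      exact ((hψd ψ hψ).cexp).mul (sg ψ).differentiable
    have hgS : ∀ z i, ∑ j, Complex.exp (φ j z) * (q j i).eval z = S z * (r i).eval z := by
      intro z i
      rw [hsum]
      simp only [hS]
      rw [Finset.sum_mul]
      apply Finset.sum_congr rfl
      intro ψ hψ
      rw [hGs ψ hψ i, Polynomial.eval_mul]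
      ring
    refine ⟨⟨S, r, hSd, hgS⟩, fun hdeg => ?_⟩
    by_cases hS0 : ∀ z, S z = 0
    · refine ⟨fun _ => 0, fun _ => 0, differentiable_const _, fun z i => ?_⟩
      rw [hgS, hS0 z]
      simp
    · push Not at hS0
      -- `F(r) = 0`
      have hrdeg : ∀ i, (r i).natDegree ≤ e := by
        intro i
        have h1 : (G (φ j₀) i).natDegree ≤ e := by
          simp only [hG]
          apply Polynomial.natDegree_sum_le_of_forall_le
          intro l _
          exact hdeg l i
        by_cases hri : r i = 0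
        · rw [hri]; simp
        · rw [hpr i, Polynomial.natDegree_mul hp0 hri] at h1
          omega
      have hFr : MvPolynomial.aeval r (Fm x) = 0 := by
        apply dense_eval hSd hS0
        intro z hz
        have h1 : (MvPolynomial.aeval r (Fm x)).eval z
            = eval (fun i => (r i).eval z) (Fm x) := by
          rw [aeval_Fm, eval_Fm, Polynomial.eval_finsetSum]
          apply Finset.sum_congr rfl
          intro α _
          rw [Polynomial.eval_mul, Polynomial.eval_C, Polynomial.eval_prod]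
          simp only [Polynomial.eval_pow]
        have h2 := hF z
        simp only [hgS] at h2
        have h3 : eval (fun i => S z * (r i).eval z) (Fm x)
            = S z ^ d * eval (fun i => (r i).eval z) (Fm x) := by
          rw [eval_Fm, eval_Fm, Finset.mul_sum]
          apply Finset.sum_congr rfl
          intro α _
          simp only [mul_pow, Finset.prod_mul_distrib]
          rw [Finset.prod_pow_eq_pow_sum, mem_mons.mp α.2]
          ring
        rw [h3] at h2
        rw [h1]
        exact (mul_eq_zero.mp h2).resolve_left (pow_ne_zero _ hz)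
      have hGc : Gc (e := e) x (fun k => (r k.1).coeff k.2) = 0 := by
        have h1 : Gc (e := e) x (fun k => (r k.1).coeff k.2) = MvPolynomial.aeval r (Fm x) := by
          rw [aeval_Fm, Gc]
          simp only [fv_coeffs r hrdeg]
        rw [h1, hFr]
      have hmin := hx _ hGc
      have hmin' : ∀ i j (a b : ℕ), (r i).coeff a * (r j).coeff b = (r j).coeff a * (r i).coeff b := by
        intro i j a b
        by_cases ha : a ≤ e
        · by_cases hb : b ≤ e
          · exact hmin i j ⟨a, Nat.lt_succ_of_le ha⟩ ⟨b, Nat.lt_succ_of_le hb⟩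
          · have h1 : ∀ i, (r i).coeff b = 0 := fun i =>
              Polynomial.coeff_eq_zero_of_natDegree_lt (lt_of_le_of_lt (hrdeg i) (by omega))
            rw [h1, h1]; ring
        · have h1 : ∀ i, (r i).coeff a = 0 := fun i =>
            Polynomial.coeff_eq_zero_of_natDegree_lt (lt_of_le_of_lt (hrdeg i) (by omega))
          rw [h1, h1]; ring
      obtain ⟨i₀, b₀, hb₀⟩ : ∃ i₀ b₀, (r i₀).coeff b₀ ≠ 0 := by
        by_contra hcon
        push Not at hcon
        have h1 : ∀ i, r i = 0 := fun i => Polynomial.ext (by simpa using hcon i)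
        simp [h1] at hu
      refine ⟨fun z => S z * ((r i₀).eval z / (r i₀).coeff b₀), fun i => (r i).coeff b₀,
        hSd.mul ((r i₀).differentiable.div_const _), fun z i => ?_⟩
      rw [hgS, mul_assoc]
      congr 1
      have h1 : Polynomial.C ((r i₀).coeff b₀) * r i = Polynomial.C ((r i).coeff b₀) * r i₀ := by
        ext n
        rw [Polynomial.coeff_C_mul, Polynomial.coeff_C_mul]
        have := hmin' i₀ i b₀ n
        rw [this]
      have h2 := congrArg (Polynomial.eval z) h1
      rw [Polynomial.eval_mul, Polynomial.eval_mul, Polynomial.eval_C, Polynomial.eval_C] at h2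
      field_simp
      linear_combination h2

/-- general exponents -/
theorem expsum {x : mons N d → ℂ} (hx : Good e x)
    (he : ∀ a : Fin k → ℕ, ∃ b : Fin k → ℕ, SameType d a b ∧ ∀ j, b j ≤ e)
    (φ : Fin k → ℂ → ℂ) (hφ : ∀ j, Differentiable ℂ (φ j))
    (q : Fin k → Fin N → Polynomial ℂ)
    (hF : ∀ z, eval (fun i => ∑ j, Complex.exp (φ j z) * (q j i).eval z) (Fm x) = 0) :
    (∃ (s : ℂ → ℂ) (r : Fin N → Polynomial ℂ), Differentiable ℂ s ∧
      ∀ z i, ∑ j, Complex.exp (φ j z) * (q j i).eval z = s z * (r i).eval z) ∧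
    ((∀ j i, (q j i).natDegree ≤ e) → ∃ (s : ℂ → ℂ) (c : Fin N → ℂ), Differentiable ℂ s ∧
      ∀ z i, ∑ j, Complex.exp (φ j z) * (q j i).eval z = s z * c i) := by
  have key : ∀ z i, ∑ j, Complex.exp (φ j z - φ j 0)
      * (Polynomial.C (Complex.exp (φ j 0)) * q j i).eval z
      = ∑ j, Complex.exp (φ j z) * (q j i).eval z := by
    intro z i
    apply Finset.sum_congr rfl
    intro j _
    rw [Polynomial.eval_mul, Polynomial.eval_C, ← mul_assoc, ← Complex.exp_add]
    congr 2
    ring
  have h := expsum_normal hx he (fun j z => φ j z - φ j 0) (fun j => (hφ j).sub_const _)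
    (fun j => by simp) (fun j i => Polynomial.C (Complex.exp (φ j 0)) * q j i) (by
      intro z
      simp only [key]
      exact hF z)
  simp only [key] at h
  refine ⟨h.1, fun hdeg => h.2 fun j i => ?_⟩
  exact (Polynomial.natDegree_C_mul_le _ _).trans (hdeg j i)

end

end Pool.Agent.H13.Kob
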