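import Pool.Agent.H13.Kob.Normal

/-! Normalisation and the coefficient conditions. -/

namespace Pool.Agent.H13.Kob

open MvPolynomial

variable {N d μ : ℕ}

/-- the point with coordinates `z_j` at `e j` and `0` elsewhere -/
noncomputable def pt {R : Type} [Zero R] {m : ℕ} (e : Fin m ↪ Fin N) (z : Fin m → R) (k : Fin N) : R :=
  open Classical in if h : ∃ j, e j = k then z h.choose else 0

lemma pt_e {R : Type} [Zero R] {m : ℕ} (e : Fin m ↪ Fin N) (z : Fin m → R) (j : Fin m) :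
    pt e z (e j) = z j := by
  have h : ∃ j', e j' = e j := ⟨j, rfl⟩
  rw [pt, dif_pos h]
  congr 1
  exact e.injective h.choose_spec

lemma pt_n {R : Type} [Zero R] {m : ℕ} (e : Fin m ↪ Fin N) (z : Fin m → R) {k : Fin N}
    (hk : ∀ j, e j ≠ k) : pt e z k = 0 := by
  rw [pt, dif_neg (by push Not; exact hk)]

lemma sum_pt {m : ℕ} (e : Fin m ↪ Fin N) (z : Fin m → ℂ) (f : Fin N → ℂ) :
    ∑ k, f k * pt e z k = ∑ j, f (e j) * z j := by
  classical
  have h1 : ∑ k, f k * pt e z k = ∑ k ∈ Finset.univ.map e, f k * pt e z k := by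
    symm
    apply Finset.sum_subset (Finset.subset_univ _)
    intro k _ hk
    rw [pt_n e z, mul_zero]
    intro j hj
    apply hk
    rw [Finset.mem_map]
    exact ⟨j, Finset.mem_univ j, hj⟩
  rw [h1, Finset.sum_map]
  refine Finset.sum_congr rfl ?_
  intro j _
  rw [pt_e]

/-- normal form of a bad pair -/
theorem normalise (F : MvPolynomial (Fin N) ℂ) (hF : F.IsHomogeneous d)
    (v : Fin (μ + 2) → (Fin N → ℂ)) (hv : LinearIndependent ℂ v) (a : Fin (μ + 2) → ℕ) (ha : StrictMono a)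
    (hbad : ∀ t : ℂ, t ≠ 0 → eval (∑ j, t ^ a j • v j) F = 0) :
    ∃ (e : Fin (μ + 2) ↪ Fin N) (k0 k1 : Fin (μ + 2)) (h : Matrix (Fin N) (Fin N) ℂ)
      (Φ : MvPolynomial (Fin N) ℂ), Φ.IsHomogeneous d ∧ F = bind₁ (lin h) Φ ∧
      (∀ i k, (∀ j, e j ≠ k) → h i k = if i = k then 1 else 0) ∧
      h (e 0) (e k0) = 1 ∧ h (e 1) (e k1) = 1 ∧
      ∀ t : ℂ, t ≠ 0 → eval (pt e (fun j => t ^ a j)) Φ = 0 := by
  classical
  obtain ⟨e, g, hg, hge, hgn⟩ := exists_extension v hv
  have hg' := hg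
  rw [Matrix.isUnit_iff_isUnit_det] at hg'
  set h0 := g⁻¹ with hh0
  have hgh : g * h0 = 1 := Matrix.mul_nonsing_inv g hg'
  have hhg : h0 * g = 1 := Matrix.nonsing_inv_mul g hg'
  -- columns of `h0`
  have hcol : ∀ i k, (∀ j, e j ≠ k) → h0 i k = if i = k then 1 else 0 := by
    intro i k hk
    have h1 : (h0 * g) i k = h0 i k := by
      rw [Matrix.mul_apply, Finset.sum_eq_single k]
      · rw [hgn k k hk, if_pos rfl, mul_one]
      · intro l _ hl
        rw [hgn l k hk, if_neg hl, mul_zero]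
      · intro h; exact absurd (Finset.mem_univ k) h
    rw [← h1, hhg, Matrix.one_apply]
  -- nonzero entries in rows
  have hrow : ∀ j, ∃ k, h0 (e j) (e k) ≠ 0 := by
    intro j
    by_contra hcon
    push Not at hcon
    have h1 : (h0 * g) (e j) (e j) = 1 := by rw [hhg, Matrix.one_apply_eq]
    rw [Matrix.mul_apply, Finset.sum_eq_zero] at h1
    · exact zero_ne_one h1
    · intro l _
      by_cases hl : ∃ k, e k = l
      · obtain ⟨k, rfl⟩ := hl
        rw [hcon k, zero_mul]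
      · push Not at hl
        rw [hcol (e j) l hl, if_neg (hl j), zero_mul]
  obtain ⟨k0, hk0⟩ := hrow 0
  obtain ⟨k1, hk1⟩ := hrow 1
  set α0 := h0 (e 0) (e k0)
  set α1 := h0 (e 1) (e k1)
  have ha01 : a 0 < a 1 := ha (by simp)
  obtain ⟨t0, ht0⟩ := IsAlgClosed.exists_pow_nat_eq (α1 / α0) (show 0 < a 1 - a 0 by omega)
  have ht0' : t0 ≠ 0 := by
    rintro rfl
    rw [zero_pow (by omega)] at ht0
    exact (div_ne_zero hk1 hk0) ht0.symm
  set l := α0 / t0 ^ a 0 with hl
  have hl0 : l ≠ 0 := div_ne_zero hk0 (pow_ne_zero _ ht0')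
  let s : Fin (μ + 2) → ℂ := fun j => l * t0 ^ a j
  have hs0 : s 0 = α0 := by
    simp only [s, hl]
    field_simp
  have hs1 : s 1 = α1 := by
    simp only [s, hl]
    have h1 : t0 ^ a 1 = t0 ^ (a 1 - a 0) * t0 ^ a 0 := by rw [← pow_add]; congr 1; omega
    rw [h1, ht0]
    field_simp
  have hsne : ∀ j, s j ≠ 0 := fun j => mul_ne_zero hl0 (pow_ne_zero _ ht0')
  let D : Fin N → ℂ := fun k => if h : ∃ j, e j = k then s h.choose else 1
  have hDe : ∀ j, D (e j) = s j := by
    intro j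
    have h : ∃ j', e j' = e j := ⟨j, rfl⟩
    simp only [D]
    rw [dif_pos h]
    congr 1
    exact e.injective h.choose_spec
  have hDn : ∀ k, (∀ j, e j ≠ k) → D k = 1 := by
    intro k hk
    simp only [D]
    rw [dif_neg (by push Not; exact hk)]
  have hD0 : ∀ k, D k ≠ 0 := by
    intro k
    by_cases hk : ∃ j, e j = k
    · obtain ⟨j, rfl⟩ := hk
      rw [hDe]; exact hsne j
    · push Not at hk
      rw [hDn k hk]; exact one_ne_zero
  set h := Matrix.diagonal (fun k => (D k)⁻¹) * h0 with hh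
  have hDh : Matrix.diagonal D * h = h0 := by
    rw [hh, ← Matrix.mul_assoc, Matrix.diagonal_mul_diagonal]
    have : (fun i => D i * (D i)⁻¹) = 1 := by
      funext i; exact mul_inv_cancel₀ (hD0 i)
    rw [this]
    have h1 : Matrix.diagonal (1 : Fin N → ℂ) = 1 := Matrix.diagonal_one
    rw [h1, one_mul]
  have hh_apply : ∀ i k, h i k = (D i)⁻¹ * h0 i k := by
    intro i k
    rw [hh, Matrix.diagonal_mul]
  refine ⟨e, k0, k1, h, bind₁ (lin (Matrix.diagonal D)) (bind₁ (lin g) F), ?_, ?_, ?_, ?_, ?_, ?_⟩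
  · exact lin_homogeneous _ (lin_homogeneous _ hF)
  · rw [bind_lin, hDh, bind_lin, hgh, bind_one]
  · intro i k hk
    rw [hh_apply, hcol i k hk]
    split_ifs with hik
    · rw [hik, hDn k hk, inv_one, mul_one]
    · rw [mul_zero]
  · rw [hh_apply, hDe, hs0, inv_mul_cancel₀ hk0]
  · rw [hh_apply, hDe, hs1, inv_mul_cancel₀ hk1]
  · intro t ht
    rw [eval_lin, eval_lin]
    have h1 : g.mulVec ((Matrix.diagonal D).mulVec (pt e (fun j => t ^ a j)))
        = l • ∑ j, (t0 * t) ^ a j • v j := by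
      funext i
      rw [Matrix.mulVec, dotProduct]
      have h2 : ∀ k, (Matrix.diagonal D).mulVec (pt e (fun j => t ^ a j)) k = D k * pt e (fun j => t ^ a j) k := by
        intro k
        rw [Matrix.mulVec_diagonal]
      simp_rw [h2, ← mul_assoc]
      rw [sum_pt]
      simp only [Pi.smul_apply, Finset.sum_apply, smul_eq_mul, Finset.mul_sum]
      refine Finset.sum_congr rfl ?_
      intro j _
      rw [hge, hDe, mul_pow]
      simp only [s]
      ring
    rw [h1]
    have h2 : ∀ (c : ℂ) (x : Fin N → ℂ), eval (c • x) F = c ^ d * eval x F := by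
      intro c x
      rw [eval_eq', eval_eq', Finset.mul_sum]
      refine Finset.sum_congr rfl ?_
      intro β hβ
      have h3 : β ∈ mons N d := by
        by_contra hcon
        exact (mem_support_iff.mp hβ) (coeff_eq_zero hF hcon)
      rw [mem_mons] at h3
      simp only [Pi.smul_apply, smul_eq_mul, mul_pow]
      rw [Finset.prod_mul_distrib, Finset.prod_pow_eq_pow_sum, h3]
      ring
    rw [h2, hbad _ (mul_ne_zero ht0' ht), mul_zero]

/-- weight -/
def wt {m : ℕ} (e : Fin m ↪ Fin N) (a : Fin m → ℕ) (β : Fin N →₀ ℕ) : ℕ := ∑ j, β (e j) * a j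

/-- support condition -/
def supp {m : ℕ} (e : Fin m ↪ Fin N) (β : Fin N →₀ ℕ) : Prop := ∀ k, (∀ j, e j ≠ k) → β k = 0

lemma prod_pt {m : ℕ} (e : Fin m ↪ Fin N) (a : Fin m → ℕ) (t : ℂ) (β : Fin N →₀ ℕ) (hβ : supp e β) :
    ∏ k, (pt e (fun j => t ^ a j) k) ^ β k = t ^ wt e a β := by
  classical
  have h1 : ∏ k, (pt e (fun j => t ^ a j) k) ^ β k = ∏ k ∈ Finset.univ.map e, (pt e (fun j => t ^ a j) k) ^ β k := by
    symm
    apply Finset.prod_subset (Finset.subset_univ _)
    intro k _ hk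
    rw [hβ k, pow_zero]
    intro j hj
    apply hk
    rw [Finset.mem_map]
    exact ⟨j, Finset.mem_univ j, hj⟩
  rw [h1, Finset.prod_map, wt, ← Finset.prod_pow_eq_pow_sum]
  refine Finset.prod_congr rfl ?_
  intro j _
  rw [pt_e, ← pow_mul, mul_comm]

lemma prod_pt_zero {m : ℕ} (e : Fin m ↪ Fin N) (z : Fin m → ℂ) (β : Fin N →₀ ℕ) (hβ : ¬ supp e β) :
    ∏ k, (pt e z k) ^ β k = 0 := by
  unfold supp at hβ
  push Not at hβ
  obtain ⟨k, hk, hk0⟩ := hβ
  apply Finset.prod_eq_zero (Finset.mem_univ k)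
  rw [pt_n e z hk, zero_pow hk0]

open Classical in
/-- the coefficient conditions -/
theorem coeff_conditions (Φ : MvPolynomial (Fin N) ℂ) (hΦ : Φ.IsHomogeneous d) {m : ℕ} (e : Fin m ↪ Fin N)
    (a : Fin m → ℕ) (hbad : ∀ t : ℂ, t ≠ 0 → eval (pt e (fun j => t ^ a j)) Φ = 0) (s : ℕ) :
    ∑ β : mons N d with supp e β.1 ∧ wt e a β.1 = s, Φ.coeff β.1 = 0 := by
  let Q : Polynomial ℂ := ∑ β : mons N d, if supp e β.1 then Polynomial.C (Φ.coeff β.1) * Polynomial.X ^ wt e a β.1 else 0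
  have hQ : ∀ t : ℂ, Q.eval t = eval (pt e (fun j => t ^ a j)) Φ := by
    intro t
    conv_rhs => rw [← sum_mons hΦ]
    rw [map_sum, Polynomial.eval_finsetSum]
    refine Finset.sum_congr rfl ?_
    intro β _
    rw [eval_monomial]
    rw [Finsupp.prod_fintype _ _ (by intro i; rw [pow_zero])]
    split_ifs with h
    · rw [prod_pt e a t β.1 h]; simp
    · rw [prod_pt_zero e _ β.1 h, mul_zero, Polynomial.eval_zero]
  have hQ0 : Q = 0 := by
    apply Polynomial.eq_zero_of_infinite_isRoot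
    apply Set.Infinite.mono (s := {0}ᶜ)
    · intro t ht
      show Q.eval t = 0
      rw [hQ t, hbad t ht]
    · exact (Set.finite_singleton (0 : ℂ)).infinite_compl
  have h1 := congrArg (fun P : Polynomial ℂ => P.coeff s) hQ0
  simp only [Q, Polynomial.finsetSum_coeff, Polynomial.coeff_zero] at h1
  rw [← h1, Finset.sum_filter]
  refine Finset.sum_congr rfl ?_
  intro β _
  by_cases h2 : supp e β.1
  · rw [if_pos h2, Polynomial.coeff_C_mul, Polynomial.coeff_X_pow]
    by_cases h3 : wt e a β.1 = s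
    · rw [if_pos ⟨h2, h3⟩, if_pos h3.symm, mul_one]
    · rw [if_neg (fun h => h3 h.2), if_neg (fun h => h3 h.symm), mul_zero]
  · rw [if_neg h2, if_neg (fun h => h2 h.1), Polynomial.coeff_zero]

end Pool.Agent.H13.Kob
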