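import Pool.Agent.H13.Kob.Bad

/-! A chain of monomials with distinct weights, and the algebraic theorem. -/

namespace Pool.Agent.H13.Kob

open MvPolynomial

variable {N d μ : ℕ}

/-- truncation to `Fin (μ+2)` -/
def cap (μ j : ℕ) : Fin (μ + 2) := ⟨min j (μ + 1), by omega⟩

lemma cap_lt {q : ℕ} (hq : q ≤ μ) : cap μ q < cap μ (q + 1) := by
  rw [Fin.lt_def]
  simp only [cap]
  omega

/-- weights along the chain -/
def W (a : Fin (μ + 2) → ℕ) (d c : ℕ) : ℕ := (d - c % d) * a (cap μ (c / d)) + (c % d) * a (cap μ (c / d + 1))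

lemma W_lt_succ {a : Fin (μ + 2) → ℕ} (ha : StrictMono a) (hd : 0 < d) {c : ℕ} (hc : c < (μ + 1) * d) :
    W a d c < W a d (c + 1) := by
  have hq : c / d ≤ μ := by
    have : c / d < μ + 1 := Nat.div_lt_of_lt_mul (by rw [mul_comm]; exact hc)
    omega
  have h1 := ha (cap_lt hq)
  have hr : c % d < d := Nat.mod_lt _ hd
  unfold W
  set q := c / d
  set r := c % d
  have hc' : c = d * q + r := (Nat.div_add_mod c d).symm
  rcases Nat.lt_or_ge (r + 1) d with h | h
  · have e1 : (c + 1) / d = q := by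
      rw [hc', add_assoc]
      rw [Nat.mul_add_div hd, Nat.div_eq_of_lt h, add_zero]
    have e2 : (c + 1) % d = r + 1 := by
      rw [hc', add_assoc, Nat.mul_add_mod, Nat.mod_eq_of_lt h]
    rw [e1, e2]
    obtain ⟨x, hx⟩ : ∃ x, d = r + 1 + x := ⟨d - (r + 1), by omega⟩
    have e3 : d - r = x + 1 := by omega
    have e4 : d - (r + 1) = x := by omega
    rw [e3, e4]
    nlinarith
  · have hrd : r + 1 = d := by omega
    have e1 : (c + 1) / d = q + 1 := by
      rw [hc', add_assoc, hrd, Nat.mul_add_div hd, Nat.div_self hd]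
    have e2 : (c + 1) % d = 0 := by
      rw [hc', add_assoc, hrd, Nat.mul_add_mod, Nat.mod_self]
    rw [e1, e2]
    have e3 : d - r = 1 := by omega
    rw [e3, Nat.sub_zero, zero_mul, add_zero, ← hrd]
    nlinarith

lemma W_lt {a : Fin (μ + 2) → ℕ} (ha : StrictMono a) (hd : 0 < d) {c c' : ℕ} (h : c < c')
    (hc' : c' ≤ (μ + 1) * d) : W a d c < W a d c' := by
  induction c' with
  | zero => omega
  | succ k ih =>
    rcases Nat.lt_or_ge c k with h1 | h1
    · exact (ih h1 (by omega)).trans (W_lt_succ ha hd (by omega))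
    · have : c = k := by omega
      subst this
      exact W_lt_succ ha hd (by omega)

/-- chain monomials -/
noncomputable def chain (e : Fin (μ + 2) ↪ Fin N) (d c : ℕ) : Fin N →₀ ℕ :=
  Finsupp.single (e (cap μ (c / d))) (d - c % d) + Finsupp.single (e (cap μ (c / d + 1))) (c % d)

lemma chain_mem (e : Fin (μ + 2) ↪ Fin N) (hd : 0 < d) (c : ℕ) : chain e d c ∈ mons N d := by
  rw [mem_mons]
  simp only [chain, Finsupp.coe_add, Pi.add_apply, Finset.sum_add_distrib]
  have h1 : ∀ (k : Fin N) (x : ℕ), ∑ i, (Finsupp.single k x : Fin N →₀ ℕ) i = x := by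
    intro k x
    rw [Finset.sum_eq_single k]
    · simp
    · intro b _ hb; rw [Finsupp.single_apply, if_neg (Ne.symm hb)]
    · intro h; exact absurd (Finset.mem_univ k) h
  rw [h1, h1]
  have := Nat.mod_lt c hd
  omega

lemma chain_supp (e : Fin (μ + 2) ↪ Fin N) (d c : ℕ) : supp e (chain e d c) := by
  intro k hk
  simp only [chain, Finsupp.coe_add, Pi.add_apply, Finsupp.single_apply]
  rw [if_neg (hk _), if_neg (hk _), add_zero]

lemma chain_wt (e : Fin (μ + 2) ↪ Fin N) (a : Fin (μ + 2) → ℕ) (d c : ℕ) : wt e a (chain e d c) = W a d c := by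
  have h1 : ∀ (p : Fin (μ + 2)) (x : ℕ), ∑ j, (Finsupp.single (e p) x : Fin N →₀ ℕ) (e j) * a j = x * a p := by
    intro p x
    rw [Finset.sum_eq_single p]
    · simp
    · intro b _ hb
      rw [Finsupp.single_apply, if_neg, zero_mul]
      intro h
      exact hb (e.injective h).symm
    · intro h; exact absurd (Finset.mem_univ p) h
  rw [wt]
  simp only [chain, Finsupp.coe_add, Pi.add_apply, add_mul, Finset.sum_add_distrib]
  rw [h1, h1, W]

/-- Algebraic theorem. For `d ≥ 2N - 2` a general form of degree `d` in `N ≥ 3` variables does not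
vanish on any curve `t ↦ ∑ t^{a_j} v_j` with `v_j` linearly independent and distinct exponents. -/
theorem algebraic (N d : ℕ) (hN : 3 ≤ N) (hd : 2 * N - 2 ≤ d) :
    ∃ P : MvPolynomial (Fin N →₀ ℕ) ℂ,
      (∃ F₀ : MvPolynomial (Fin N) ℂ, F₀.IsHomogeneous d ∧ eval (fun m => F₀.coeff m) P ≠ 0) ∧
      ∀ F : MvPolynomial (Fin N) ℂ, F.IsHomogeneous d → eval (fun m => F.coeff m) P ≠ 0 →
        ∀ (m : ℕ) (v : Fin m → (Fin N → ℂ)) (a : Fin m → ℕ), 2 ≤ m → LinearIndependent ℂ v → StrictMono a →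
          ¬ ∀ t : ℂ, t ≠ 0 → eval (∑ j, t ^ a j • v j) F = 0 := by
  classical
  let B : Set (mons N d → ℂ) := ⋃ μ : Fin (N - 1), ⋃ τ : Ty N d μ.1,
    {x : mons N d → ℂ | ∃ p : Par τ → ℂ, ∀ β, x β = eval p ((genF τ).coeff β.1)}
  have hB : Thin B := by
    apply thin_iUnion
    intro μ
    apply thin_iUnion
    intro τ
    apply thin_of_param
    apply card_Par
    have key : ∀ (N d m : ℕ), 3 ≤ N → 2 * N - 2 ≤ d → N * (m + 2) < (m + 1) * d + 1 + 2 := by
      intro N d m hN hd
      obtain ⟨x, rfl⟩ : ∃ x, N = x + 3 := ⟨N - 3, by omega⟩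
      obtain ⟨y, rfl⟩ : ∃ y, d = 2 * x + 4 + y := ⟨d - (2 * x + 4), by omega⟩
      have : (m + 1) * (2 * x + 4 + y) + 1 + 2 = (x + 3) * (m + 2) + (m * x + m + (m + 1) * y + 1) := by ring
      rw [this]
      omega
    exact key N d μ.1 hN hd
  obtain ⟨P, hP1, hP2⟩ := exists_open hB
  refine ⟨P, hP1, ?_⟩
  intro F hF hPF m v a hm hv ha hbad
  apply hP2 F hF hPF
  -- bad forms lie in B
  have hmN : m ≤ N := by
    have := hv.fintype_card_le_finrank
    simpa using this
  obtain ⟨μ, rfl⟩ : ∃ μ, m = μ + 2 := ⟨m - 2, by omega⟩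
  obtain ⟨e, k0, k1, h, Φ, hΦ, hFΦ, hcol, h0, h1, hpt⟩ := normalise F hF v hv a ha hbad
  have hd0 : 0 < d := by omega
  let γ : Fin ((μ + 1) * d + 1) ↪ mons N d :=
    ⟨fun c => ⟨chain e d c.1, chain_mem e hd0 c.1⟩, by
      intro c c' hcc
      have h2 : W a d c.1 = W a d c'.1 := by
        rw [← chain_wt e a, ← chain_wt e a]
        have h4 : chain e d c.1 = chain e d c'.1 := congrArg Subtype.val hcc
        rw [h4]
      rcases lt_trichotomy c.1 c'.1 with h3 | h3 | h3
      · exact absurd h2 (W_lt ha hd0 h3 (by omega)).ne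
      · exact Fin.ext h3
      · exact absurd h2.symm (W_lt ha hd0 h3 (by omega)).ne⟩
  have hγ : ∀ c, (γ c).1 = chain e d c.1 := fun c => rfl
  let S : Fin ((μ + 1) * d + 1) → Finset (mons N d) := fun c =>
    Finset.univ.filter (fun β => supp e β.1 ∧ wt e a β.1 = wt e a (γ c).1)
  let τ : Ty N d μ := (e, (k0, k1), γ, S)
  refine Set.mem_iUnion.mpr ⟨⟨μ, by omega⟩, Set.mem_iUnion.mpr ⟨τ, ?_⟩⟩
  obtain ⟨p, hp⟩ := realize τ Φ hΦ h hcol h0 h1
    (by
      intro c
      have := coeff_conditions Φ hΦ e a hpt (wt e a (γ c).1)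
      convert this)
    (by
      intro c
      show γ c ∈ S c
      simp only [S, Finset.mem_filter, Finset.mem_univ, true_and, and_true]
      rw [hγ]
      exact chain_supp e d c.1)
    (by
      intro c c' hcc
      show γ c' ∉ S c
      simp only [S, Finset.mem_filter, Finset.mem_univ, true_and]
      rintro ⟨_, h2⟩
      rw [hγ, hγ, chain_wt, chain_wt] at h2
      rcases lt_trichotomy c.1 c'.1 with h3 | h3 | h3
      · exact absurd h2.symm (W_lt ha hd0 h3 (by omega)).ne
      · exact hcc (Fin.ext h3)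
      · exact absurd h2 (W_lt ha hd0 h3 (by omega)).ne)
  refine ⟨p, ?_⟩
  intro β
  rw [← hp β, hFΦ]

end Pool.Agent.H13.Kob
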