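import Pool.Agent.H13.Kob.Types
import Pool.Agent.H13.Borel.Borel

/-!
# Exponential sums on general hypersurfaces
-/

namespace Pool.Agent.H13.Kob

open MvPolynomial Pool.Agent.H13.Borel Pool.Agent.H13.CEV

section

variable {N k d e : ℕ}

open Classical in
/-- sum of the vectors of the class of `j` -/
noncomputable def grp {W A : Type*} [AddCommMonoid A] (φ : Fin k → W) (v : Fin k → Fin N → A)
    (j : Fin k) (i : Fin N) : A :=
  ∑ l with φ l = φ j, v l i

/-- `Fm x` contains no nonconstant curve of degree at most `e` -/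
def Good (e : ℕ) (x : mons N d → ℂ) : Prop :=
  ∀ v : Fin N × Fin (e + 1) → ℂ, Gc x v = 0 →
    ∀ i j a b, v (i, a) * v (j, b) = v (j, a) * v (i, b)

lemma eval_Fm (x : mons N d → ℂ) (y : Fin N → ℂ) :
    eval y (Fm x) = ∑ α : mons N d, x α * ∏ i, y i ^ α.1 i := by
  rw [Fm, map_sum]
  apply Finset.sum_congr rfl
  intro α _
  rw [eval_monomial, Finsupp.prod_fintype]
  simp

lemma Gc_eval (x : mons N d → ℂ) (v : Fin N × Fin (e + 1) → ℂ) (t : ℂ) :
    (Gc x v).eval t = eval (fun i => (fv v i).eval t) (Fm x) := by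
  rw [eval_Fm, Gc, Polynomial.eval_finsetSum]
  apply Finset.sum_congr rfl
  intro α _
  rw [Polynomial.eval_mul, Polynomial.eval_C, Polynomial.eval_prod]
  simp only [Polynomial.eval_pow]

lemma good_weights {x : mons N d → ℂ} (hx : Good e x) (a : Fin k → ℕ) (ha : ∀ j, a j ≤ e)
    (v : Fin k → Fin N → ℂ)
    (hv : ∀ t : ℂ, eval (fun i => ∑ j, t ^ a j * v j i) (Fm x) = 0) (j l : Fin k) (i i' : Fin N) :
    grp a v j i * grp a v l i' = grp a v j i' * grp a v l i := by
  classical
  set w : Fin N × Fin (e + 1) → ℂ := fun p => ∑ l with a l = p.2, v l p.1 with hw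
  have h1 : Gc x w = 0 := by
    apply Polynomial.funext
    intro t
    rw [Gc_eval, Polynomial.eval_zero, ← hv t]
    congr 2
    funext i
    simp only [fv, hw]
    rw [Polynomial.eval_finsetSum]
    have h2 : ∀ b : Fin (e + 1), Polynomial.eval t
        (Polynomial.C (∑ l with a l = (b : ℕ), v l i) * Polynomial.X ^ (b : ℕ))
        = ∑ l, if a l = (b : ℕ) then t ^ a l * v l i else 0 := by
      intro b
      rw [Polynomial.eval_mul, Polynomial.eval_C, Polynomial.eval_pow, Polynomial.eval_X,
        Finset.sum_mul, ← Finset.sum_filter]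
      apply Finset.sum_congr rfl
      intro l hl
      rw [(Finset.mem_filter.mp hl).2, mul_comm]
    simp only [h2]
    rw [Finset.sum_comm]
    apply Finset.sum_congr rfl
    intro l _
    rw [Finset.sum_eq_single ⟨a l, Nat.lt_succ_of_le (ha l)⟩]
    · simp
    · intro b _ hb
      rw [if_neg]
      intro h
      exact hb (Fin.ext h.symm)
    · simp
  have h2 := hx w h1 i i' ⟨a j, Nat.lt_succ_of_le (ha j)⟩ ⟨a l, Nat.lt_succ_of_le (ha l)⟩
  have h3 : ∀ (j : Fin k) (i : Fin N), w (i, ⟨a j, Nat.lt_succ_of_le (ha j)⟩) = grp a v j i := by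
    intro j i
    simp only [hw, grp]
    congr!
  rw [h3, h3, h3, h3] at h2
  exact h2

lemma eq_Fm {F : MvPolynomial (Fin N) ℂ} (hF : F.IsHomogeneous d) :
    F = Fm (fun m : mons N d => F.coeff m.1) := by
  classical
  ext α
  by_cases hα : α ∈ mons N d
  · rw [Fm_coeff _ ⟨α, hα⟩]
  · rw [coeff_eq_zero hF hα, coeff_eq_zero (Fm_homog _) hα]

/-- the polynomial `F(∑ s_j q_j)` in `s` with coefficients in `ℂ[z]` -/
noncomputable def GG (F : MvPolynomial (Fin N) ℂ) (q : Fin k → Fin N → Polynomial ℂ) :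
    MvPolynomial (Fin k) (Polynomial ℂ) :=
  eval₂ (C.comp Polynomial.C) (fun i => ∑ j, X j * C (q j i)) F

lemma GG_homog {F : MvPolynomial (Fin N) ℂ} (hF : F.IsHomogeneous d)
    (q : Fin k → Fin N → Polynomial ℂ) : (GG F q).IsHomogeneous d := by
  have h2 := hF.eval₂ (C.comp Polynomial.C)
    (fun i => ∑ j, (X j : MvPolynomial (Fin k) (Polynomial ℂ)) * C (q j i)) (n := 1)
    (fun r => isHomogeneous_C _ _) (by
      intro i
      apply IsHomogeneous.sum
      intro j _
      have := (isHomogeneous_X (Polynomial ℂ) j).mul (isHomogeneous_C (Fin k) (q j i))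
      simpa using this)
  rw [one_mul] at h2
  exact h2

lemma GG_eval (F : MvPolynomial (Fin N) ℂ) (q : Fin k → Fin N → Polynomial ℂ) (z : ℂ)
    (s : Fin k → ℂ) : eval (fun i => ∑ j, s j * (q j i).eval z) F
      = ∑ α ∈ (GG F q).support, ((GG F q).coeff α).eval z * ∏ j, s j ^ α j := by
  have h1 : eval₂ (Polynomial.evalRingHom z) s (GG F q)
      = ∑ α ∈ (GG F q).support, ((GG F q).coeff α).eval z * ∏ j, s j ^ α j := by
    rw [eval₂_eq']
    rfl
  rw [← h1, GG, ← coe_eval₂Hom, ← coe_eval₂Hom, ← RingHom.comp_apply]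
  have h2 : (eval₂Hom (Polynomial.evalRingHom z) s).comp
      (eval₂Hom (C.comp Polynomial.C) (fun i => ∑ j, X j * C (q j i)))
      = (eval (fun i => ∑ j, s j * (q j i).eval z) : MvPolynomial (Fin N) ℂ →+* ℂ) := by
    apply MvPolynomial.ringHom_ext
    · intro r
      simp
    · intro i
      simp
  rw [h2]

/-- proportionality of the grouped vectors -/
lemma grp_prop {x : mons N d → ℂ} (hx : Good e x)
    (he : ∀ a : Fin k → ℕ, ∃ b : Fin k → ℕ, SameType d a b ∧ ∀ j, b j ≤ e)
    (φ : Fin k → ℂ → ℂ) (hφ : ∀ j, Differentiable ℂ (φ j)) (hφ0 : ∀ j, φ j 0 = 0)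
    (q : Fin k → Fin N → Polynomial ℂ)
    (hF : ∀ z, eval (fun i => ∑ j, Complex.exp (φ j z) * (q j i).eval z) (Fm x) = 0)
    (j l : Fin k) (i i' : Fin N) :
    grp φ q j i * grp φ q l i' = grp φ q j i' * grp φ q l i := by
  classical
  obtain ⟨a₀, ha₀⟩ := exists_nat_type d φ
  obtain ⟨a, ha, hae⟩ := he a₀
  have hφa : SameType d φ a := ha₀.trans ha
  set G := GG (Fm x) q with hG
  have hGd : G.IsHomogeneous d := GG_homog (Fm_homog x) q
  have hsupp : ∀ α ∈ G.support, α ∈ mons k d := by
    intro α hα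
    have h1 := hGd (mem_support_iff.mp hα)
    rw [mem_mons, ← h1, Finsupp.weight_apply, Finsupp.sum_fintype]
    · simp
    · simp
  have hcls := fun ψ t => borel_classes G.support G.coeff (wt φ)
    (fun α _ => by
      show Differentiable ℂ (∑ j, α j • φ j)
      apply Differentiable.sum
      intro j _
      exact (hφ j).const_smul (α j))
    (fun α _ => by simp [wt, hφ0])
    (fun z => by
      rw [← hF z, GG_eval]
      apply Finset.sum_congr rfl
      intro α _
      congr 1
      simp only [wt, Finset.sum_apply, Pi.smul_apply]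
      rw [Complex.exp_sum]
      apply Finset.prod_congr rfl
      intro j _
      rw [nsmul_eq_mul, Complex.exp_nat_mul]) ψ t
  have hz1 : ∀ ψ : ℂ → ℂ, ∑ α ∈ G.support with wt φ α = ψ, G.coeff α = 0 := by
    intro ψ
    exact hcls ψ _ (fun α => Finset.mem_filter)
  have hz2 : ∀ n : ℕ, ∑ α ∈ G.support with wt a α = n, G.coeff α = 0 := by
    intro n
    exact class_sum G.support G.coeff (wt φ) (wt a)
      (fun α hα β hβ => hφa.2 α (hsupp α hα) β (hsupp β hβ)) hz1 n
  -- evaluate at a point
  have hpt : ∀ z : ℂ, (grp φ q j i * grp φ q l i').eval z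
      = (grp φ q j i' * grp φ q l i).eval z := by
    intro z
    have h1 : ∀ t : ℂ, eval (fun i => ∑ j, t ^ a j * (q j i).eval z) (Fm x) = 0 := by
      intro t
      rw [GG_eval]
      have h2 : ∀ α : Fin k →₀ ℕ, ∏ j, (t ^ a j) ^ α j = t ^ wt a α := by
        intro α
        rw [wt, ← Finset.prod_pow_eq_pow_sum]
        apply Finset.prod_congr rfl
        intro j _
        rw [← pow_mul, mul_comm, smul_eq_mul]
      simp only [h2]
      rw [← Finset.sum_fiberwise_of_maps_to (s := G.support) (t := G.support.image (wt a))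
        (g := wt a) (fun α hα => Finset.mem_image_of_mem _ hα)]
      apply Finset.sum_eq_zero
      intro n _
      have h3 : ∑ α ∈ G.support with wt a α = n, (G.coeff α).eval z * t ^ wt a α
          = (∑ α ∈ G.support with wt a α = n, G.coeff α).eval z * t ^ n := by
        rw [Polynomial.eval_finsetSum, Finset.sum_mul]
        apply Finset.sum_congr rfl
        intro α hα
        rw [(Finset.mem_filter.mp hα).2]
      rw [h3, hz2 n]
      simp
    have h4 := good_weights hx a hae (fun j i => (q j i).eval z) h1 j l i i'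
    have h5 : ∀ j i, grp a (fun j i => (q j i).eval z) j i = (grp φ q j i).eval z := by
      intro j i
      simp only [grp]
      rw [Polynomial.eval_finsetSum]
      apply Finset.sum_congr _ (fun _ _ => rfl)
      ext l
      simp only [Finset.mem_filter]
      exact and_congr_right fun _ => (hφa.1 l j).symm
    rw [Polynomial.eval_mul, Polynomial.eval_mul, ← h5, ← h5, ← h5, ← h5]
    exact h4
  exact Polynomial.funext hpt

end

end Pool.Agent.H13.Kob
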