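import Pool.Agent.H13.Kob.Few

/-!
# Entire curves meeting `N` hyperplanes in few points: conclusion
-/

namespace Pool.Agent.H13.Kob

open MvPolynomial Pool.Agent.H13.Borel Pool.Agent.H13.CEV

section

variable {N d e : ℕ}

lemma eval_scale_Fm (x : mons N d → ℂ) (s : ℂ) (y : Fin N → ℂ) :
    eval (fun i => s * y i) (Fm x) = s ^ d * eval y (Fm x) := by
  rw [eval_Fm, eval_Fm, Finset.mul_sum]
  apply Finset.sum_congr rfl
  intro α _
  simp only [mul_pow, Finset.prod_mul_distrib]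
  rw [Finset.prod_pow_eq_pow_sum, mem_mons.mp α.2]
  ring

theorem few {x : mons N d → ℂ} (hx : Good e x)
    (he : ∀ a : Fin N → ℕ, ∃ b : Fin N → ℕ, SameType d a b ∧ ∀ j, b j ≤ e) (r c K : ℕ)
    (hc : ∀ (S : Finset ℂ), S.card ≤ r → ∀ (I : Finset (Fin N →₀ ℕ)), I ⊆ mons N d →
      ∀ (A u : (Fin N →₀ ℕ) → Polynomial ℂ),
      (∀ i ∈ I, (A i).natDegree ≤ 0 ∧ u i ≠ 0 ∧ ∀ z, (u i).IsRoot z → z ∈ S) →
      ∑ i ∈ I, A i * u i = 0 → ∀ a : (Fin N →₀ ℕ) → ℕ,
      (∀ i ∈ I, ∀ j ∈ I, Near S c (u i) (u j) → a i = a j) →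
      ∀ w : ℕ, ∑ i ∈ I with a i = w, A i * u i = 0)
    (hK : ∀ (J : Finset (Fin N)) (m : Fin N → ℕ),
      (∃ i ∈ J, ∃ j ∈ J, m j + K < m i) → ∃ a : Fin N → ℕ, (∃ i ∈ J, ∃ j ∈ J, a i ≠ a j) ∧
        ∀ α ∈ mons N d, ∀ β ∈ mons N d, nw m α ≤ nw m β + c → nw m β ≤ nw m α + c →
          nw a α = nw a β) (hKe : r * K ≤ e)
    {g : ℂ → Fin N → ℂ} (hg : Differentiable ℂ g) (hg0 : ∀ z, g z ≠ 0)
    (hF : ∀ z, eval (g z) (Fm x) = 0) (H : Fin N → Fin N → ℂ) (hH : LinearIndependent ℂ H)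
    (hr : {z | ∃ j, ∑ i, H j i * g z i = 0 ∧ ∃ w, ∑ i, H j i * g w i ≠ 0}.encard ≤ r) (z : ℂ) :
    ∃ t : ℂ, g z = t • g 0 := by
  classical
  set A : Matrix (Fin N) (Fin N) ℂ := Matrix.of H with hA
  have hAu : IsUnit A := Matrix.linearIndependent_rows_iff_isUnit.mp hH
  have hdet : IsUnit A.det := (Matrix.isUnit_iff_isUnit_det A).mp hAu
  set v : Fin N → Fin N → ℂ := fun j i => A⁻¹ i j with hv
  have hvli : LinearIndependent ℂ v := by
    have h1 : IsUnit (A⁻¹).transpose := by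
      rw [Matrix.isUnit_iff_isUnit_det, Matrix.det_transpose]
      exact (Matrix.isUnit_nonsing_inv_det A hdet)
    exact Matrix.linearIndependent_rows_iff_isUnit.mpr h1
  have hdual : ∀ y : Fin N → ℂ, ∀ i, y i = ∑ j, v j i * ∑ k, H j k * y k := by
    intro y i
    have h1 : A⁻¹.mulVec (A.mulVec y) = y := by
      rw [Matrix.mulVec_mulVec, Matrix.nonsing_inv_mul A hdet, Matrix.one_mulVec]
    conv_lhs => rw [← h1]
    simp only [Matrix.mulVec, dotProduct, hv, hA, Matrix.of_apply]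
  set f : Fin N → ℂ → ℂ := fun j z => ∑ i, H j i * g z i with hf
  have hfd : ∀ j, Differentiable ℂ (f j) := by
    intro j
    apply Differentiable.fun_sum
    intro i _
    exact ((differentiable_pi.mp hg) i).const_mul _
  set Z : Set ℂ := {z | ∃ j, ∑ i, H j i * g z i = 0 ∧ ∃ w, ∑ i, H j i * g w i ≠ 0} with hZ
  have hZfin : Z.Finite := by
    rw [← Set.encard_lt_top_iff]
    exact lt_of_le_of_lt hr (ENat.natCast_lt_top r)
  set S : Finset ℂ := hZfin.toFinset with hS
  have hScard : S.card ≤ r := by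
    have h1 : Z.encard = S.card := hZfin.encard_eq_coe_toFinset_card
    rw [h1] at hr
    exact_mod_cast hr
  have hSmem : ∀ z, z ∈ S ↔ z ∈ Z := fun z => hZfin.mem_toFinset
  have hfj : ∀ j, ∃ (p : Polynomial ℂ) (φ : ℂ → ℂ), Differentiable ℂ φ ∧
      ∀ z, f j z = Complex.exp (φ z) * p.eval z := by
    intro j
    by_cases hj : ∃ w, f j w ≠ 0
    · obtain ⟨p, φ, _, hφ, hpφ⟩ := exists_poly_mul_exp (hfd j) hj
        (hZfin.subset fun z hz => ⟨j, hz, hj⟩)
      exact ⟨p, φ, hφ, fun z => by rw [hpφ z, mul_comm]⟩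
    · push Not at hj
      exact ⟨0, fun _ => 0, differentiable_const _, fun z => by rw [hj z]; simp⟩
  choose p φ hφ hpφ using hfj
  have hgsum : ∀ z i, g z i = ∑ j, Complex.exp (φ j z)
      * (Polynomial.C (v j i) * p j).eval z := by
    intro z i
    rw [hdual (g z) i]
    apply Finset.sum_congr rfl
    intro j _
    have : ∑ k, H j k * g z k = f j z := rfl
    rw [this, hpφ j z, Polynomial.eval_mul, Polynomial.eval_C]
    ring
  obtain ⟨⟨s, ρ, hs, hsρ⟩, -⟩ := expsum hx he φ hφ (fun j i => Polynomial.C (v j i) * p j) (by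
    intro z
    rw [← hF z]
    congr 2
    funext i
    exact (hgsum z i).symm)
  have hgρ : ∀ z i, g z i = s z * (ρ i).eval z := by
    intro z i
    rw [hgsum z i]
    exact hsρ z i
  have hs0 : ∀ z, s z ≠ 0 := by
    intro z h0
    apply hg0 z
    funext i
    rw [hgρ, h0, zero_mul]; rfl
  have hρ0 : ∀ z, ∃ i, (ρ i).eval z ≠ 0 := by
    intro z
    by_contra hcon
    push Not at hcon
    apply hg0 z
    funext i
    rw [hgρ, hcon i, mul_zero]; rfl
  have hρF : MvPolynomial.aeval ρ (Fm x) = 0 := by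
    apply Polynomial.funext
    intro z
    have h1 : (MvPolynomial.aeval ρ (Fm x)).eval z = eval (fun i => (ρ i).eval z) (Fm x) := by
      rw [aeval_Fm, eval_Fm, Polynomial.eval_finsetSum]
      apply Finset.sum_congr rfl
      intro α _
      rw [Polynomial.eval_mul, Polynomial.eval_C, Polynomial.eval_prod]
      simp only [Polynomial.eval_pow]
    have h2 := hF z
    have h3 : g z = fun i => s z * (ρ i).eval z := funext (hgρ z)
    rw [h3, eval_scale_Fm] at h2
    rw [h1, Polynomial.eval_zero]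
    exact (mul_eq_zero.mp h2).resolve_left (pow_ne_zero _ (hs0 z))
  set P : Fin N → Polynomial ℂ := fun j => ∑ i, Polynomial.C (H j i) * ρ i with hP
  have hPf : ∀ j z, f j z = s z * (P j).eval z := by
    intro j z
    simp only [hf, hP]
    rw [Polynomial.eval_finsetSum, Finset.mul_sum]
    apply Finset.sum_congr rfl
    intro i _
    rw [hgρ, Polynomial.eval_mul, Polynomial.eval_C]
    ring
  have hρdeg := few_poly hx he r c K hc hK hKe ρ hρF hρ0 v hvli P (by
      intro i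
      apply Polynomial.funext
      intro z
      rw [hdual (fun i => (ρ i).eval z) i, Polynomial.eval_finsetSum]
      apply Finset.sum_congr rfl
      intro j _
      rw [Polynomial.eval_mul, Polynomial.eval_C]
      congr 1
      simp only [hP]
      rw [Polynomial.eval_finsetSum]
      apply Finset.sum_congr rfl
      intro k _
      rw [Polynomial.eval_mul, Polynomial.eval_C]) S hScard (by
      intro j hj z hz
      rw [hSmem]
      refine ⟨j, ?_, ?_⟩
      · show f j z = 0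
        rw [hPf, hz.eq_zero, mul_zero]
      · by_contra hcon
        push Not at hcon
        apply hj
        apply Polynomial.funext
        intro w
        have h1 : f j w = 0 := hcon w
        rw [hPf] at h1
        rw [Polynomial.eval_zero]
        exact (mul_eq_zero.mp h1).resolve_left (hs0 w))
  have hconst := good_const hx ρ hρdeg hρF
  obtain ⟨i₀, hi₀⟩ := hρ0 0
  refine ⟨s z * (ρ i₀).eval z / (s 0 * (ρ i₀).eval 0), ?_⟩
  funext i
  rw [Pi.smul_apply, smul_eq_mul, hgρ, hgρ]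
  have h1 := hconst i i₀ z 0
  have h2 := hs0 0
  field_simp
  linear_combination s z * h1

/-- a uniform constant for all sets of monomials -/
lemma exists_classes (N d r : ℕ) : ∃ c : ℕ, ∀ (S : Finset ℂ), S.card ≤ r →
    ∀ (I : Finset (Fin N →₀ ℕ)), I ⊆ mons N d → ∀ (A u : (Fin N →₀ ℕ) → Polynomial ℂ),
      (∀ i ∈ I, (A i).natDegree ≤ 0 ∧ u i ≠ 0 ∧ ∀ z, (u i).IsRoot z → z ∈ S) →
      ∑ i ∈ I, A i * u i = 0 → ∀ a : (Fin N →₀ ℕ) → ℕ,
      (∀ i ∈ I, ∀ j ∈ I, Near S c (u i) (u j) → a i = a j) →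
      ∀ w : ℕ, ∑ i ∈ I with a i = w, A i * u i = 0 := by
  choose c hc using fun m => weight_classes (ι := Fin N →₀ ℕ) r m 0
  refine ⟨∑ m ∈ Finset.range ((mons N d).card + 1), c m,
    fun S hS I hI A u h hsum a ha w => ?_⟩
  have hle : c I.card ≤ ∑ m ∈ Finset.range ((mons N d).card + 1), c m := by
    apply Finset.single_le_sum (f := c) (fun _ _ => Nat.zero_le _)
    rw [Finset.mem_range]
    exact Nat.lt_succ_of_le (Finset.card_le_card hI)
  exact hc I.card S hS I rfl A u h hsum a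
    (fun i hi j hj hij => ha i hi j hj (hij.mono hle)) w

end

end Pool.Agent.H13.Kob
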