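import Pool.Agent.H13.Kob.Link

/-!
# Solutions of linear systems `g' = A g`
-/

namespace Pool.Agent.H13.Kob

open MvPolynomial Pool.Agent.H13.Borel

lemma eval_smul_homog {N d : ℕ} {F : MvPolynomial (Fin N) ℂ} (hF : F.IsHomogeneous d) (c : ℂ)
    (x : Fin N → ℂ) : eval (c • x) F = c ^ d * eval x F := by
  rw [eval_eq', eval_eq', Finset.mul_sum]
  apply Finset.sum_congr rfl
  intro α hα
  have hdeg : ∑ j, α j = d := by
    have h1 := hF (mem_support_iff.mp hα)
    have h2 : Finsupp.degree α = d := by
      rw [← h1, Finsupp.degree_eq_weight_one]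
      rfl
    rw [← h2, Finsupp.degree_eq_sum]
  simp only [Pi.smul_apply, smul_eq_mul, mul_pow]
  rw [Finset.prod_mul_distrib, Finset.prod_pow_eq_pow_sum, hdeg]
  ring

/-- uniqueness for `u' = A u` -/
lemma ode_unique {N : ℕ} (f : Module.End ℂ (Fin N → ℂ)) {u : ℂ → Fin N → ℂ}
    (hu : ∀ z, HasDerivAt u (f (u z)) z) (h0 : u 0 = 0) (z : ℂ) : u z = 0 := by
  have hd : Differentiable ℂ u := fun z => (hu z).differentiableAt
  have hder : ∀ n : ℕ, iteratedDeriv n u = fun z => (f ^ n) (u z) := by
    intro n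
    induction n with
    | zero => funext z; simp
    | succ n ih =>
      rw [iteratedDeriv_succ, ih]
      funext z
      have h1 : HasDerivAt (fun z => (f ^ n) (u z)) ((f ^ n) (f (u z))) z := by
        have h2 : HasDerivAt (fun z => (LinearMap.toContinuousLinearMap (f ^ n)) (u z))
            ((LinearMap.toContinuousLinearMap (f ^ n)) (f (u z))) z :=
          (LinearMap.toContinuousLinearMap (f ^ n)).hasFDerivAt.comp_hasDerivAt z (hu z)
        exact h2
      rw [h1.deriv, pow_succ]
      rfl
  rw [← Complex.taylorSeries_eq_of_entire hd 0 z]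
  have : ∀ n : ℕ, iteratedDeriv n u 0 = 0 := by
    intro n
    rw [hder n]
    simp [h0]
  simp [this]

/-- independence of the vectors `N^k v`, `k < K`, when `N^K v = 0 ≠ N^{K-1} v`; coefficient form -/
lemma krylov {V : Type*} [AddCommGroup V] [Module ℂ V] (n : V →ₗ[ℂ] V) (v : V) (K : ℕ)
    (hK : (n ^ K) v = 0) (hK1 : ∀ k < K, (n ^ k) v ≠ 0) (x : ℕ → ℂ)
    (hx : ∑ k ∈ Finset.range K, x k • (n ^ k) v = 0) : ∀ k < K, x k = 0 := by
  intro k
  induction k using Nat.strong_induction_on with
  | _ k ih =>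
  intro hk
  -- apply `n^(K-1-k)`
  have h1 := congrArg (n ^ (K - 1 - k)) hx
  rw [map_sum, map_zero] at h1
  rw [Finset.sum_eq_single_of_mem k (Finset.mem_range.mpr hk)] at h1
  · rw [map_smul, ← Module.End.mul_apply, ← pow_add] at h1
    rcases smul_eq_zero.mp h1 with h | h
    · exact h
    · exact absurd h (hK1 _ (by omega))
  · intro j hj hjk
    rw [map_smul, ← Module.End.mul_apply, ← pow_add]
    rcases Nat.lt_or_gt_of_ne hjk with h | h
    · rw [ih j h (by omega), zero_smul]
    · have : (n ^ (K - 1 - k + j)) v = 0 := by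
        obtain ⟨r, hr⟩ : ∃ r, K - 1 - k + j = r + K := ⟨j - 1 - k, by omega⟩
        rw [hr, pow_add, Module.End.mul_apply, hK, map_zero]
      rw [this, smul_zero]

/-- the solution through a generalised eigenvector -/
noncomputable def sol {N : ℕ} (f : Module.End ℂ (Fin N → ℂ)) (lam : ℂ) (v : Fin N → ℂ) (K : ℕ)
    (z : ℂ) : Fin N → ℂ :=
  ∑ k ∈ Finset.range K, ((z ^ k / (k.factorial : ℂ)) * Complex.exp (lam * z)) •
    ((f - lam • (1 : Module.End ℂ (Fin N → ℂ))) ^ k) v

lemma sol_zero {N : ℕ} (f : Module.End ℂ (Fin N → ℂ)) (lam : ℂ) (v : Fin N → ℂ) {K : ℕ}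
    (hK : 0 < K) : sol f lam v K 0 = v := by
  unfold sol
  rw [Finset.sum_eq_single_of_mem 0 (Finset.mem_range.mpr hK)]
  · simp
  · intro k _ hk
    simp [hk]

lemma sol_hasDerivAt {N : ℕ} (f : Module.End ℂ (Fin N → ℂ)) (lam : ℂ) (v : Fin N → ℂ) {K : ℕ}
    (hK : ((f - lam • (1 : Module.End ℂ (Fin N → ℂ))) ^ K) v = 0) (z : ℂ) :
    HasDerivAt (sol f lam v K) (f (sol f lam v K z)) z := by
  set n := f - lam • (1 : Module.End ℂ (Fin N → ℂ)) with hn
  have hf : ∀ w, f w = n w + lam • w := by
    intro w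
    simp [hn]
  -- derivative of scalar coefficients
  have hcoef : ∀ k : ℕ, HasDerivAt (fun z : ℂ => (z ^ k / (k.factorial : ℂ)) * Complex.exp (lam * z))
      ((k * z ^ (k - 1) / (k.factorial : ℂ)) * Complex.exp (lam * z)
        + (z ^ k / (k.factorial : ℂ)) * (Complex.exp (lam * z) * lam)) z := by
    intro k
    have h1 : HasDerivAt (fun z : ℂ => z ^ k / (k.factorial : ℂ)) (k * z ^ (k - 1) / (k.factorial : ℂ)) z :=
      (hasDerivAt_pow k z).div_const _
    have h2 : HasDerivAt (fun z : ℂ => Complex.exp (lam * z)) (Complex.exp (lam * z) * lam) z := by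
      have := ((hasDerivAt_id z).const_mul lam).cexp
      simpa using this
    exact h1.mul h2
  have hsum : HasDerivAt (sol f lam v K)
      (∑ k ∈ Finset.range K, ((k * z ^ (k - 1) / (k.factorial : ℂ)) * Complex.exp (lam * z)
        + (z ^ k / (k.factorial : ℂ)) * (Complex.exp (lam * z) * lam)) • (n ^ k) v) z := by
    unfold sol
    apply HasDerivAt.fun_sum
    intro k _
    exact (hcoef k).smul_const _
  have heq : (∑ k ∈ Finset.range K, ((k * z ^ (k - 1) / (k.factorial : ℂ)) * Complex.exp (lam * z)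
        + (z ^ k / (k.factorial : ℂ)) * (Complex.exp (lam * z) * lam)) • (n ^ k) v)
      = f (sol f lam v K z) := by
    rw [hf]
    unfold sol
    rw [map_sum, Finset.smul_sum]
    simp only [add_smul, Finset.sum_add_distrib]
    congr 1
    · -- shift
      rcases Nat.eq_zero_or_pos K with rfl | hKpos
      · simp
      · obtain ⟨M, rfl⟩ : ∃ M, K = M + 1 := ⟨K - 1, by omega⟩
        rw [Finset.sum_range_succ', Finset.sum_range_succ]
        simp only [map_smul, ← hn, ← Module.End.mul_apply, ← pow_succ']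
        rw [hK, smul_zero, add_zero]
        simp only [Nat.cast_zero, zero_mul, zero_div, zero_smul, add_zero, Nat.add_sub_cancel]
        apply Finset.sum_congr rfl
        intro k _
        congr 1
        rw [Nat.factorial_succ]
        push_cast
        have h1 : ((k:ℂ) + 1) ≠ 0 := by exact_mod_cast Nat.succ_ne_zero k
        have h2 : (k.factorial : ℂ) ≠ 0 := by exact_mod_cast Nat.factorial_ne_zero k
        field_simp
    · apply Finset.sum_congr rfl
      intro k _
      rw [smul_smul]
      congr 1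
      ring
  rw [heq] at hsum
  exact hsum

theorem ode_const {N d : ℕ} {F : MvPolynomial (Fin N) ℂ} (hFd : F.IsHomogeneous d) (h : NoTorus F)
    (f : Module.End ℂ (Fin N → ℂ)) {g : ℂ → Fin N → ℂ}
    (hg : ∀ z, HasDerivAt g (f (g z)) z) (hF : ∀ z, eval (g z) F = 0) :
    ∃ lam : ℂ, ∀ z, g z = Complex.exp (lam * z) • g 0 := by
  classical
  -- decomposition
  obtain ⟨w, hw, hwsum⟩ := (Submodule.mem_iSup_iff_exists_finsupp f.maxGenEigenspace (g 0)).mp (by
    rw [Module.End.iSup_maxGenEigenspace_eq_top]; trivial)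
  have hex : ∀ lam, ∃ k : ℕ, ((f - lam • (1 : Module.End ℂ (Fin N → ℂ))) ^ k) (w lam) = 0 :=
    fun lam => (Module.End.mem_maxGenEigenspace f lam (w lam)).mp (hw lam)
  set K : ℂ → ℕ := fun lam => Nat.find (hex lam) with hKdef
  have hK : ∀ lam, ((f - lam • (1 : Module.End ℂ (Fin N → ℂ))) ^ K lam) (w lam) = 0 :=
    fun lam => Nat.find_spec (hex lam)
  have hKmin : ∀ lam, ∀ k < K lam, ((f - lam • (1 : Module.End ℂ (Fin N → ℂ))) ^ k) (w lam) ≠ 0 :=
    fun lam k hk => Nat.find_min (hex lam) hk
  have hKpos : ∀ lam ∈ w.support, 0 < K lam := by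
    intro lam hlam
    rw [Nat.pos_iff_ne_zero]
    intro h0
    have h1 := hK lam
    rw [h0, pow_zero] at h1
    exact (Finsupp.mem_support_iff.mp hlam) (by simpa using h1)
  -- the solution is the sum
  have hgsum : ∀ z, g z = ∑ lam ∈ w.support, sol f lam (w lam) (K lam) z := by
    intro z
    have h1 := ode_unique f (u := fun z => g z - ∑ lam ∈ w.support, sol f lam (w lam) (K lam) z)
      (by
        intro z
        rw [map_sub, map_sum]
        apply (hg z).sub
        apply HasDerivAt.fun_sum
        intro lam _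
        exact sol_hasDerivAt f lam (w lam) (hK lam) z)
      (by
        have : ∑ lam ∈ w.support, sol f lam (w lam) (K lam) 0 = ∑ lam ∈ w.support, w lam := by
          apply Finset.sum_congr rfl
          intro lam hlam
          exact sol_zero f lam (w lam) (hKpos lam hlam)
        simp only [this]
        rw [← hwsum, Finsupp.sum, sub_self]) z
    exact sub_eq_zero.mp h1
  -- index type
  set J := (Σ lam : w.support, Fin (K lam)) with hJ
  set v : J → Fin N → ℂ := fun j =>
    ((f - (j.1 : ℂ) • (1 : Module.End ℂ (Fin N → ℂ))) ^ (j.2 : ℕ)) (w j.1) with hv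
  have hinv : ∀ (lam : ℂ) (k : ℕ), ((f - lam • (1 : Module.End ℂ (Fin N → ℂ))) ^ k) (w lam)
      ∈ f.maxGenEigenspace lam := by
    intro lam k
    rw [Module.End.mem_maxGenEigenspace]
    refine ⟨K lam, ?_⟩
    rw [← Module.End.mul_apply, ← pow_add, add_comm, pow_add, Module.End.mul_apply, hK, map_zero]
  have hvli : LinearIndependent ℂ v := by
    rw [Fintype.linearIndependent_iff]
    intro x hx
    rw [Fintype.sum_sigma] at hx
    have hind := (iSupIndep_iff_finsetSum_eq_zero_imp_eq_zero f.maxGenEigenspace).mp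
      (Module.End.independent_maxGenEigenspace f)
    set X : ℂ → ℕ → ℂ := fun lam k => if h : lam ∈ w.support then
      (if hk : k < K lam then x ⟨⟨lam, h⟩, ⟨k, hk⟩⟩ else 0) else 0 with hX
    have hXeq : ∀ (lam : w.support) (k : Fin (K lam)), X lam k = x ⟨lam, k⟩ := by
      intro lam k
      simp only [hX]
      rw [dif_pos lam.2, dif_pos k.2]
    have hsum0 : ∑ lam ∈ w.support, ∑ k ∈ Finset.range (K lam), X lam k •
        ((f - lam • (1 : Module.End ℂ (Fin N → ℂ))) ^ k) (w lam) = 0 := by
      rw [← Finset.sum_coe_sort]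
      rw [← hx]
      apply Finset.sum_congr rfl
      intro lam _
      rw [← Fin.sum_univ_eq_sum_range (fun k => X lam k •
        ((f - (lam:ℂ) • (1 : Module.End ℂ (Fin N → ℂ))) ^ k) (w lam))]
      apply Finset.sum_congr rfl
      intro k _
      rw [hXeq]
    have hz := hind w.support (fun lam => ∑ k ∈ Finset.range (K lam), X lam k •
        ((f - lam • (1 : Module.End ℂ (Fin N → ℂ))) ^ k) (w lam))
      (fun lam _ => Submodule.sum_mem _ fun k _ => Submodule.smul_mem _ _ (hinv lam k)) hsum0
    rintro ⟨lam, k⟩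
    rw [← hXeq]
    exact krylov _ _ _ (hK lam) (hKmin lam) (X lam) (hz lam lam.2) k k.2
  have hgJ : ∀ z, g z = ∑ j : J, ((Polynomial.C ((j.2 : ℕ).factorial : ℂ)⁻¹ *
      Polynomial.X ^ (j.2 : ℕ)).eval z * Complex.exp ((j.1 : ℂ) * z)) • v j := by
    intro z
    rw [hgsum z, Fintype.sum_sigma, ← Finset.sum_coe_sort]
    apply Finset.sum_congr rfl
    intro lam _
    unfold sol
    rw [← Fin.sum_univ_eq_sum_range (fun k => ((z ^ k / (k.factorial : ℂ)) *
      Complex.exp ((lam:ℂ) * z)) • ((f - (lam:ℂ) • (1 : Module.End ℂ (Fin N → ℂ))) ^ k) (w lam))]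
    apply Finset.sum_congr rfl
    intro k _
    congr 1
    simp only [Polynomial.eval_mul, Polynomial.eval_C, Polynomial.eval_pow, Polynomial.eval_X]
    ring
  have hlink := link hFd h v hvli (fun j => Polynomial.C ((j.2 : ℕ).factorial : ℂ)⁻¹ *
      Polynomial.X ^ (j.2 : ℕ))
    (by
      intro j
      apply mul_ne_zero
      · rw [Ne, Polynomial.C_eq_zero]
        exact inv_ne_zero (by exact_mod_cast Nat.factorial_ne_zero _)
      · exact pow_ne_zero _ Polynomial.X_ne_zero)
    (fun j z => (j.1 : ℂ) * z) (fun j => (differentiable_id).const_mul _) (fun j => by simp)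
    (fun z => by rw [← hgJ]; exact hF z)
  rcases w.support.eq_empty_or_nonempty with hemp | ⟨lam, hlam⟩
  · refine ⟨0, fun z => ?_⟩
    have h1 : ∀ z, g z = 0 := by
      intro z
      rw [hgsum z, hemp, Finset.sum_empty]
    rw [h1 z, h1 0, smul_zero]
  · have huniq : ∀ lam' ∈ w.support, lam' = lam := by
      intro lam' hlam'
      have h1 := hlink ⟨⟨lam', hlam'⟩, ⟨0, hKpos lam' hlam'⟩⟩ ⟨⟨lam, hlam⟩, ⟨0, hKpos lam hlam⟩⟩
      have h2 := congrFun h1 1
      simpa using h2
    have hsupp : w.support = {lam} := by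
      ext lam'
      rw [Finset.mem_singleton]
      exact ⟨huniq lam', fun h => h ▸ hlam⟩
    have hg1 : ∀ z, g z = sol f lam (w lam) (K lam) z := by
      intro z
      rw [hgsum z, hsupp, Finset.sum_singleton]
    refine ⟨lam, fun z => ?_⟩
    have hw0 : w lam = g 0 := by rw [hg1 0, sol_zero f lam (w lam) (hKpos lam hlam)]
    rcases Nat.lt_or_ge (K lam) 2 with hK2 | hK2
    · have hK1 : K lam = 1 := by have := hKpos lam hlam; omega
      rw [hg1 z]
      unfold sol
      rw [hK1, Finset.sum_range_one, ← hw0]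
      simp
    · exfalso
      -- rational normal curve
      set n := f - lam • (1 : Module.End ℂ (Fin N → ℂ)) with hn
      apply h (K lam) (fun k => ((k : ℕ).factorial : ℂ)⁻¹ • (n ^ (k : ℕ)) (w lam)) (fun k => (k : ℕ)) hK2
      · rw [Fintype.linearIndependent_iff]
        intro x hx
        set X : ℕ → ℂ := fun k => if hk : k < K lam then x ⟨k, hk⟩ * ((k.factorial : ℂ)⁻¹) else 0
          with hX
        have hsum0 : ∑ k ∈ Finset.range (K lam), X k • (n ^ k) (w lam) = 0 := by
          rw [← Fin.sum_univ_eq_sum_range (fun k => X k • (n ^ k) (w lam)), ← hx]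
          apply Finset.sum_congr rfl
          intro k _
          simp only [hX]
          rw [dif_pos k.2, smul_smul]
        intro k
        have h1 := krylov n (w lam) (K lam) (hK lam) (hKmin lam) X hsum0 k k.2
        simp only [hX] at h1
        rw [dif_pos k.2] at h1
        rcases mul_eq_zero.mp h1 with h2 | h2
        · exact h2
        · exact absurd h2 (inv_ne_zero (by exact_mod_cast Nat.factorial_ne_zero _))
      · intro a b hab
        exact hab
      · intro t _
        have h1 := hF t
        have h2 : g t = Complex.exp (lam * t) • ∑ k : Fin (K lam),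
            t ^ (k : ℕ) • (((k : ℕ).factorial : ℂ)⁻¹ • (n ^ (k : ℕ)) (w lam)) := by
          rw [hg1 t]
          unfold sol
          rw [← Fin.sum_univ_eq_sum_range (fun k => ((t ^ k / (k.factorial : ℂ)) *
            Complex.exp (lam * t)) • (n ^ k) (w lam)), Finset.smul_sum]
          apply Finset.sum_congr rfl
          intro k _
          rw [smul_smul, smul_smul]
          congr 1
          ring
        rw [h2] at h1
        have h3 := eval_smul_homog hFd (Complex.exp (lam * t)) (∑ k : Fin (K lam),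
            t ^ (k : ℕ) • (((k : ℕ).factorial : ℂ)⁻¹ • (n ^ (k : ℕ)) (w lam)))
        rw [h3] at h1
        rcases mul_eq_zero.mp h1 with h4 | h4
        · exact absurd h4 (pow_ne_zero _ (Complex.exp_ne_zero _))
        · exact h4

end Pool.Agent.H13.Kob
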