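import Pool.Agent.H13.Borel.EntireLog
import Pool.Agent.H13.Kob.Ode

/-!
# Curves meeting `N` independent hyperplanes finitely often
-/

namespace Pool.Agent.H13.Kob

open MvPolynomial Pool.Agent.H13.Borel

theorem hyper {N d : ℕ} {F : MvPolynomial (Fin N) ℂ} (hFd : F.IsHomogeneous d) (h : NoTorus F)
    {g : ℂ → Fin N → ℂ} (hg : Differentiable ℂ g) (hg0 : ∀ z, g z ≠ 0)
    (hF : ∀ z, eval (g z) F = 0) (H : Fin N → Fin N → ℂ) (hH : LinearIndependent ℂ H)
    (hfin : ∀ j, {z | ∑ i, H j i * g z i = 0}.Finite ∨ ∀ z, ∑ i, H j i * g z i = 0) :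
    (∃ (φ : ℂ → ℂ) (q : Fin N → Polynomial ℂ), Differentiable ℂ φ ∧
      ∀ z i, g z i = Complex.exp (φ z) * (q i).eval z) ∧
    ((∀ j, (∀ z, ∑ i, H j i * g z i ≠ 0) ∨ ∀ z, ∑ i, H j i * g z i = 0) →
      ∀ z, ∃ c : ℂ, g z = c • g 0) := by
  classical
  set A : Matrix (Fin N) (Fin N) ℂ := Matrix.of H with hA
  have hAu : IsUnit A := Matrix.linearIndependent_rows_iff_isUnit.mp hH
  have hdet : IsUnit A.det := (Matrix.isUnit_iff_isUnit_det A).mp hAu
  set v : Fin N → Fin N → ℂ := fun j i => A⁻¹ i j with hv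
  have hvli : LinearIndependent ℂ v := by
    have h1 : IsUnit (A⁻¹).transpose := by
      rw [Matrix.isUnit_iff_isUnit_det, Matrix.det_transpose]
      exact (Matrix.isUnit_nonsing_inv_det A hdet)
    exact Matrix.linearIndependent_rows_iff_isUnit.mpr h1
  set f : Fin N → ℂ → ℂ := fun j z => ∑ i, H j i * g z i with hf
  have hfd : ∀ j, Differentiable ℂ (f j) := by
    intro j
    apply Differentiable.fun_sum
    intro i _
    exact ((differentiable_pi.mp hg) i).const_mul _
  have hgf : ∀ z, g z = ∑ j, f j z • v j := by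
    intro z
    have h1 : A⁻¹.mulVec (A.mulVec (g z)) = g z := by
      rw [Matrix.mulVec_mulVec, Matrix.nonsing_inv_mul A hdet, Matrix.one_mulVec]
    rw [← h1]
    funext i
    rw [Finset.sum_apply]
    simp only [Matrix.mulVec, dotProduct, Pi.smul_apply, smul_eq_mul, hf, hv, hA, Matrix.of_apply]
    apply Finset.sum_congr rfl
    intro j _
    rw [mul_comm]
  have hfj : ∀ j : {j : Fin N // ∃ z, f j z ≠ 0}, ∃ (p : Polynomial ℂ) (φ : ℂ → ℂ), p ≠ 0 ∧
      Differentiable ℂ φ ∧ ∀ z, f j z = p.eval z * Complex.exp (φ z) := by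
    rintro ⟨j, hj⟩
    apply exists_poly_mul_exp (hfd j) hj
    rcases hfin j with h1 | h1
    · exact h1
    · obtain ⟨z, hz⟩ := hj
      exact absurd (h1 z) hz
  choose p φ hp hφ hpφ using hfj
  -- normalise
  set φ' : {j : Fin N // ∃ z, f j z ≠ 0} → ℂ → ℂ := fun j z => φ j z - φ j 0 with hφ'
  set p' : {j : Fin N // ∃ z, f j z ≠ 0} → Polynomial ℂ := fun j =>
    Polynomial.C (Complex.exp (φ j 0)) * p j with hp'
  have hpφ' : ∀ (j : {j : Fin N // ∃ z, f j z ≠ 0}) (z : ℂ),
      f j z = (p' j).eval z * Complex.exp (φ' j z) := by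
    intro j z
    rw [hpφ j z]
    simp only [hp', hφ', Polynomial.eval_mul, Polynomial.eval_C]
    rw [mul_comm (Complex.exp (φ j 0)), mul_assoc, ← Complex.exp_add]
    congr 2
    ring
  have hgJ : ∀ z, g z = ∑ j : {j : Fin N // ∃ z, f j z ≠ 0},
      ((p' j).eval z * Complex.exp (φ' j z)) • v j := by
    intro z
    have h1 : ∑ j, f j z • v j = ∑ j ∈ Finset.univ.filter (fun j => ∃ z, f j z ≠ 0), f j z • v j := by
      symm
      apply Finset.sum_filter_of_ne
      intro j _ hj
      refine ⟨z, fun h0 => hj ?_⟩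
      rw [h0, zero_smul]
    rw [hgf z, h1, Finset.sum_subtype _ (p := fun j => ∃ z, f j z ≠ 0) (by simp)]
    apply Finset.sum_congr rfl
    intro j _
    rw [hpφ' j z]
  have hlink := link hFd h (fun j : {j : Fin N // ∃ z, f j z ≠ 0} => v j)
    (hvli.comp _ Subtype.val_injective) p'
    (fun j => mul_ne_zero (by rw [Ne, Polynomial.C_eq_zero]; exact Complex.exp_ne_zero _) (hp j))
    φ' (fun j => (hφ j).sub_const _) (fun j => by simp [hφ'])
    (fun z => by rw [← hgJ]; exact hF z)
  -- there is an index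
  have hne : Nonempty {j : Fin N // ∃ z, f j z ≠ 0} := by
    by_contra hcon
    rw [not_nonempty_iff] at hcon
    apply hg0 0
    rw [hgJ 0]
    simp
  obtain ⟨j₀⟩ := hne
  have hgJ' : ∀ z, g z = Complex.exp (φ' j₀ z) • ∑ j : {j : Fin N // ∃ z, f j z ≠ 0},
      (p' j).eval z • v j := by
    intro z
    rw [hgJ z, Finset.smul_sum]
    apply Finset.sum_congr rfl
    intro j _
    rw [hlink j j₀, smul_smul, mul_comm]
  constructor
  · refine ⟨φ' j₀, fun i => ∑ j : {j : Fin N // ∃ z, f j z ≠ 0}, Polynomial.C (v j i) * p' j,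
      (hφ j₀).sub_const _, fun z i => ?_⟩
    rw [hgJ' z]
    simp only [Pi.smul_apply, Finset.sum_apply, smul_eq_mul]
    rw [Polynomial.eval_finsetSum]
    congr 1
    apply Finset.sum_congr rfl
    intro j _
    rw [mul_comm, Polynomial.eval_mul (p := Polynomial.C (v j i)), Polynomial.eval_C]
  · intro hzf z
    -- each `p' j` is constant
    have hconst : ∀ j z, (p' j).eval z = (p' j).eval 0 := by
      intro j
      have hnr : ∀ z, (p' j).eval z ≠ 0 := by
        intro z hz
        rcases hzf j with h1 | h1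
        · apply h1 z
          have := hpφ' j z
          rw [hz, zero_mul] at this
          exact this
        · obtain ⟨z', hz'⟩ := j.2
          exact hz' (h1 z')
      have hdeg : (p' j).degree = 0 := by
        by_contra hd
        obtain ⟨z, hz⟩ := IsAlgClosed.exists_root (p' j) hd
        exact hnr z hz
      intro z
      rw [Polynomial.eq_C_of_degree_eq_zero hdeg]
      simp
    refine ⟨Complex.exp (φ' j₀ z - φ' j₀ 0), ?_⟩
    rw [hgJ' z, hgJ' 0, smul_smul, ← Complex.exp_add]
    congr 1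
    · congr 1; ring
    · apply Finset.sum_congr rfl
      intro j _
      rw [hconst j z]

end Pool.Agent.H13.Kob
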