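import Pool.Agent.H13.Borel.Borel
import Pool.Agent.H13.Kob.Chain

/-!
# From exponential curves to torus orbits
-/

namespace Pool.Agent.H13.Kob

open MvPolynomial Pool.Agent.H13.Borel

/-- `F` vanishes on no curve `t ↦ ∑ t^{a_j} v_j` with `v` independent and at least two different
exponents. -/
def NoTorus {N : ℕ} (F : MvPolynomial (Fin N) ℂ) : Prop :=
  ∀ (m : ℕ) (v : Fin m → (Fin N → ℂ)) (a : Fin m → ℕ), 2 ≤ m → LinearIndependent ℂ v →
    StrictMono a → ¬ ∀ t : ℂ, t ≠ 0 → eval (∑ j, t ^ a j • v j) F = 0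

/-- version with repeated exponents over an arbitrary index type -/
lemma NoTorus.general {N : ℕ} {F : MvPolynomial (Fin N) ℂ} (h : NoTorus F) {J : Type*} [Fintype J]
    (v : J → Fin N → ℂ) (hv : LinearIndependent ℂ v) (a : J → ℕ) (j₁ j₂ : J) (ha : a j₁ ≠ a j₂)
    (hF : ∀ t : ℂ, eval (∑ j, t ^ a j • v j) F = 0) : False := by
  classical
  set T : Finset ℕ := Finset.univ.image a with hT
  have hTmem : ∀ j, a j ∈ T := fun j => Finset.mem_image_of_mem a (Finset.mem_univ j)
  set m := T.card with hm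
  set e : Fin m ↪o ℕ := T.orderEmbOfFin rfl with he
  have hrange : ∀ j, ∃ i, e i = a j := by
    intro j
    have : a j ∈ Set.range e := by
      rw [he, Finset.range_orderEmbOfFin]
      exact hTmem j
    exact this
  choose idx hidx using hrange
  have hsurj : ∀ i, ∃ j, idx j = i := by
    intro i
    have h1 : e i ∈ T := by rw [he]; exact Finset.orderEmbOfFin_mem T rfl i
    obtain ⟨j, _, hj⟩ := Finset.mem_image.mp h1
    refine ⟨j, e.injective ?_⟩
    rw [hidx, hj]
  set u : Fin m → Fin N → ℂ := fun i => ∑ j with idx j = i, v j with hu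
  have hcomb : ∀ x : Fin m → ℂ, ∑ i, x i • u i = ∑ j, x (idx j) • v j := by
    intro x
    rw [← Finset.sum_fiberwise (s := Finset.univ) (g := idx) (f := fun j => x (idx j) • v j)]
    apply Finset.sum_congr rfl
    intro i _
    simp only [hu]
    rw [Finset.smul_sum]
    apply Finset.sum_congr rfl
    intro j hj
    rw [(Finset.mem_filter.mp hj).2]
  apply h m u e
  · by_contra hlt
    have hm1 : m ≤ 1 := by omega
    have : T.card ≤ 1 := hm1
    rw [Finset.card_le_one] at this
    exact ha (this _ (hTmem j₁) _ (hTmem j₂))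
  · rw [Fintype.linearIndependent_iff]
    intro x hx i
    rw [hcomb x] at hx
    obtain ⟨j, rfl⟩ := hsurj i
    exact Fintype.linearIndependent_iff.mp hv (fun j => x (idx j)) hx j
  · exact e.strictMono
  · intro t _
    have : ∑ i, t ^ e i • u i = ∑ j, t ^ a j • v j := by
      rw [hcomb (fun i => t ^ e i)]
      apply Finset.sum_congr rfl
      intro j _
      rw [hidx]
    rw [this]
    exact hF t

theorem link {N d : ℕ} {F : MvPolynomial (Fin N) ℂ} (hFd : F.IsHomogeneous d) (h : NoTorus F)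
    {J : Type*} [Fintype J] (v : J → Fin N → ℂ) (hv : LinearIndependent ℂ v)
    (p : J → Polynomial ℂ) (hp : ∀ j, p j ≠ 0) (φ : J → ℂ → ℂ) (hφ : ∀ j, Differentiable ℂ (φ j))
    (hφ0 : ∀ j, φ j 0 = 0)
    (hF : ∀ z, eval (∑ j, ((p j).eval z * Complex.exp (φ j z)) • v j) F = 0) (j₁ j₂ : J) :
    φ j₁ = φ j₂ := by
  classical
  by_contra hne
  -- a rational functional separating `φ j₁` and `φ j₂`
  obtain ⟨lam, hlam⟩ : ∃ lam : Module.Dual ℚ (ℂ → ℂ), lam (φ j₁ - φ j₂) ≠ 0 := by
    by_contra hcon
    push Not at hcon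
    exact hne (sub_eq_zero.mp ((Module.forall_dual_apply_eq_zero_iff ℚ _).mp hcon))
  -- integral weights
  obtain ⟨L, B, a, hL, ha⟩ : ∃ (L : ℚ) (B : ℚ) (a : J → ℕ), L ≠ 0 ∧
      ∀ j, (a j : ℚ) = L * lam (φ j) + B := by
    set Ld : ℕ := ∏ j, (lam (φ j)).den with hLd
    have hLd0 : Ld ≠ 0 := Finset.prod_ne_zero_iff.mpr fun j _ => (lam (φ j)).den_ne_zero
    have hint : ∀ j, ∃ b : ℤ, (b : ℚ) = Ld * lam (φ j) := by
      intro j
      obtain ⟨k, hk⟩ : (lam (φ j)).den ∣ Ld := Finset.dvd_prod_of_mem _ (Finset.mem_univ j)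
      refine ⟨k * (lam (φ j)).num, ?_⟩
      rw [hk]
      push_cast
      have : ((lam (φ j)).den : ℚ) * lam (φ j) = (lam (φ j)).num := Rat.den_mul_eq_num _
      linear_combination (-(k:ℚ)) * this
    choose b hb using hint
    obtain ⟨B, hB⟩ : ∃ B : ℤ, ∀ j, 0 ≤ b j + B := by
      refine ⟨∑ j, |b j|, fun j => ?_⟩
      have h1 : |b j| ≤ ∑ j, |b j| := Finset.single_le_sum (f := fun j => |b j|)
        (fun i _ => abs_nonneg _) (Finset.mem_univ j)
      have := neg_abs_le (b j)
      linarith
    refine ⟨Ld, B, fun j => (b j + B).toNat, by exact_mod_cast hLd0, fun j => ?_⟩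
    rw [← hb j]
    have : ((b j + B).toNat : ℤ) = b j + B := Int.toNat_of_nonneg (hB j)
    exact_mod_cast this
  have hane : a j₁ ≠ a j₂ := by
    intro heq
    have h1 := ha j₁
    have h2 := ha j₂
    rw [heq, h2] at h1
    apply hlam
    rw [map_sub]
    have : L * (lam (φ j₁) - lam (φ j₂)) = 0 := by linear_combination -h1
    rcases mul_eq_zero.mp this with h | h
    · exact absurd h hL
    · exact h
  -- expansion
  set G : MvPolynomial J ℂ := aeval (fun i => ∑ j, X j * C (v j i)) F with hG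
  have hGe : ∀ y : J → ℂ, eval y G = eval (∑ j, y j • v j) F := by
    intro y
    have h1 : eval y G = (aeval y : MvPolynomial J ℂ →ₐ[ℂ] ℂ)
        (aeval (fun i => ∑ j, X j * C (v j i)) F) := rfl
    rw [h1, ← AlgHom.comp_apply, MvPolynomial.comp_aeval, MvPolynomial.aeval_eq_eval]
    congr 2
    funext i
    simp [map_sum]
  have hGd : G.IsHomogeneous d := by
    have h1 : (fun i => ∑ j, X j * C (v j i) : Fin N → MvPolynomial J ℂ)
        = fun i => ∑ j, X j * C (v j i) := rfl
    have h2 := hFd.aeval (fun i => ∑ j, (X j : MvPolynomial J ℂ) * C (v j i)) (n := 1) (by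
      intro i
      apply IsHomogeneous.sum
      intro j _
      have := (isHomogeneous_X ℂ j).mul (isHomogeneous_C J (v j i))
      simpa using this)
    rw [one_mul] at h2
    exact h2
  set c : (J →₀ ℕ) → Polynomial ℂ := fun α => Polynomial.C (G.coeff α) * ∏ j, p j ^ α j with hc
  set φt : (J →₀ ℕ) → ℂ → ℂ := fun α => ∑ j, (α j) • φ j with hφt
  have hcls := fun ψ t => borel_classes G.support c φt
    (fun α _ => by
      apply Differentiable.sum
      intro j _
      exact (hφ j).const_smul (α j))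
    (fun α _ => by simp [hφt, hφ0])
    (fun z => by
      rw [← hF z, ← hGe, eval_eq']
      apply Finset.sum_congr rfl
      intro α _
      simp only [hc, hφt]
      rw [Polynomial.eval_mul, Polynomial.eval_C, Polynomial.eval_prod]
      simp only [Polynomial.eval_pow, Finset.sum_apply, Pi.smul_apply, mul_pow]
      rw [Finset.prod_mul_distrib, Complex.exp_sum]
      have : ∀ j, Complex.exp (α j • φ j z) = Complex.exp (φ j z) ^ α j := by
        intro j
        rw [nsmul_eq_mul, Complex.exp_nat_mul]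
      simp only [this]
      ring) ψ t
  -- a good point
  obtain ⟨z₀, hz₀⟩ : ∃ z₀ : ℂ, ∀ j, (p j).eval z₀ ≠ 0 := by
    have h1 : ∏ j, p j ≠ 0 := Finset.prod_ne_zero_iff.mpr fun j _ => hp j
    obtain ⟨z₀, hz⟩ : ∃ z₀ : ℂ, (∏ j, p j).eval z₀ ≠ 0 := by
      by_contra hcon
      push Not at hcon
      exact h1 (Polynomial.funext (by simpa using hcon))
    refine ⟨z₀, fun j => ?_⟩
    rw [Polynomial.eval_prod] at hz
    exact Finset.prod_ne_zero_iff.mp hz j (Finset.mem_univ j)
  set w : (J →₀ ℕ) → ℕ := fun α => ∑ j, α j * a j with hw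
  have hwq : ∀ α ∈ G.support, (w α : ℚ) = L * lam (φt α) + B * d := by
    intro α hα
    have hdeg : ∑ j, α j = d := by
      have h1 := hGd (mem_support_iff.mp hα)
      have h2 : Finsupp.degree α = d := by
        rw [← h1, Finsupp.degree_eq_weight_one]
        rfl
      rw [← h2, Finsupp.degree_eq_sum]
    simp only [hw, hφt]
    push_cast
    rw [map_sum]
    have : ∀ j, lam (α j • φ j) = α j * lam (φ j) := by
      intro j
      rw [map_nsmul, nsmul_eq_mul]
    simp only [this, ha]
    rw [Finset.mul_sum, ← hdeg]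
    push_cast
    rw [Finset.mul_sum, ← Finset.sum_add_distrib]
    apply Finset.sum_congr rfl
    intro j _
    ring
  have hzero : ∀ t : ℂ, ∑ α ∈ G.support, (c α).eval z₀ * t ^ w α = 0 := by
    intro t
    rw [← Finset.sum_fiberwise_of_maps_to (s := G.support) (t := G.support.image φt) (g := φt)
      (fun α hα => Finset.mem_image_of_mem φt hα)]
    apply Finset.sum_eq_zero
    intro ψ hψ
    obtain ⟨α₀, hα₀, hα₀ψ⟩ := Finset.mem_image.mp hψ
    have h1 : ∀ α ∈ G.support.filter (fun α => φt α = ψ), w α = w α₀ := by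
      intro α hα
      have hα' := Finset.mem_filter.mp hα
      have : (w α : ℚ) = w α₀ := by
        rw [hwq α hα'.1, hwq α₀ hα₀, hα'.2, hα₀ψ]
      exact_mod_cast this
    have h2 : ∑ α ∈ G.support with φt α = ψ, (c α).eval z₀ * t ^ w α
        = (∑ α ∈ G.support with φt α = ψ, c α).eval z₀ * t ^ w α₀ := by
      rw [Polynomial.eval_finsetSum, Finset.sum_mul]
      apply Finset.sum_congr rfl
      intro α hα
      rw [h1 α hα]
    rw [h2, hcls ψ _ (fun α => Finset.mem_filter)]
    simp
  refine h.general (fun j => (p j).eval z₀ • v j) ?_ a j₁ j₂ hane ?_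
  · exact hv.units_smul (fun j => Units.mk0 ((p j).eval z₀) (hz₀ j))
  · intro t
    have h1 : (∑ j, t ^ a j • (p j).eval z₀ • v j) = ∑ j, (t ^ a j * (p j).eval z₀) • v j := by
      apply Finset.sum_congr rfl
      intro j _
      rw [smul_smul]
    rw [h1, ← hGe, eval_eq', ← hzero t]
    apply Finset.sum_congr rfl
    intro α _
    simp only [hc, hw]
    rw [Polynomial.eval_mul, Polynomial.eval_C, Polynomial.eval_prod]
    simp only [Polynomial.eval_pow, mul_pow]
    rw [Finset.prod_mul_distrib, ← Finset.prod_pow_eq_pow_sum]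
    have : ∀ j, (t ^ a j) ^ α j = t ^ (α j * a j) := by
      intro j; rw [← pow_mul, mul_comm]
    simp only [this]
    ring

end Pool.Agent.H13.Kob
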