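import Pool.Agent.H13.Kob.Param

/-! Every bad form is in the image of one of the parametrisations. -/

namespace Pool.Agent.H13.Kob

open MvPolynomial

section LinearAlgebra

variable {N m : ℕ}

/-- Extend linearly independent vectors to a basis by standard basis vectors. -/
lemma exists_extension (v : Fin m → (Fin N → ℂ)) (hv : LinearIndependent ℂ v) :
    ∃ (e : Fin m ↪ Fin N) (g : Matrix (Fin N) (Fin N) ℂ), IsUnit g ∧
      (∀ i j, g i (e j) = v j i) ∧ (∀ i k, (∀ j, e j ≠ k) → g i k = if i = k then 1 else 0) := by
  classical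
  set M := Submodule.span ℂ (Set.range v) with hM
  let ε : Fin N → (Fin N → ℂ) := fun k => Pi.single k 1
  obtain ⟨κ, a, ha, hspan, hli⟩ := exists_linearIndependent' ℂ (fun k => (Submodule.Quotient.mk (p := M) (ε k)))
  have hfin : Finite κ := Finite.of_injective a ha
  have hft : Fintype κ := Fintype.ofFinite κ
  -- independence of the union
  have hli2 : LinearIndependent ℂ (Sum.elim v (ε ∘ a)) := by
    have h1 : LinearIndependent ℂ (fun j => (⟨v j, Submodule.subset_span ⟨j, rfl⟩⟩ : M)) := by
      apply LinearIndependent.of_comp M.subtype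
      exact hv
    exact LinearIndependent.sumElim_of_quotient h1 (ε ∘ a) hli
  -- cardinality
  have htop : Submodule.span ℂ (Set.range (fun k => (Submodule.Quotient.mk (p := M) (ε k)))) = ⊤ := by
    have h1 : Submodule.span ℂ (Set.range ε) = ⊤ := by
      have := (Pi.basisFun ℂ (Fin N)).span_eq
      convert this using 3
      funext k
      simp [ε]
    have h2 : Set.range (fun k => (Submodule.Quotient.mk (p := M) (ε k))) = M.mkQ '' Set.range ε := by
      ext x; simp [Submodule.mkQ_apply]
    rw [h2, Submodule.span_image, h1, Submodule.map_top, Submodule.range_mkQ]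
  have hcard : m + Fintype.card κ = N := by
    have h1 : Module.finrank ℂ ((Fin N → ℂ) ⧸ M) = Fintype.card κ := by
      rw [htop] at hspan
      exact Module.finrank_eq_card_basis (Module.Basis.mk hli hspan.ge)
    have h2 : Module.finrank ℂ M = m := by
      rw [hM, finrank_span_eq_card hv, Fintype.card_fin]
    have h3 := Submodule.finrank_quotient_add_finrank M
    rw [h1, h2, Module.finrank_fin_fun] at h3
    omega
  -- enumeration of the complement
  have hc : Fintype.card {k : Fin N // k ∉ Set.range a} = m := by
    have h1 : Fintype.card {k : Fin N // k ∈ Set.range a} = Fintype.card κ := by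
      have := Set.card_range_of_injective ha
      convert this
    have h2 := Fintype.card_subtype_compl (fun k : Fin N => k ∈ Set.range a)
    rw [h1, Fintype.card_fin] at h2
    rw [h2]
    omega
  let eq := (Fintype.equivFinOfCardEq hc).symm
  let e : Fin m ↪ Fin N := ⟨fun j => (eq j).1, fun i j hij => eq.injective (Subtype.ext hij)⟩
  have he : ∀ k, (∀ j, e j ≠ k) → k ∈ Set.range a := by
    intro k hk
    by_contra hcon
    apply hk (eq.symm ⟨k, hcon⟩)
    show (eq (eq.symm ⟨k, hcon⟩)).1 = k
    rw [Equiv.apply_symm_apply]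
  -- columns
  let c : Fin N → (Fin N → ℂ) := fun k => if h : ∃ j, e j = k then v h.choose else ε k
  have hce : ∀ j, c (e j) = v j := by
    intro j
    have h : ∃ j', e j' = e j := ⟨j, rfl⟩
    simp only [c]
    rw [dif_pos h]
    congr 1
    exact e.injective h.choose_spec
  have hcn : ∀ k, (∀ j, e j ≠ k) → c k = ε k := by
    intro k hk
    simp only [c]
    rw [dif_neg (by push Not; exact hk)]
  have hcli : LinearIndependent ℂ c := by
    let σ : Fin N → Fin m ⊕ κ := fun k => if h : ∃ j, e j = k then Sum.inl h.choose
      else Sum.inr (he k (by push Not at h; exact h)).choose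
    have hσ : c = Sum.elim v (ε ∘ a) ∘ σ := by
      funext k
      simp only [Function.comp_apply, σ, c]
      split_ifs with h
      · simp
      · simp only [Sum.elim_inr, Function.comp_apply]
        rw [(he k (by push Not at h; exact h)).choose_spec]
    rw [hσ]
    apply hli2.comp
    intro k l hkl
    simp only [σ] at hkl
    split_ifs at hkl with h1 h2 h2
    · have := Sum.inl.inj hkl
      rw [← h1.choose_spec, ← h2.choose_spec, this]
    · have := Sum.inr.inj hkl
      rw [← (he k (by push Not at h1; exact h1)).choose_spec, ← (he l (by push Not at h2; exact h2)).choose_spec, this]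
  refine ⟨e, Matrix.of fun i k => c k i, ?_, ?_, ?_⟩
  · rw [← Matrix.linearIndependent_cols_iff_isUnit]
    exact hcli
  · intro i j
    simp [hce]
  · intro i k hk
    simp only [Matrix.of_apply]
    rw [hcn k hk]
    simp only [ε, Pi.single_apply]

end LinearAlgebra

section Lin

variable {N : ℕ}

lemma bind_lin (g h : Matrix (Fin N) (Fin N) ℂ) (F : MvPolynomial (Fin N) ℂ) :
    bind₁ (lin h) (bind₁ (lin g) F) = bind₁ (lin (g * h)) F := by
  rw [bind₁_bind₁]
  congr 2
  funext i
  simp only [lin, map_sum, map_mul, bind₁_X_right, algHom_C, Matrix.mul_apply, Finset.mul_sum,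
    Finset.sum_mul, MvPolynomial.algebraMap_eq]
  rw [Finset.sum_comm]
  refine Finset.sum_congr rfl fun k _ => Finset.sum_congr rfl fun l _ => ?_
  ring

lemma bind_one (F : MvPolynomial (Fin N) ℂ) : bind₁ (lin (1 : Matrix (Fin N) (Fin N) ℂ)) F = F := by
  have : (lin (1 : Matrix (Fin N) (Fin N) ℂ)) = X := by
    funext i
    simp only [lin, Matrix.one_apply]
    rw [Finset.sum_eq_single i]
    · simp
    · intro k _ hk
      rw [if_neg (Ne.symm hk), C_0, zero_mul]
    · intro h; exact absurd (Finset.mem_univ i) h
  rw [this]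
  simp

lemma eval_lin (g : Matrix (Fin N) (Fin N) ℂ) (F : MvPolynomial (Fin N) ℂ) (y : Fin N → ℂ) :
    eval y (bind₁ (lin g) F) = eval (g.mulVec y) F := by
  have h1 : (fun i => eval y (lin g i)) = g.mulVec y := by
    funext i
    simp [lin, Matrix.mulVec, dotProduct]
  rw [← h1]
  exact eval₂Hom_bind₁ (RingHom.id ℂ) y (lin g) F

lemma lin_homogeneous (g : Matrix (Fin N) (Fin N) ℂ) {d : ℕ} {F : MvPolynomial (Fin N) ℂ}
    (hF : F.IsHomogeneous d) : (bind₁ (lin g) F).IsHomogeneous d := by
  have h1 : ∀ i, (lin g i).IsHomogeneous 1 := by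
    intro i
    refine IsHomogeneous.sum _ _ _ ?_
    intro k _
    have := (isHomogeneous_C (Fin N) (g i k)).mul (isHomogeneous_X ℂ k)
    simpa using this
  have := hF.aeval (lin g) h1
  simpa using this

end Lin

end Pool.Agent.H13.Kob
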