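import Pool.Agent.H13.Kob.Thin

/-! The polynomial parametrisation of the bad forms of one type. -/

namespace Pool.Agent.H13.Kob

open MvPolynomial

section

variable {N d μ : ℕ}

/-- the linear substitution with matrix `h` -/
noncomputable def lin {R : Type} [CommRing R] (h : Matrix (Fin N) (Fin N) R) (i : Fin N) :
    MvPolynomial (Fin N) R := ∑ k, C (h i k) * X k

/-- type data -/
abbrev Ty (N d μ : ℕ) : Type :=
  (Fin (μ + 2) ↪ Fin N) × (Fin (μ + 2) × Fin (μ + 2)) × (Fin ((μ + 1) * d + 1) ↪ mons N d) ×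
    (Fin ((μ + 1) * d + 1) → Finset (mons N d))

/-- parameters of a type -/
abbrev Par (τ : Ty N d μ) : Type :=
  {ij : Fin N × Fin (μ + 2) // ij ≠ (τ.1 0, τ.2.1.1) ∧ ij ≠ (τ.1 1, τ.2.1.2)} ⊕
    {β : mons N d // β ∉ Set.range τ.2.2.1}

lemma card_ne_ne {α : Type} [Fintype α] {a b : α} (hab : a ≠ b) :
    Nat.card {x : α // x ≠ a ∧ x ≠ b} + 2 = Nat.card α := by
  classical
  have h1 : Nat.card {x : α // x ≠ a ∧ x ≠ b} = ((Finset.univ.erase a).erase b).card := by
    rw [Nat.card_eq_fintype_card, Fintype.card_subtype]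
    congr 1
    ext x
    simp [and_comm]
  rw [h1, Nat.card_eq_fintype_card, Finset.card_erase_of_mem, Finset.card_erase_of_mem (Finset.mem_univ a),
    Finset.card_univ]
  · have : 1 < Fintype.card α := Fintype.one_lt_card_iff.mpr ⟨a, b, hab⟩
    omega
  · simp [hab.symm]

lemma card_Par (τ : Ty N d μ) (h : N * (μ + 2) < (μ + 1) * d + 1 + 2) :
    Nat.card (Par τ) < Nat.card (mons N d) := by
  classical
  have h01 : τ.1 0 ≠ τ.1 1 := by
    intro h
    have := τ.1.injective h
    simp at this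
  have h1 : (τ.1 0, τ.2.1.1) ≠ (τ.1 1, τ.2.1.2) := fun h => h01 (congrArg Prod.fst h)
  have h2 := card_ne_ne h1
  rw [Nat.card_prod, Nat.card_fin, Nat.card_fin] at h2
  have h3 : Nat.card {β : mons N d // β ∉ Set.range τ.2.2.1} + ((μ + 1) * d + 1) = Nat.card (mons N d) := by
    have h4 : Nat.card (Set.range τ.2.2.1) = (μ + 1) * d + 1 := by
      rw [Nat.card_range_of_injective τ.2.2.1.injective, Nat.card_fin]
    have h5 := Set.ncard_add_ncard_compl (Set.range τ.2.2.1)
    have h6 : Nat.card {β : mons N d // β ∉ Set.range τ.2.2.1} = (Set.range τ.2.2.1)ᶜ.ncard := by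
      rw [← Nat.card_coe_set_eq]; rfl
    have h7 : (Set.range τ.2.2.1).ncard = (μ + 1) * d + 1 := by rw [← Nat.card_coe_set_eq]; exact h4
    rw [h6, ← h5, h7, add_comm]
  rw [Nat.card_sum]
  omega

/-- generic matrix -/
noncomputable def genH (τ : Ty N d μ) : Matrix (Fin N) (Fin N) (MvPolynomial (Par τ) ℂ) :=
  open Classical in
  fun i k =>
    if hk : ∃ j, τ.1 j = k then
      (if h : (i, hk.choose) ≠ (τ.1 0, τ.2.1.1) ∧ (i, hk.choose) ≠ (τ.1 1, τ.2.1.2) then
        X (Sum.inl ⟨(i, hk.choose), h⟩) else 1)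
    else (if i = k then 1 else 0)

/-- generic coefficients -/
noncomputable def genC (τ : Ty N d μ) (β : mons N d) : MvPolynomial (Par τ) ℂ :=
  open Classical in
  if hβ : β ∈ Set.range τ.2.2.1 then
    - ∑ β' ∈ τ.2.2.2 hβ.choose, (if h : β' ∉ Set.range τ.2.2.1 then X (Sum.inr ⟨β', h⟩) else 0)
  else X (Sum.inr ⟨β, hβ⟩)

/-- generic form in the `y`-coordinates -/
noncomputable def genPhi (τ : Ty N d μ) : MvPolynomial (Fin N) (MvPolynomial (Par τ) ℂ) :=
  ∑ β : mons N d, monomial β.1 (genC τ β)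

/-- generic form in the `x`-coordinates -/
noncomputable def genF (τ : Ty N d μ) : MvPolynomial (Fin N) (MvPolynomial (Par τ) ℂ) :=
  bind₁ (lin (genH τ)) (genPhi τ)

lemma map_lin {R S : Type} [CommRing R] [CommRing S] (φ : R →+* S) (h : Matrix (Fin N) (Fin N) R) (i : Fin N) :
    map φ (lin h i) = lin (h.map φ) i := by
  simp [lin]

lemma sum_mons {F : MvPolynomial (Fin N) ℂ} (hF : F.IsHomogeneous d) :
    ∑ β : mons N d, monomial β.1 (F.coeff β.1) = F := by
  rw [Finset.sum_coe_sort (mons N d) (fun β => monomial β (F.coeff β))]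
  conv_rhs => rw [F.as_sum]
  symm
  apply Finset.sum_subset
  · intro β hβ
    by_contra h
    exact (mem_support_iff.mp hβ) (coeff_eq_zero hF h)
  · intro β _ hβ
    rw [notMem_support_iff.mp hβ, map_zero]

theorem realize (τ : Ty N d μ) (Φ : MvPolynomial (Fin N) ℂ) (hΦ : Φ.IsHomogeneous d)
    (h : Matrix (Fin N) (Fin N) ℂ)
    (hcol : ∀ i k, (∀ j, τ.1 j ≠ k) → h i k = if i = k then 1 else 0)
    (h0 : h (τ.1 0) (τ.1 τ.2.1.1) = 1) (h1 : h (τ.1 1) (τ.1 τ.2.1.2) = 1)
    (hS : ∀ i, ∑ β ∈ τ.2.2.2 i, Φ.coeff β.1 = 0)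
    (hSm : ∀ i, τ.2.2.1 i ∈ τ.2.2.2 i) (hSn : ∀ i j, i ≠ j → τ.2.2.1 j ∉ τ.2.2.2 i) :
    ∃ p : Par τ → ℂ, ∀ β : mons N d, (bind₁ (lin h) Φ).coeff β.1 = eval p ((genF τ).coeff β.1) := by
  classical
  let p : Par τ → ℂ := Sum.elim (fun ij => h ij.1.1 (τ.1 ij.1.2)) (fun β => Φ.coeff β.1.1)
  refine ⟨p, ?_⟩
  intro β
  have e1 : map (eval p) (genF τ) = bind₁ (lin h) Φ := by
    rw [genF, map_bind₁]
    have e2 : (fun i => map (eval p) (lin (genH τ) i)) = lin h := by
      funext i
      rw [map_lin]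
      congr 1
      ext i k
      rw [Matrix.map_apply, genH]
      split_ifs with hk hh hik
      · rw [eval_X]
        simp only [p, Sum.elim_inl]
        rw [hk.choose_spec]
      · rw [map_one]
        have hj := hk.choose_spec
        by_cases h2 : (i, hk.choose) = (τ.1 0, τ.2.1.1)
        · rw [← hj, (Prod.mk.inj h2).1, (Prod.mk.inj h2).2, h0]
        · have h3 : (i, hk.choose) = (τ.1 1, τ.2.1.2) := by
            by_contra h3
            exact hh ⟨h2, h3⟩
          rw [← hj, (Prod.mk.inj h3).1, (Prod.mk.inj h3).2, h1]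
      · rw [map_one, hcol i k (fun j hj => hk ⟨j, hj⟩), if_pos hik]
      · rw [map_zero, hcol i k (fun j hj => hk ⟨j, hj⟩), if_neg hik]
    have e3 : map (eval p) (genPhi τ) = Φ := by
      rw [genPhi, map_sum, ← sum_mons hΦ]
      refine Finset.sum_congr rfl ?_
      intro β _
      rw [map_monomial]
      congr 1
      rw [genC]
      split_ifs with hβ
      · have hi := hβ.choose_spec
        set i := hβ.choose
        rw [map_neg, map_sum]
        have h2 := hS i
        rw [← Finset.add_sum_erase _ _ (hSm i), hi] at h2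
        have h3 : ∑ x ∈ τ.2.2.2 i, eval p (if h : x ∉ Set.range τ.2.2.1 then X (Sum.inr ⟨x, h⟩) else 0)
            = ∑ x ∈ (τ.2.2.2 i).erase β, Φ.coeff x.1 := by
          have hβi : β ∈ τ.2.2.2 i := hi ▸ hSm i
          rw [← Finset.add_sum_erase _ _ hβi, dif_neg (by simpa using hβ), map_zero, zero_add]
          · refine Finset.sum_congr rfl ?_
            intro x hx
            rw [Finset.mem_erase] at hx
            have hxn : x ∉ Set.range τ.2.2.1 := by
              rintro ⟨j, hj⟩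
              by_cases hij : i = j
              · subst hij
                exact hx.1 (hj.symm.trans hi)
              · exact hSn i j hij (hj ▸ hx.2)
            rw [dif_pos hxn, eval_X]
            simp [p]
        rw [h3]
        linear_combination -h2
      · rw [eval_X]
        simp [p]
    rw [e2, e3]
  rw [← e1, coeff_map]

end

end Pool.Agent.H13.Kob
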