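import Pool.Agent.H13.Kob.FewFinal

/-!
# Entire curves whose coordinates are combinations of entire functions with few zeros
-/

namespace Pool.Agent.H13.Kob

open MvPolynomial Pool.Agent.H13.Borel Pool.Agent.H13.CEV

section

variable {N k d e : ℕ}

lemma prop_of_prim {ρ u w : Fin N → Polynomial ℂ} (hu : ∑ i, u i * ρ i = 1)
    (h : ∀ i i', w i * ρ i' = w i' * ρ i) (i : Fin N) : w i = (∑ l, u l * w l) * ρ i := by
  calc w i = w i * ∑ l, u l * ρ l := by rw [hu, mul_one]
    _ = ∑ l, u l * (w i * ρ l) := by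
        rw [Finset.mul_sum]
        apply Finset.sum_congr rfl
        intro l _
        ring
    _ = ∑ l, u l * (w l * ρ i) := by
        apply Finset.sum_congr rfl
        intro l _
        rw [h i l]
    _ = (∑ l, u l * w l) * ρ i := by
        rw [Finset.sum_mul]
        apply Finset.sum_congr rfl
        intro l _
        ring

/-- structure of exponential sums on good hypersurfaces -/
theorem expsum_struct {x : mons N d → ℂ} (hx : Good e x)
    (he : ∀ a : Fin k → ℕ, ∃ b : Fin k → ℕ, SameType d a b ∧ ∀ j, b j ≤ e)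
    (φ : Fin k → ℂ → ℂ) (hφ : ∀ j, Differentiable ℂ (φ j)) (hφ0 : ∀ j, φ j 0 = 0)
    (q : Fin k → Fin N → Polynomial ℂ)
    (hF : ∀ z, eval (fun i => ∑ j, Complex.exp (φ j z) * (q j i).eval z) (Fm x) = 0)
    (hne : ∃ z i, ∑ j, Complex.exp (φ j z) * (q j i).eval z ≠ 0) :
    ∃ (s : ℂ → ℂ) (ρ u : Fin N → Polynomial ℂ), Differentiable ℂ s ∧ ∑ i, u i * ρ i = 1 ∧
      (∀ z i, ∑ j, Complex.exp (φ j z) * (q j i).eval z = s z * (ρ i).eval z) ∧
      MvPolynomial.aeval ρ (Fm x) = 0 ∧
      ∃ (T : Finset (Fin k)) (σ : Polynomial ℂ), σ ≠ 0 ∧ ∀ i, ∑ j ∈ T, q j i = σ * ρ i := by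
  classical
  have hprop := grp_prop hx he φ hφ hφ0 q hF
  set T : Finset (ℂ → ℂ) := Finset.univ.image φ with hT
  set G : (ℂ → ℂ) → Fin N → Polynomial ℂ := fun ψ i => ∑ l with φ l = ψ, q l i with hG
  have hGgrp : ∀ j i, G (φ j) i = grp φ q j i := by
    intro j i
    simp only [hG, grp]
  have hsum : ∀ z i, ∑ j, Complex.exp (φ j z) * (q j i).eval z
      = ∑ ψ ∈ T, Complex.exp (ψ z) * (G ψ i).eval z := by
    intro z i
    rw [← Finset.sum_fiberwise_of_maps_to (s := Finset.univ) (t := T) (g := φ)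
      (fun j hj => Finset.mem_image_of_mem _ hj)]
    apply Finset.sum_congr rfl
    intro ψ _
    simp only [hG]
    rw [Polynomial.eval_finsetSum, Finset.mul_sum]
    apply Finset.sum_congr rfl
    intro j hj
    rw [(Finset.mem_filter.mp hj).2]
  have hψd : ∀ ψ ∈ T, Differentiable ℂ ψ := by
    intro ψ hψ
    obtain ⟨j, _, rfl⟩ := Finset.mem_image.mp hψ
    exact hφ j
  obtain ⟨ψ₀, hψ₀, hG0⟩ : ∃ ψ ∈ T, G ψ ≠ 0 := by
    by_contra hcon
    push Not at hcon
    obtain ⟨z, i, hzi⟩ := hne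
    apply hzi
    rw [hsum]
    apply Finset.sum_eq_zero
    intro ψ hψ
    rw [hcon ψ hψ]
    simp
  obtain ⟨j₀, _, rfl⟩ := Finset.mem_image.mp hψ₀
  obtain ⟨p, r, hp0, hpr, u, hu⟩ := exists_primitive (G (φ j₀)) hG0
  have hGs : ∀ ψ ∈ T, ∀ i, G ψ i = (∑ l, u l * G ψ l) * r i := by
    intro ψ hψ
    apply prop_of_prim hu
    intro i i'
    obtain ⟨l, _, rfl⟩ := Finset.mem_image.mp hψ
    apply mul_left_cancel₀ hp0
    have h1 : G (φ j₀) i * G (φ l) i' = G (φ j₀) i' * G (φ l) i := by
      rw [hGgrp, hGgrp, hGgrp, hGgrp]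
      exact hprop j₀ l i i'
    rw [hpr i, hpr i'] at h1
    linear_combination -h1
  set S : ℂ → ℂ := fun z => ∑ ψ ∈ T, Complex.exp (ψ z) * (∑ l, u l * G ψ l).eval z with hS
  have hSd : Differentiable ℂ S := by
    simp only [hS]
    apply Differentiable.fun_sum
    intro ψ hψ
    exact ((hψd ψ hψ).cexp).mul (Polynomial.differentiable _)
  have hgS : ∀ z i, ∑ j, Complex.exp (φ j z) * (q j i).eval z = S z * (r i).eval z := by
    intro z i
    rw [hsum]
    simp only [hS]
    rw [Finset.sum_mul]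
    apply Finset.sum_congr rfl
    intro ψ hψ
    conv_lhs => rw [hGs ψ hψ i, Polynomial.eval_mul]
    ring
  have hS0 : ∃ z, S z ≠ 0 := by
    obtain ⟨z, i, hzi⟩ := hne
    refine ⟨z, fun h0 => hzi ?_⟩
    rw [hgS, h0, zero_mul]
  refine ⟨S, r, u, hSd, hu, hgS, ?_, Finset.univ.filter (fun l => φ l = φ j₀), p, hp0, ?_⟩
  · apply dense_eval hSd hS0
    intro z hz
    have h1 : (MvPolynomial.aeval r (Fm x)).eval z
        = eval (fun i => (r i).eval z) (Fm x) := by
      rw [aeval_Fm, eval_Fm, Polynomial.eval_finsetSum]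
      apply Finset.sum_congr rfl
      intro α _
      rw [Polynomial.eval_mul, Polynomial.eval_C, Polynomial.eval_prod]
      simp only [Polynomial.eval_pow]
    have h2 := hF z
    simp only [hgS] at h2
    rw [eval_scale_Fm] at h2
    rw [h1]
    exact (mul_eq_zero.mp h2).resolve_left (pow_ne_zero _ hz)
  · intro i
    exact hpr i

lemma torus_prop {x : mons N d → ℂ} (hx : Good e x)
    (he : ∀ a : Fin k → ℕ, ∃ b : Fin k → ℕ, SameType d a b ∧ ∀ j, b j ≤ e)
    (v : Fin k → Fin N → ℂ) (y : Fin k → ℂ) (a : Fin k → ℕ)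
    (hF : ∀ t : ℂ, eval (fun i => ∑ j, t ^ a j * y j * v j i) (Fm x) = 0) (j l : Fin k)
    (i i' : Fin N) :
    (∑ m with a m = a j, y m * v m i) * (∑ m with a m = a l, y m * v m i')
      = (∑ m with a m = a j, y m * v m i') * (∑ m with a m = a l, y m * v m i) := by
  classical
  have hprop := grp_prop hx he (fun j z => (a j : ℂ) * z)
    (fun j => (differentiable_const _).mul differentiable_id) (fun j => by simp)
    (fun j i => Polynomial.C (y j * v j i)) (by
      intro z
      rw [← hF (Complex.exp z)]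
      congr 2
      funext i
      apply Finset.sum_congr rfl
      intro j _
      rw [Polynomial.eval_C, Complex.exp_nat_mul, mul_assoc])
  have hinj : ∀ j l : Fin k, (fun z : ℂ => (a j : ℂ) * z) = (fun z => (a l : ℂ) * z) ↔ a j = a l := by
    intro j l
    constructor
    · intro h
      have := congrFun h 1
      simp only [mul_one] at this
      exact_mod_cast this
    · intro h; rw [h]
  have hgrp : ∀ j i, grp (fun j z => (a j : ℂ) * z) (fun j i => Polynomial.C (y j * v j i)) j i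
      = Polynomial.C (∑ m with a m = a j, y m * v m i) := by
    intro j i
    simp only [grp]
    rw [map_sum]
    apply Finset.sum_congr _ (fun _ _ => rfl)
    ext k
    simp only [Finset.mem_filter]
    exact and_congr_right fun _ => hinj k j
  have := hprop j l i i'
  rw [hgrp, hgrp, hgrp, hgrp, ← map_mul, ← map_mul] at this
  exact Polynomial.C_injective this

/-- one reduction step -/
lemma span_step {x : mons N d → ℂ} (hx : Good e x)
    (he : ∀ a : Fin k → ℕ, ∃ b : Fin k → ℕ, SameType d a b ∧ ∀ j, b j ≤ e) (r c K : ℕ)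
    (hc : ∀ (S : Finset ℂ), S.card ≤ r → ∀ (I : Finset (Fin k →₀ ℕ)), I ⊆ mons k d →
      ∀ (A u : (Fin k →₀ ℕ) → Polynomial ℂ),
      (∀ i ∈ I, (A i).natDegree ≤ 0 ∧ u i ≠ 0 ∧ ∀ z, (u i).IsRoot z → z ∈ S) →
      ∑ i ∈ I, A i * u i = 0 → ∀ a : (Fin k →₀ ℕ) → ℕ,
      (∀ i ∈ I, ∀ j ∈ I, Near S c (u i) (u j) → a i = a j) →
      ∀ w : ℕ, ∑ i ∈ I with a i = w, A i * u i = 0)
    (hK : ∀ (J : Finset (Fin k)) (m : Fin k → ℕ),
      (∃ i ∈ J, ∃ j ∈ J, m j + K < m i) → ∃ a : Fin k → ℕ, (∃ i ∈ J, ∃ j ∈ J, a i ≠ a j) ∧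
        ∀ α ∈ mons k d, ∀ β ∈ mons k d, nw m α ≤ nw m β + c → nw m β ≤ nw m α + c →
          nw a α = nw a β)
    (ρ u₀ : Fin N → Polynomial ℂ) (hρ : MvPolynomial.aeval ρ (Fm x) = 0)
    (hu₀ : ∑ i, u₀ i * ρ i = 1) (v : Fin k → Fin N → ℂ)
    (P : Fin k → Polynomial ℂ) (S : Finset ℂ) (hS : S.card ≤ r)
    (hPS : ∀ j, P j ≠ 0 → ∀ z, (P j).IsRoot z → z ∈ S)
    (T : Finset (Fin k)) (hT : ∀ j ∈ T, P j ≠ 0) (σ : Polynomial ℂ) (hσ : σ ≠ 0)
    (hTσ : ∀ i, ∑ j ∈ T, Polynomial.C (v j i) * P j = σ * ρ i)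
    (hbig : ∃ s ∈ S, ∃ i ∈ T, ∃ j ∈ T,
      (P j).rootMultiplicity s + K < (P i).rootMultiplicity s) :
    ∃ T' ⊂ T, ∃ σ' : Polynomial ℂ, σ' ≠ 0 ∧
      ∀ i, ∑ j ∈ T', Polynomial.C (v j i) * P j = σ' * ρ i := by
  classical
  obtain ⟨s, hs, i₁, hi₁, j₁, hj₁, hbig⟩ := hbig
  set P' : Fin k → Polynomial ℂ := fun j => if j ∈ T then P j else 0 with hP'
  have hP'T : ∀ j ∈ T, P' j = P j := fun j hj => if_pos hj
  have hP'0 : ∀ j, P' j ≠ 0 → j ∈ T := by
    intro j hj
    by_contra h
    exact hj (if_neg h)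
  -- the form in the coordinates `v`
  set G : MvPolynomial (Fin k) ℂ := aeval (fun i => ∑ j, X j * C (v j i)) (Fm x) with hG
  have hGd : G.IsHomogeneous d := by
    have h2 := (Fm_homog x).aeval (fun i => ∑ j, (X j : MvPolynomial (Fin k) ℂ) * C (v j i))
      (n := 1) (by
      intro i
      apply IsHomogeneous.sum
      intro j _
      have := (isHomogeneous_X ℂ j).mul (isHomogeneous_C (Fin k) (v j i))
      simpa using this)
    rw [one_mul] at h2
    exact h2
  have hGsupp : ∀ α ∈ G.support, α ∈ mons k d := by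
    intro α hα
    have h1 := hGd (mem_support_iff.mp hα)
    rw [mem_mons, ← h1, Finsupp.weight_apply, Finsupp.sum_fintype]
    · simp
    · simp
  have hGe : ∀ y : Fin k → ℂ, eval y G = eval (fun i => ∑ j, y j * v j i) (Fm x) := by
    intro y
    have h1 : eval y G = (aeval y : MvPolynomial (Fin k) ℂ →ₐ[ℂ] ℂ)
        (aeval (fun i => ∑ j, X j * C (v j i)) (Fm x)) := rfl
    rw [h1, ← AlgHom.comp_apply, MvPolynomial.comp_aeval, MvPolynomial.aeval_eq_eval]
    congr 2
    funext i
    simp [map_sum]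
  have hGP : MvPolynomial.aeval P' G = 0 := by
    have h1 : MvPolynomial.aeval P' G = MvPolynomial.aeval (fun i => σ * ρ i) (Fm x) := by
      rw [hG, ← AlgHom.comp_apply, MvPolynomial.comp_aeval]
      congr 2
      funext i
      rw [← hTσ i]
      simp only [map_sum, map_mul, aeval_X, algHom_C]
      rw [← Finset.sum_subset (Finset.subset_univ T)]
      · apply Finset.sum_congr rfl
        intro j hj
        rw [hP'T j hj, mul_comm]
        rfl
      · intro j _ hj
        have : P' j = 0 := if_neg hj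
        rw [this, zero_mul]
    rw [h1, aeval_scale _ (Fm_homog x), hρ, mul_zero]
  set u : (Fin k →₀ ℕ) → Polynomial ℂ := fun α => ∏ j, P' j ^ α j with hu
  set I : Finset (Fin k →₀ ℕ) := G.support.filter fun α => ∀ j, α j ≠ 0 → P' j ≠ 0 with hI
  have hIsum : ∑ α ∈ I, Polynomial.C (G.coeff α) * u α = 0 := by
    rw [← hGP, MvPolynomial.aeval_def, MvPolynomial.eval₂_eq', hI, Finset.sum_filter_of_ne]
    · rfl
    · intro α _ hα j hj h0
      apply hα
      have : u α = 0 := by
        simp only [hu]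
        exact Finset.prod_eq_zero (Finset.mem_univ j) (by rw [h0, zero_pow hj])
      rw [this, mul_zero]
  have hI0 : ∀ α ∈ I, ∀ j, α j ≠ 0 → P' j ≠ 0 := fun α hα => (Finset.mem_filter.mp hα).2
  have hPS' : ∀ j, P' j ≠ 0 → ∀ z, (P' j).IsRoot z → z ∈ S := by
    intro j hj z hz
    have hjT := hP'0 j hj
    rw [hP'T j hjT] at hz
    exact hPS j (hT j hjT) z hz
  have hu0 : ∀ α ∈ I, u α ≠ 0 := by
    intro α hα
    simp only [hu]
    rw [Finset.prod_ne_zero_iff]
    intro j _
    by_cases hj : α j = 0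
    · rw [hj, pow_zero]; exact one_ne_zero
    · exact pow_ne_zero _ (hI0 α hα j hj)
  have huS : ∀ α ∈ I, ∀ z, (u α).IsRoot z → z ∈ S := by
    intro α hα z hz
    simp only [hu, Polynomial.IsRoot.def, Polynomial.eval_prod, Polynomial.eval_pow] at hz
    rw [Finset.prod_eq_zero_iff] at hz
    obtain ⟨j, _, hj⟩ := hz
    have hαj : α j ≠ 0 := by
      intro h0; rw [h0, pow_zero] at hj; exact one_ne_zero hj
    exact hPS' j (hI0 α hα j hαj) z (pow_eq_zero_iff hαj |>.mp hj)
  have hum : ∀ α ∈ I, ∀ s, (u α).rootMultiplicity s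
      = nw (fun j => (P' j).rootMultiplicity s) α := by
    intro α hα s
    have h1 : ∀ T : Finset (Fin k), (∏ j ∈ T, P' j ^ α j).rootMultiplicity s
        = ∑ j ∈ T, α j * (P' j).rootMultiplicity s := by
      intro T
      induction T using Finset.induction_on with
      | empty => simp
      | insert j T hj ih =>
        rw [Finset.prod_insert hj, Finset.sum_insert hj, ← ih]
        have h2 : P' j ^ α j ≠ 0 := by
          by_cases h0 : α j = 0
          · rw [h0, pow_zero]; exact one_ne_zero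
          · exact pow_ne_zero _ (hI0 α hα j h0)
        have h3 : (∏ j ∈ T, P' j ^ α j) ≠ 0 := by
          rw [Finset.prod_ne_zero_iff]
          intro j _
          by_cases h0 : α j = 0
          · rw [h0, pow_zero]; exact one_ne_zero
          · exact pow_ne_zero _ (hI0 α hα j h0)
        rw [Polynomial.rootMultiplicity_mul (mul_ne_zero h2 h3)]
        congr 1
        rw [← Polynomial.count_roots, Polynomial.roots_pow, Multiset.count_nsmul,
          Polynomial.count_roots]
    exact h1 Finset.univ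
  obtain ⟨a, ⟨i', hi', j', hj', haij⟩, ha⟩ := hK T (fun j => (P' j).rootMultiplicity s)
    ⟨i₁, hi₁, j₁, hj₁, by
      show (P' j₁).rootMultiplicity s + K < (P' i₁).rootMultiplicity s
      rw [hP'T i₁ hi₁, hP'T j₁ hj₁]
      exact hbig⟩
  have hcl := hc S hS I (fun α hα => hGsupp α (Finset.mem_filter.mp hα).1)
    (fun α => Polynomial.C (G.coeff α)) u
    (fun α hα => ⟨by simp, hu0 α hα, huS α hα⟩) hIsum (nw a) (by
      intro α hα β hβ hnear
      have h1 := hnear s hs
      rw [hum α hα, hum β hβ] at h1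
      exact ha α (hGsupp α (Finset.mem_filter.mp hα).1) β (hGsupp β (Finset.mem_filter.mp hβ).1)
        h1.1 h1.2)
  have htor : ∀ z t : ℂ, eval (fun i => ∑ j, t ^ a j * (P' j).eval z * v j i) (Fm x) = 0 := by
    intro z t
    have h0 := hGe (fun j => t ^ a j * (P' j).eval z)
    rw [← h0, eval_eq']
    have h1 : ∑ α ∈ G.support, coeff α G * ∏ i, (t ^ a i * (P' i).eval z) ^ α i
        = ∑ α ∈ I, (Polynomial.C (G.coeff α) * u α).eval z * t ^ nw a α := by
      rw [hI, Finset.sum_filter_of_ne]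
      · apply Finset.sum_congr rfl
        intro α _
        simp only [hu, nw]
        rw [Polynomial.eval_mul, Polynomial.eval_C, Polynomial.eval_prod]
        simp only [Polynomial.eval_pow, mul_pow, Finset.prod_mul_distrib]
        rw [← Finset.prod_pow_eq_pow_sum]
        have : ∀ j, (t ^ a j) ^ α j = t ^ (α j * a j) := by
          intro j; rw [← pow_mul, mul_comm]
        simp only [this]
        ring
      · intro α _ hα j hj h0
        apply hα
        have : u α = 0 := by
          simp only [hu]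
          exact Finset.prod_eq_zero (Finset.mem_univ j) (by rw [h0, zero_pow hj])
        rw [this]; simp
    rw [h1, ← Finset.sum_fiberwise_of_maps_to (s := I) (t := I.image (nw a))
        (g := nw a) (fun α hα => Finset.mem_image_of_mem _ hα)]
    apply Finset.sum_eq_zero
    intro n _
    have h3 : ∑ α ∈ I with nw a α = n, (Polynomial.C (G.coeff α) * u α).eval z * t ^ nw a α
        = (∑ α ∈ I with nw a α = n, Polynomial.C (G.coeff α) * u α).eval z * t ^ n := by
      rw [Polynomial.eval_finsetSum, Finset.sum_mul]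
      apply Finset.sum_congr rfl
      intro α hα
      rw [(Finset.mem_filter.mp hα).2]
    rw [h3, hcl n]
    simp
  -- grouped vectors
  set W : ℕ → Fin N → Polynomial ℂ := fun b i => ∑ m ∈ T with a m = b, Polynomial.C (v m i) * P m
    with hW
  have hWev : ∀ j z i, (W (a j) i).eval z = ∑ m with a m = a j, (P' m).eval z * v m i := by
    intro j z i
    simp only [hW]
    rw [Polynomial.eval_finsetSum]
    apply Finset.sum_subset_zero_on_sdiff
    · intro m hm
      rw [Finset.mem_filter] at hm ⊢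
      exact ⟨Finset.mem_univ _, hm.2⟩
    · intro m hm
      rw [Finset.mem_sdiff, Finset.mem_filter, Finset.mem_filter] at hm
      have : m ∉ T := fun h => hm.2 ⟨h, hm.1.2⟩
      have h0 : P' m = 0 := if_neg this
      rw [h0]; simp
    · intro m hm
      rw [Finset.mem_filter] at hm
      rw [hP'T m hm.1, Polynomial.eval_mul, Polynomial.eval_C, mul_comm]
  have hWprop : ∀ j l i i', W (a j) i * W (a l) i' = W (a j) i' * W (a l) i := by
    intro j l i i'
    apply Polynomial.funext
    intro z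
    rw [Polynomial.eval_mul, Polynomial.eval_mul, hWev, hWev, hWev, hWev]
    exact torus_prop hx he v (fun j => (P' j).eval z) a (htor z) j l i i'
  have hWsum : ∀ i, ∑ b ∈ T.image a, W b i = σ * ρ i := by
    intro i
    rw [← hTσ i]
    simp only [hW]
    exact Finset.sum_fiberwise_of_maps_to (fun j hj => Finset.mem_image_of_mem a hj) _
  have hWρ : ∀ b ∈ T.image a, ∀ i i', W b i * ρ i' = W b i' * ρ i := by
    intro b hb i i'
    obtain ⟨j, hj, rfl⟩ := Finset.mem_image.mp hb
    apply mul_left_cancel₀ hσ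
    calc σ * (W (a j) i * ρ i') = W (a j) i * (σ * ρ i') := by ring
      _ = ∑ b ∈ T.image a, W (a j) i * W b i' := by rw [← hWsum i', Finset.mul_sum]
      _ = ∑ b ∈ T.image a, W (a j) i' * W b i := by
          apply Finset.sum_congr rfl
          intro b hb
          obtain ⟨l, hl, rfl⟩ := Finset.mem_image.mp hb
          exact hWprop j l i i'
      _ = W (a j) i' * (σ * ρ i) := by rw [← Finset.mul_sum, hWsum i]
      _ = σ * (W (a j) i' * ρ i) := by ring
  obtain ⟨b, hb, hb0⟩ : ∃ b ∈ T.image a, (∑ l, u₀ l * W b l) ≠ 0 := by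
    by_contra hcon
    push Not at hcon
    apply hσ
    have h1 : ∑ l, u₀ l * (σ * ρ l) = 0 := by
      have h2 : ∀ l, u₀ l * (σ * ρ l) = ∑ b ∈ T.image a, u₀ l * W b l := by
        intro l
        rw [← hWsum l, Finset.mul_sum]
      simp only [h2]
      rw [Finset.sum_comm]
      exact Finset.sum_eq_zero hcon
    have h2 : ∑ l, u₀ l * (σ * ρ l) = σ * ∑ l, u₀ l * ρ l := by
      rw [Finset.mul_sum]
      apply Finset.sum_congr rfl
      intro l _
      ring
    rw [h2, hu₀, mul_one] at h1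
    exact h1
  refine ⟨T.filter (fun m => a m = b), ?_, ∑ l, u₀ l * W b l, hb0, ?_⟩
  · rw [Finset.ssubset_iff_subset_ne]
    refine ⟨Finset.filter_subset _ _, fun heq => haij ?_⟩
    have h1 : ∀ m ∈ T, a m = b := fun m hm => by
      rw [← heq] at hm
      exact (Finset.mem_filter.mp hm).2
    rw [h1 i' hi', h1 j' hj']
  · intro i
    exact prop_of_prim hu₀ (hWρ b hb) i

/-- reduction to bounded multiplicities -/
lemma span_reduce {x : mons N d → ℂ} (hx : Good e x)
    (he : ∀ a : Fin k → ℕ, ∃ b : Fin k → ℕ, SameType d a b ∧ ∀ j, b j ≤ e) (r c K : ℕ)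
    (hc : ∀ (S : Finset ℂ), S.card ≤ r → ∀ (I : Finset (Fin k →₀ ℕ)), I ⊆ mons k d →
      ∀ (A u : (Fin k →₀ ℕ) → Polynomial ℂ),
      (∀ i ∈ I, (A i).natDegree ≤ 0 ∧ u i ≠ 0 ∧ ∀ z, (u i).IsRoot z → z ∈ S) →
      ∑ i ∈ I, A i * u i = 0 → ∀ a : (Fin k →₀ ℕ) → ℕ,
      (∀ i ∈ I, ∀ j ∈ I, Near S c (u i) (u j) → a i = a j) →
      ∀ w : ℕ, ∑ i ∈ I with a i = w, A i * u i = 0)
    (hK : ∀ (J : Finset (Fin k)) (m : Fin k → ℕ),
      (∃ i ∈ J, ∃ j ∈ J, m j + K < m i) → ∃ a : Fin k → ℕ, (∃ i ∈ J, ∃ j ∈ J, a i ≠ a j) ∧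
        ∀ α ∈ mons k d, ∀ β ∈ mons k d, nw m α ≤ nw m β + c → nw m β ≤ nw m α + c →
          nw a α = nw a β)
    (ρ u₀ : Fin N → Polynomial ℂ) (hρ : MvPolynomial.aeval ρ (Fm x) = 0)
    (hu₀ : ∑ i, u₀ i * ρ i = 1) (v : Fin k → Fin N → ℂ)
    (P : Fin k → Polynomial ℂ) (S : Finset ℂ) (hS : S.card ≤ r)
    (hPS : ∀ j, P j ≠ 0 → ∀ z, (P j).IsRoot z → z ∈ S) :
    ∀ (m : ℕ) (T : Finset (Fin k)), T.card = m → (∀ j ∈ T, P j ≠ 0) → ∀ (σ : Polynomial ℂ),
      σ ≠ 0 → (∀ i, ∑ j ∈ T, Polynomial.C (v j i) * P j = σ * ρ i) →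
      ∀ i, (ρ i).natDegree ≤ r * K := by
  classical
  intro m
  induction m using Nat.strong_induction_on with
  | _ m ih =>
  intro T hTm hT σ hσ hTσ
  by_cases hbig : ∃ s ∈ S, ∃ i ∈ T, ∃ j ∈ T,
      (P j).rootMultiplicity s + K < (P i).rootMultiplicity s
  · obtain ⟨T', hT', σ', hσ', hTσ'⟩ := span_step hx he r c K hc hK ρ u₀ hρ hu₀ v P S hS hPS T hT σ
      hσ hTσ hbig
    exact ih T'.card (by rw [← hTm]; exact Finset.card_lt_card hT') T' rfl
      (fun j hj => hT j (hT'.1 hj)) σ' hσ' hTσ'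
  · push Not at hbig
    -- common factor
    have hne : T.Nonempty := by
      rw [Finset.nonempty_iff_ne_empty]
      rintro rfl
      have h1 : ∀ i, ρ i = 0 := by
        intro i
        have := hTσ i
        rw [Finset.sum_empty] at this
        exact (mul_eq_zero.mp this.symm).resolve_left hσ
      simp [h1] at hu₀
    set μ : ℂ → ℕ := fun s => T.inf' hne (fun j => (P j).rootMultiplicity s) with hμ
    set w : Polynomial ℂ := ∏ s ∈ S, (Polynomial.X - Polynomial.C s) ^ μ s with hw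
    have hw0 : w ≠ 0 := Finset.prod_ne_zero_iff.mpr fun s _ =>
      pow_ne_zero _ (Polynomial.X_sub_C_ne_zero s)
    have hdvd : ∀ j ∈ T, w ∣ P j := by
      intro j hj
      apply Finset.prod_dvd_of_coprime
      · intro s _ s' _ hss
        exact (Polynomial.isCoprime_X_sub_C_of_isUnit_sub
          (sub_ne_zero.mpr hss).isUnit).pow
      · intro s _
        have h1 : μ s ≤ (P j).rootMultiplicity s := Finset.inf'_le _ hj
        exact (pow_dvd_pow _ h1).trans (Polynomial.pow_rootMultiplicity_dvd _ _)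
    have hQ : ∀ j, ∃ Q : Polynomial ℂ, j ∈ T → P j = w * Q := by
      intro j
      by_cases hj : j ∈ T
      · obtain ⟨Q, hQ⟩ := hdvd j hj
        exact ⟨Q, fun _ => hQ⟩
      · exact ⟨0, fun h => absurd h hj⟩
    choose Q hQ using hQ
    have hQdeg : ∀ j ∈ T, (Q j).natDegree ≤ r * K := by
      intro j hj
      have hQ0 : Q j ≠ 0 := by
        intro h0
        apply hT j hj
        rw [hQ j hj, h0, mul_zero]
      rw [← IsAlgClosed.card_roots_eq_natDegree]
      have h1 : (Q j).roots.card ≤ S.card * K := by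
        apply card_le_of_count
        · intro z hz
          apply hPS j (hT j hj) z
          rw [hQ j hj]
          exact Polynomial.root_mul_left_of_isRoot _ (Polynomial.isRoot_of_mem_roots hz)
        · intro s hs
          rw [Polynomial.count_roots]
          obtain ⟨l, hl, hlμ⟩ := Finset.exists_mem_eq_inf' hne (fun j => (P j).rootMultiplicity s)
          have h2 := hbig s hs j hj l hl
          have h3 : (P j).rootMultiplicity s
              = w.rootMultiplicity s + (Q j).rootMultiplicity s := by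
            conv_lhs => rw [hQ j hj]
            exact Polynomial.rootMultiplicity_mul (mul_ne_zero hw0 hQ0)
          have h4 : μ s ≤ w.rootMultiplicity s := by
            rw [Polynomial.le_rootMultiplicity_iff hw0]
            exact Finset.dvd_prod_of_mem _ hs
          have h5 : μ s = (P l).rootMultiplicity s := hlμ
          omega
      have h2 : S.card * K ≤ r * K := Nat.mul_le_mul_right _ hS
      omega
    set τ : Fin N → Polynomial ℂ := fun i => ∑ j ∈ T, Polynomial.C (v j i) * Q j with hτ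
    have hτw : ∀ i, w * τ i = σ * ρ i := by
      intro i
      rw [← hTσ i]
      simp only [hτ]
      rw [Finset.mul_sum]
      apply Finset.sum_congr rfl
      intro j hj
      rw [hQ j hj]; ring
    have hτρ : ∀ i i', τ i * ρ i' = τ i' * ρ i := by
      intro i i'
      apply mul_left_cancel₀ hw0
      have h1 := hτw i
      have h2 := hτw i'
      linear_combination ρ i' * h1 - ρ i * h2
    have hθ := prop_of_prim hu₀ hτρ
    intro i
    by_cases hρi : ρ i = 0
    · rw [hρi]; simp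
    · have hθ0 : (∑ l, u₀ l * τ l) ≠ 0 := by
        intro h0
        have h1 := hθ i
        rw [h0, zero_mul] at h1
        have h2 := hτw i
        rw [h1, mul_zero] at h2
        exact (mul_ne_zero hσ hρi) h2.symm
      have h1 := congrArg Polynomial.natDegree (hθ i)
      rw [Polynomial.natDegree_mul hθ0 hρi] at h1
      have h2 : (τ i).natDegree ≤ r * K := by
        simp only [hτ]
        apply Polynomial.natDegree_sum_le_of_forall_le
        intro j hj
        exact (Polynomial.natDegree_C_mul_le _ _).trans (hQdeg j hj)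
      omega

/-- Curves with coordinates in the span of `k` entire functions with at most `r` zeros. -/
theorem span_few {x : mons N d → ℂ} (hx : Good e x)
    (he : ∀ a : Fin k → ℕ, ∃ b : Fin k → ℕ, SameType d a b ∧ ∀ j, b j ≤ e) (r c K : ℕ)
    (hc : ∀ (S : Finset ℂ), S.card ≤ r → ∀ (I : Finset (Fin k →₀ ℕ)), I ⊆ mons k d →
      ∀ (A u : (Fin k →₀ ℕ) → Polynomial ℂ),
      (∀ i ∈ I, (A i).natDegree ≤ 0 ∧ u i ≠ 0 ∧ ∀ z, (u i).IsRoot z → z ∈ S) →
      ∑ i ∈ I, A i * u i = 0 → ∀ a : (Fin k →₀ ℕ) → ℕ,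
      (∀ i ∈ I, ∀ j ∈ I, Near S c (u i) (u j) → a i = a j) →
      ∀ w : ℕ, ∑ i ∈ I with a i = w, A i * u i = 0)
    (hK : ∀ (J : Finset (Fin k)) (m : Fin k → ℕ),
      (∃ i ∈ J, ∃ j ∈ J, m j + K < m i) → ∃ a : Fin k → ℕ, (∃ i ∈ J, ∃ j ∈ J, a i ≠ a j) ∧
        ∀ α ∈ mons k d, ∀ β ∈ mons k d, nw m α ≤ nw m β + c → nw m β ≤ nw m α + c →
          nw a α = nw a β) (hKe : r * K ≤ e)
    (f : Fin k → ℂ → ℂ) (hf : ∀ j, Differentiable ℂ (f j)) (v : Fin k → Fin N → ℂ)
    (hF : ∀ z, eval (fun i => ∑ j, f j z * v j i) (Fm x) = 0)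
    (hr : {z | ∃ j, f j z = 0 ∧ ∃ w, f j w ≠ 0}.encard ≤ r) :
    ∃ (s : ℂ → ℂ) (c : Fin N → ℂ), Differentiable ℂ s ∧
      ∀ z i, ∑ j, f j z * v j i = s z * c i := by
  classical
  by_cases hne : ∃ z i, ∑ j, f j z * v j i ≠ 0
  swap
  · push Not at hne
    exact ⟨fun _ => 0, fun _ => 0, differentiable_const _, fun z i => by rw [hne z i]; simp⟩
  set Z : Set ℂ := {z | ∃ j, f j z = 0 ∧ ∃ w, f j w ≠ 0} with hZ
  have hZfin : Z.Finite := by
    rw [← Set.encard_lt_top_iff]
    exact lt_of_le_of_lt hr (ENat.natCast_lt_top r)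
  set S : Finset ℂ := hZfin.toFinset with hS
  have hScard : S.card ≤ r := by
    have h1 : Z.encard = S.card := hZfin.encard_eq_coe_toFinset_card
    rw [h1] at hr
    exact_mod_cast hr
  have hSmem : ∀ z, z ∈ S ↔ z ∈ Z := fun z => hZfin.mem_toFinset
  have hfj : ∀ j, ∃ (p : Polynomial ℂ) (φ : ℂ → ℂ), Differentiable ℂ φ ∧ φ 0 = 0 ∧
      ∀ z, f j z = Complex.exp (φ z) * p.eval z := by
    intro j
    by_cases hj : ∃ w, f j w ≠ 0
    · obtain ⟨p, φ, _, hφ, hpφ⟩ := exists_poly_mul_exp (hf j) hj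
        (hZfin.subset fun z hz => ⟨j, hz, hj⟩)
      refine ⟨Polynomial.C (Complex.exp (φ 0)) * p, fun z => φ z - φ 0, hφ.sub_const _, by simp,
        fun z => ?_⟩
      rw [hpφ z, Polynomial.eval_mul, Polynomial.eval_C, ← mul_assoc, ← Complex.exp_add,
        sub_add_cancel, mul_comm]
    · push Not at hj
      exact ⟨0, fun _ => 0, differentiable_const _, rfl, fun z => by rw [hj z]; simp⟩
  choose P φ hφ hφ0 hPφ using hfj
  have hsum : ∀ z i, ∑ j, Complex.exp (φ j z) * (Polynomial.C (v j i) * P j).eval z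
      = ∑ j, f j z * v j i := by
    intro z i
    apply Finset.sum_congr rfl
    intro j _
    rw [hPφ j z, Polynomial.eval_mul, Polynomial.eval_C]
    ring
  obtain ⟨s, ρ, u₀, hs, hu₀, hsρ, hρF, T, σ, hσ, hTσ⟩ := expsum_struct hx he φ hφ hφ0
    (fun j i => Polynomial.C (v j i) * P j) (by
      intro z
      simp only [hsum]
      exact hF z) (by
      obtain ⟨z, i, hzi⟩ := hne
      exact ⟨z, i, by rw [hsum]; exact hzi⟩)
  have hPS : ∀ j, P j ≠ 0 → ∀ z, (P j).IsRoot z → z ∈ S := by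
    intro j hj z hz
    rw [hSmem]
    refine ⟨j, ?_, ?_⟩
    · rw [hPφ, hz.eq_zero, mul_zero]
    · by_contra hcon
      push Not at hcon
      apply hj
      apply Polynomial.funext
      intro w
      have h1 := hcon w
      rw [hPφ] at h1
      rw [Polynomial.eval_zero]
      exact (mul_eq_zero.mp h1).resolve_left (Complex.exp_ne_zero _)
  have hdeg := span_reduce hx he r c K hc hK ρ u₀ hρF hu₀ v P S hScard hPS _
    (T.filter fun j => P j ≠ 0) rfl (fun j hj => (Finset.mem_filter.mp hj).2) σ hσ (by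
      intro i
      rw [← hTσ i]
      apply Finset.sum_filter_of_ne
      intro j _ hj h0
      apply hj
      rw [h0, mul_zero])
  have hconst := good_const hx ρ (fun i => (hdeg i).trans hKe) hρF
  obtain ⟨i₀, hi₀⟩ : ∃ i₀, (ρ i₀).eval 0 ≠ 0 := by
    by_contra hcon
    push Not at hcon
    have h1 := congrArg (Polynomial.eval 0) hu₀
    rw [Polynomial.eval_finsetSum, Polynomial.eval_one] at h1
    simp [hcon] at h1
  refine ⟨fun z => s z * ((ρ i₀).eval z / (ρ i₀).eval 0), fun i => (ρ i).eval 0,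
    hs.mul ((ρ i₀).differentiable.div_const _), fun z i => ?_⟩
  rw [← hsum, hsρ, mul_assoc]
  congr 1
  have h1 := hconst i i₀ z 0
  field_simp
  linear_combination h1

end

end Pool.Agent.H13.Kob
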