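import Pool.Agent.H13.CEV.Bounded

/-!
# Types of weight vectors
-/

namespace Pool.Agent.H13.Kob

open MvPolynomial

section

variable {k d : ℕ}

/-- the weight of an exponent vector -/
noncomputable def wt {W : Type*} [AddCommMonoid W] (a : Fin k → W) (α : Fin k →₀ ℕ) : W :=
  ∑ j, α j • a j

/-- same type: the same coincidences among the `a j` and among the weights of the exponent
vectors of degree `d` -/
def SameType {W W' : Type*} [AddCommMonoid W] [AddCommMonoid W'] (d : ℕ)
    (a : Fin k → W) (b : Fin k → W') : Prop :=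
  (∀ j l, a j = a l ↔ b j = b l) ∧
    ∀ α ∈ mons k d, ∀ β ∈ mons k d, wt a α = wt a β ↔ wt b α = wt b β

lemma SameType.trans {W W' W'' : Type*} [AddCommMonoid W] [AddCommMonoid W'] [AddCommMonoid W'']
    {a : Fin k → W} {b : Fin k → W'} {c : Fin k → W''} (h : SameType d a b)
    (h' : SameType d b c) : SameType d a c :=
  ⟨fun j l => (h.1 j l).trans (h'.1 j l),
    fun α hα β hβ => (h.2 α hα β hβ).trans (h'.2 α hα β hβ)⟩

/-- every weight vector of functions has the type of a vector of natural numbers -/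
lemma exists_nat_type (d : ℕ) (φ : Fin k → (ℂ → ℂ)) : ∃ a : Fin k → ℕ, SameType d φ a := by
  classical
  -- finitely many vectors to be separated from zero
  set ι : Type := (Fin k × Fin k) ⊕ ((mons k d) × (mons k d)) with hι
  set f : ι → (ℂ → ℂ) := fun x => match x with
    | Sum.inl p => φ p.1 - φ p.2
    | Sum.inr p => wt φ p.1.1 - wt φ p.2.1 with hf
  obtain ⟨lam, hlam⟩ : ∃ lam : Module.Dual ℚ (ℂ → ℂ), ∀ x : {x : ι // f x ≠ 0}, lam (f x) ≠ 0 := by
    exact Module.exists_dual_forall_apply_ne_zero (K := ℚ) (fun x : {x : ι // f x ≠ 0} => f x)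
      (fun x => x.2)
  obtain ⟨L, B, a, hL, ha⟩ : ∃ (L : ℚ) (B : ℚ) (a : Fin k → ℕ), L ≠ 0 ∧
      ∀ j, (a j : ℚ) = L * lam (φ j) + B := by
    set Ld : ℕ := ∏ j, (lam (φ j)).den with hLd
    have hLd0 : Ld ≠ 0 := Finset.prod_ne_zero_iff.mpr fun j _ => (lam (φ j)).den_ne_zero
    have hint : ∀ j, ∃ b : ℤ, (b : ℚ) = Ld * lam (φ j) := by
      intro j
      obtain ⟨k, hk⟩ : (lam (φ j)).den ∣ Ld := Finset.dvd_prod_of_mem _ (Finset.mem_univ j)
      refine ⟨k * (lam (φ j)).num, ?_⟩
      rw [hk]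
      push_cast
      have : ((lam (φ j)).den : ℚ) * lam (φ j) = (lam (φ j)).num := Rat.den_mul_eq_num _
      linear_combination (-(k:ℚ)) * this
    choose b hb using hint
    obtain ⟨B, hB⟩ : ∃ B : ℤ, ∀ j, 0 ≤ b j + B := by
      refine ⟨∑ j, |b j|, fun j => ?_⟩
      have h1 : |b j| ≤ ∑ j, |b j| := Finset.single_le_sum (f := fun j => |b j|)
        (fun i _ => abs_nonneg _) (Finset.mem_univ j)
      have := neg_abs_le (b j)
      linarith
    refine ⟨Ld, B, fun j => (b j + B).toNat, by exact_mod_cast hLd0, fun j => ?_⟩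
    rw [← hb j]
    have : ((b j + B).toNat : ℤ) = b j + B := Int.toNat_of_nonneg (hB j)
    exact_mod_cast this
  have hwq : ∀ α ∈ mons k d, ((wt a α : ℕ) : ℚ) = L * lam (wt φ α) + B * d := by
    intro α hα
    have hdeg := mem_mons.mp hα
    simp only [wt]
    push_cast
    rw [map_sum]
    have : ∀ j, lam (α j • φ j) = α j * lam (φ j) := by
      intro j
      rw [map_nsmul, nsmul_eq_mul]
    simp only [this, smul_eq_mul]
    push_cast
    simp only [ha]
    rw [Finset.mul_sum, ← hdeg]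
    push_cast
    rw [Finset.mul_sum, ← Finset.sum_add_distrib]
    apply Finset.sum_congr rfl
    intro j _
    ring
  refine ⟨a, fun j l => ⟨fun h => ?_, fun h => ?_⟩, fun α hα β hβ => ⟨fun h => ?_, fun h => ?_⟩⟩
  · have : (a j : ℚ) = a l := by rw [ha, ha, h]
    exact_mod_cast this
  · by_contra hne
    have h1 : f (Sum.inl (j, l)) ≠ 0 := sub_ne_zero.mpr hne
    apply hlam ⟨Sum.inl (j, l), h1⟩
    show lam (φ j - φ l) = 0
    rw [map_sub]
    have h2 := ha j
    rw [h, ha l] at h2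
    have h3 : L * (lam (φ j) - lam (φ l)) = 0 := by linear_combination -h2
    exact (mul_eq_zero.mp h3).resolve_left hL
  · have : ((wt a α : ℕ) : ℚ) = (wt a β : ℕ) := by rw [hwq α hα, hwq β hβ, h]
    exact_mod_cast this
  · by_contra hne
    have h1 : f (Sum.inr (⟨α, hα⟩, ⟨β, hβ⟩)) ≠ 0 := sub_ne_zero.mpr hne
    apply hlam ⟨Sum.inr (⟨α, hα⟩, ⟨β, hβ⟩), h1⟩
    show lam (wt φ α - wt φ β) = 0
    rw [map_sub]
    have h2 := hwq α hα
    rw [h, hwq β hβ] at h2
    have h3 : L * (lam (wt φ α) - lam (wt φ β)) = 0 := by linear_combination -h2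
    exact (mul_eq_zero.mp h3).resolve_left hL

/-- there are finitely many types, so the weights can be bounded -/
lemma exists_bounded_type (k d : ℕ) :
    ∃ e : ℕ, ∀ a : Fin k → ℕ, ∃ b : Fin k → ℕ, SameType d a b ∧ ∀ j, b j ≤ e := by
  classical
  set T : Type := ((Fin k × Fin k) → Prop) × ((mons k d) × (mons k d) → Prop) with hT
  set τ : (Fin k → ℕ) → T := fun a =>
    (fun p => a p.1 = a p.2, fun p => wt a p.1.1 = wt a p.2.1) with hτ
  have hrep : ∀ t : T, ∃ b : Fin k → ℕ, (∃ a, τ a = t) → τ b = t := by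
    intro t
    by_cases h : ∃ a, τ a = t
    · obtain ⟨a, ha⟩ := h
      exact ⟨a, fun _ => ha⟩
    · exact ⟨fun _ => 0, fun h' => absurd h' h⟩
  choose rep hrep using hrep
  have : Finite T := inferInstance
  have : Fintype T := Fintype.ofFinite T
  refine ⟨∑ t : T, ∑ j, rep t j, fun a => ⟨rep (τ a), ?_, fun j => ?_⟩⟩
  · have h1 := hrep (τ a) ⟨a, rfl⟩
    constructor
    · intro j l
      have := congrFun (congrArg Prod.fst h1) (j, l)
      exact (iff_of_eq this).symm
    · intro α hα β hβ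
      have := congrFun (congrArg Prod.snd h1) (⟨α, hα⟩, ⟨β, hβ⟩)
      exact (iff_of_eq this).symm
  · calc rep (τ a) j ≤ ∑ j, rep (τ a) j :=
          Finset.single_le_sum (f := fun j => rep (τ a) j) (fun _ _ => Nat.zero_le _)
            (Finset.mem_univ j)
      _ ≤ _ := Finset.single_le_sum (f := fun t => ∑ j, rep t j) (fun _ _ => Nat.zero_le _)
            (Finset.mem_univ (τ a))

/-- Sums over the classes of one weight determine the sums over the classes of another weight. -/
lemma class_sum {ι A W W' : Type*} [AddCommMonoid A] [DecidableEq W] [DecidableEq W']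
    (s : Finset ι) (c : ι → A) (w : ι → W) (w' : ι → W')
    (h : ∀ α ∈ s, ∀ β ∈ s, w α = w β ↔ w' α = w' β)
    (hz : ∀ x, ∑ α ∈ s with w α = x, c α = 0) (y : W') : ∑ α ∈ s with w' α = y, c α = 0 := by
  by_cases hy : ∃ β ∈ s, w' β = y
  · obtain ⟨β, hβ, rfl⟩ := hy
    rw [← hz (w β)]
    apply Finset.sum_congr _ (fun _ _ => rfl)
    ext α
    rw [Finset.mem_filter, Finset.mem_filter]
    constructor
    · rintro ⟨h1, h2⟩
      exact ⟨h1, (h α h1 β hβ).mpr h2⟩
    · rintro ⟨h1, h2⟩
      exact ⟨h1, (h α h1 β hβ).mp h2⟩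
  · apply Finset.sum_eq_zero
    intro α hα
    exact absurd ⟨α, (Finset.mem_filter.mp hα).1, (Finset.mem_filter.mp hα).2⟩ hy

end

end Pool.Agent.H13.Kob
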